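import Mathlib

/-!
Weighted triple systems: `bd w i a` is the total weight of the triples that agree with `a`
outside coordinate `i`.
-/

namespace Pool.Agent.Lib.MP_469949_co

open Finset

/-- Triples (row, column, symbol). -/
abbrev Tr (V : Type) := Fin 3 → V

/-- `t` agrees with `a` outside coordinate `i`. -/
def Ag {V : Type} (i : Fin 3) (a t : Tr V) : Prop := ∀ j, j ≠ i → t j = a j

instance {V : Type} [DecidableEq V] (i : Fin 3) (a t : Tr V) : Decidable (Ag i a t) := by
  unfold Ag; infer_instance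

lemma Ag.symm {V : Type} {i : Fin 3} {a t : Tr V} (h : Ag i a t) : Ag i t a :=
  fun j hj => (h j hj).symm

lemma Ag.trans {V : Type} {i : Fin 3} {a b c : Tr V} (h : Ag i a b) (h' : Ag i b c) : Ag i a c :=
  fun j hj => (h' j hj).trans (h j hj)

lemma Ag.refl {V : Type} (i : Fin 3) (a : Tr V) : Ag i a a := fun _ _ => rfl

lemma ag_iff {V : Type} (i : Fin 3) (a t : Tr V) :
    Ag i a t ↔ t (i + 1) = a (i + 1) ∧ t (i + 2) = a (i + 2) := by
  unfold Ag
  fin_cases i
  · constructor
    · intro h
      exact ⟨h _ (by decide), h _ (by decide)⟩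
    · rintro ⟨h1, h2⟩ j hj
      fin_cases j
      · exact absurd rfl hj
      · exact h1
      · exact h2
  · constructor
    · intro h
      exact ⟨h _ (by decide), h _ (by decide)⟩
    · rintro ⟨h1, h2⟩ j hj
      fin_cases j
      · exact h2
      · exact absurd rfl hj
      · exact h1
  · constructor
    · intro h
      exact ⟨h _ (by decide), h _ (by decide)⟩
    · rintro ⟨h1, h2⟩ j hj
      fin_cases j
      · exact h1
      · exact h2
      · exact absurd rfl hj

lemma Ag.eq {V : Type} {i : Fin 3} {a t : Tr V} (h : Ag i a t) (hi : t i = a i) : t = a := by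
  funext j
  by_cases hj : j = i
  · rw [hj, hi]
  · exact h j hj

lemma Ag.update {V : Type} (i : Fin 3) (a : Tr V) (y : V) : Ag i a (Function.update a i y) :=
  fun _ hj => Function.update_of_ne hj _ _

variable {V : Type} [Fintype V] [DecidableEq V]

/-- Total weight of the triples agreeing with `a` outside coordinate `i`. -/
def bd (w : Tr V → ℤ) (i : Fin 3) (a : Tr V) : ℤ :=
  ∑ t : Tr V, if Ag i a t then w t else 0

lemma bd_congr {w : Tr V → ℤ} {i : Fin 3} {a b : Tr V} (h : Ag i a b) : bd w i a = bd w i b := by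
  unfold bd
  refine Finset.sum_congr rfl (fun t _ => ?_)
  have : Ag i a t ↔ Ag i b t := ⟨fun h' => (h.symm).trans h', fun h' => h.trans h'⟩
  simp [this]

lemma bd_add (w w' : Tr V → ℤ) (i : Fin 3) (a : Tr V) :
    bd (fun t => w t + w' t) i a = bd w i a + bd w' i a := by
  unfold bd
  rw [← Finset.sum_add_distrib]
  refine Finset.sum_congr rfl (fun t _ => ?_)
  split_ifs <;> simp

lemma bd_sub (w w' : Tr V → ℤ) (i : Fin 3) (a : Tr V) :
    bd (fun t => w t - w' t) i a = bd w i a - bd w' i a := by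
  unfold bd
  rw [← Finset.sum_sub_distrib]
  refine Finset.sum_congr rfl (fun t _ => ?_)
  split_ifs <;> simp

lemma bd_sum {ι : Type} (s : Finset ι) (w : ι → Tr V → ℤ) (i : Fin 3) (a : Tr V) :
    bd (fun t => ∑ k ∈ s, w k t) i a = ∑ k ∈ s, bd (w k) i a := by
  unfold bd
  rw [Finset.sum_comm]
  refine Finset.sum_congr rfl (fun t _ => ?_)
  split_ifs <;> simp

/-- Indicator of equality. -/
def Pe (u v : V) : ℤ := if u = v then 1 else 0

lemma bd_single (s : Tr V) (i : Fin 3) (a : Tr V) :
    bd (fun t => if t = s then 1 else 0) i a =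
      Pe (a (i + 1)) (s (i + 1)) * Pe (a (i + 2)) (s (i + 2)) := by
  unfold bd
  have h1 : (∑ t : Tr V, if Ag i a t then (if t = s then (1 : ℤ) else 0) else 0) =
      ∑ t : Tr V, if t = s then (if Ag i a s then 1 else 0) else 0 := by
    refine Finset.sum_congr rfl (fun t _ => ?_)
    by_cases h : t = s
    · subst h; simp
    · simp [h]
  rw [h1, Finset.sum_ite_eq' Finset.univ s]
  simp only [Finset.mem_univ, if_true]
  unfold Pe
  by_cases h : Ag i a s
  · rw [if_pos h]
    have := (ag_iff i a s).1 h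
    rw [if_pos this.1.symm, if_pos this.2.symm]; norm_num
  · rw [if_neg h]
    rw [ag_iff, not_and_or] at h
    rcases h with h | h
    · rw [if_neg (fun h' => h h'.symm)]; simp
    · rw [if_neg (fun h' => h h'.symm) (c := a (i + 2) = s (i + 2))]; simp

lemma bd_nonneg {w : Tr V → ℤ} (hw : ∀ t, 0 ≤ w t) (i : Fin 3) (a : Tr V) : 0 ≤ bd w i a := by
  unfold bd
  refine Finset.sum_nonneg (fun t _ => ?_)
  split_ifs
  · exact hw t
  · exact le_refl _

lemma le_bd {w : Tr V → ℤ} (hw : ∀ t, 0 ≤ w t) {i : Fin 3} {a t : Tr V} (h : Ag i a t) :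
    w t ≤ bd w i a := by
  unfold bd
  have : w t = if Ag i a t then w t else 0 := by rw [if_pos h]
  rw [this]
  refine Finset.single_le_sum (f := fun t => if Ag i a t then w t else 0) (fun s _ => ?_)
    (Finset.mem_univ t)
  split_ifs
  · exact hw s
  · exact le_refl _

lemma add_le_bd {w : Tr V → ℤ} (hw : ∀ t, 0 ≤ w t) {i : Fin 3} {a t t' : Tr V} (h : Ag i a t)
    (h' : Ag i a t') (hne : t ≠ t') : w t + w t' ≤ bd w i a := by
  unfold bd
  have h1 : w t + w t' = ∑ s ∈ ({t, t'} : Finset (Tr V)), if Ag i a s then w s else 0 := by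
    rw [Finset.sum_pair hne, if_pos h, if_pos h']
  rw [h1]
  refine Finset.sum_le_sum_of_subset_of_nonneg (Finset.subset_univ _) (fun s _ _ => ?_)
  split_ifs
  · exact hw s
  · exact le_refl _

lemma exists_of_bd_ne {w : Tr V → ℤ} {i : Fin 3} {a : Tr V} (h : bd w i a ≠ 0) :
    ∃ t, Ag i a t ∧ w t ≠ 0 := by
  by_contra hcon
  push Not at hcon
  apply h
  unfold bd
  refine Finset.sum_eq_zero (fun t _ => ?_)
  split_ifs with h1
  · exact hcon t h1
  · rfl

lemma bd_mono {w w' : Tr V → ℤ} (hw : ∀ t, w t ≤ w' t) (i : Fin 3) (a : Tr V) :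
    bd w i a ≤ bd w' i a := by
  unfold bd
  refine Finset.sum_le_sum (fun t _ => ?_)
  split_ifs
  · exact hw t
  · exact le_refl _

/-- An integer weight that is a latin square (as a set of triples). -/
def IsLS (w : Tr V → ℤ) : Prop := (∀ t, 0 ≤ w t) ∧ ∀ i a, bd w i a = 1

lemma IsLS.zero_or_one {w : Tr V → ℤ} (hw : IsLS w) (t : Tr V) : w t = 0 ∨ w t = 1 := by
  have h1 := hw.1 t
  have h2 : w t ≤ 1 := by
    have := le_bd hw.1 (Ag.refl 0 t)
    rw [hw.2] at this
    exact this
  omega

lemma IsLS.eq {w : Tr V → ℤ} (hw : IsLS w) {i : Fin 3} {t t' : Tr V} (h : Ag i t t')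
    (h1 : w t ≠ 0) (h2 : w t' ≠ 0) : t = t' := by
  by_contra hne
  have h3 := add_le_bd hw.1 (Ag.refl i t) h hne
  rw [hw.2] at h3
  have h4 := hw.1 t
  have h5 := hw.1 t'
  omega

lemma IsLS.exists {w : Tr V → ℤ} (hw : IsLS w) (i : Fin 3) (a : Tr V) :
    ∃ t, Ag i a t ∧ w t = 1 := by
  obtain ⟨t, ht, hne⟩ := exists_of_bd_ne (w := w) (i := i) (a := a) (by rw [hw.2]; norm_num)
  exact ⟨t, ht, (hw.zero_or_one t).resolve_left hne⟩

/-- The triple system of a latin square given as a function. -/
def ofFun (L : V → V → V) : Tr V → ℤ := fun t => if L (t 0) (t 1) = t 2 then 1 else 0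

lemma ofFun_isLS {L : V → V → V} (h1 : ∀ r c c', L r c = L r c' → c = c')
    (h2 : ∀ r r' c, L r c = L r' c → r = r') : IsLS (ofFun L) := by
  refine ⟨fun t => by unfold ofFun; split_ifs <;> norm_num, ?_⟩
  intro i a
  have key : ∃ s : Tr V, (∀ t, (Ag i a t ∧ L (t 0) (t 1) = t 2) ↔ t = s) := by
    fin_cases i
    · -- rows unknown
      have hinj : Function.Injective (fun r => L r (a 1)) := fun r r' h => h2 r r' _ h
      obtain ⟨r, hr⟩ := (Finite.injective_iff_surjective.1 hinj) (a 2)
      refine ⟨![r, a 1, a 2], fun t => ?_⟩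
      rw [ag_iff]
      constructor
      · rintro ⟨⟨h3, h4⟩, h5⟩
        have h3' : t 1 = a 1 := h3
        have h4' : t 2 = a 2 := h4
        rw [h3', h4'] at h5
        have : t 0 = r := hinj (h5.trans hr.symm)
        funext j
        fin_cases j
        · exact this
        · exact h3'
        · exact h4'
      · rintro rfl
        exact ⟨⟨rfl, rfl⟩, hr⟩
    · have hinj : Function.Injective (fun c => L (a 0) c) := fun r r' h => h1 _ r r' h
      obtain ⟨c, hc⟩ := (Finite.injective_iff_surjective.1 hinj) (a 2)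
      refine ⟨![a 0, c, a 2], fun t => ?_⟩
      rw [ag_iff]
      constructor
      · rintro ⟨⟨h3, h4⟩, h5⟩
        have h3' : t 2 = a 2 := h3
        have h4' : t 0 = a 0 := h4
        rw [h3', h4'] at h5
        have : t 1 = c := hinj (h5.trans hc.symm)
        funext j
        fin_cases j
        · exact h4'
        · exact this
        · exact h3'
      · rintro rfl
        exact ⟨⟨rfl, rfl⟩, hc⟩
    · refine ⟨![a 0, a 1, L (a 0) (a 1)], fun t => ?_⟩
      rw [ag_iff]
      constructor
      · rintro ⟨⟨h3, h4⟩, h5⟩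
        have h3' : t 0 = a 0 := h3
        have h4' : t 1 = a 1 := h4
        rw [h3', h4'] at h5
        funext j
        fin_cases j
        · exact h3'
        · exact h4'
        · exact h5.symm
      · rintro rfl
        exact ⟨⟨rfl, rfl⟩, rfl⟩
  obtain ⟨s, hs⟩ := key
  unfold bd ofFun
  have : ∀ t : Tr V, (if Ag i a t then (if L (t 0) (t 1) = t 2 then (1 : ℤ) else 0) else 0) =
      if t = s then 1 else 0 := by
    intro t
    have := hs t
    by_cases h3 : t = s
    · have h4 := this.2 h3
      rw [if_pos h4.1, if_pos h4.2, if_pos h3]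
    · rw [if_neg h3]
      split_ifs with h1 h2
      · exact absurd (this.1 ⟨h1, h2⟩) h3
      · rfl
      · rfl
  rw [Finset.sum_congr rfl (fun t _ => this t)]
  simp

end Pool.Agent.Lib.MP_469949_co
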