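import Pool.Agent.Lib.MP_469949_co.Defs

namespace Pool.Agent.Lib.MP_469949_co

lemma size_le {n : ℕ} (P : Fin n → Fin n → Option (Fin n)) : size P ≤ n ^ 2 := by
  unfold size
  refine (Finset.card_le_univ _).trans ?_
  simp [sq]

lemma bddAbove_sizes (n : ℕ) :
    BddAbove {k | ∃ P : Fin n → Fin n → Option (Fin n), IsCriticalSet P ∧ size P = k} := by
  refine ⟨n ^ 2, ?_⟩
  rintro k ⟨P, -, rfl⟩
  exact size_le P

lemma le_lcs {n : ℕ} {P : Fin n → Fin n → Option (Fin n)} (hP : IsCriticalSet P) :
    size P ≤ lcs n :=
  le_csSup (bddAbove_sizes n) ⟨P, hP, rfl⟩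

/-- A set `C` of cells determines the latin square `L`. -/
def Determines {n : ℕ} (L : Fin n → Fin n → Fin n) (C : Finset (Fin n × Fin n)) : Prop :=
  ∀ L', IsLatinSquare L' → (∀ r c, (r, c) ∈ C → L' r c = L r c) → L' = L

/-- If all cells outside `D` determine `L`, then there is a critical set containing all cells `x`
such that `L` can be changed to another latin square by changing cells of `D ∪ {x}` only. -/
theorem lcs_ge {n : ℕ} (L : Fin n → Fin n → Fin n) (hL : IsLatinSquare L)
    (D : Finset (Fin n × Fin n))
    (huniq : ∀ L', IsLatinSquare L' → (∀ r c, (r, c) ∉ D → L' r c = L r c) → L' = L)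
    (S : Finset (Fin n × Fin n))
    (hS : ∀ x ∈ S, ∃ L', IsLatinSquare L' ∧ L' ≠ L ∧
      ∀ r c, (r, c) ∉ D → (r, c) ≠ x → L' r c = L r c) :
    S.card ≤ lcs n := by
  classical
  -- the family of determining subsets of the complement of `D`
  have hex : ∃ C : Finset (Fin n × Fin n), Disjoint C D ∧ Determines L C ∧
      ∀ C' : Finset (Fin n × Fin n), C' ⊂ C → ¬ Determines L C' := by
    have hne : (Finset.univ.filter (fun C : Finset (Fin n × Fin n) =>
        Disjoint C D ∧ Determines L C)).Nonempty := by
      refine ⟨Dᶜ, ?_⟩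
      simp only [Finset.mem_filter, Finset.mem_univ, true_and]
      refine ⟨disjoint_compl_left, ?_⟩
      intro L' hL' h
      refine huniq L' hL' (fun r c hrc => h r c ?_)
      simpa using hrc
    obtain ⟨C, hC, hmin⟩ := Finset.exists_min_image _ Finset.card hne
    simp only [Finset.mem_filter, Finset.mem_univ, true_and] at hC hmin
    refine ⟨C, hC.1, hC.2, ?_⟩
    intro C' hC' hdet
    have := hmin C' ⟨Disjoint.mono_left hC'.1 hC.1, hdet⟩
    exact absurd this (not_le.mpr (Finset.card_lt_card hC'))
  obtain ⟨C, hdisj, hdet, hmin⟩ := hex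
  let P : Fin n → Fin n → Option (Fin n) := fun r c => if (r, c) ∈ C then some (L r c) else none
  have hPs : ∀ r c s, P r c = some s ↔ ((r, c) ∈ C ∧ L r c = s) := by
    intro r c s
    by_cases h : (r, c) ∈ C <;> simp [P, h]
  have hcomp : IsCompletion P L := ⟨hL, fun r c s h => ((hPs r c s).1 h).2⟩
  have hcrit : IsCriticalSet P := by
    refine ⟨⟨?_, ?_⟩, ⟨L, hcomp, ?_⟩, ?_⟩
    · intro r c c' s h h'
      have h1 := (hPs _ _ _).1 h
      have h2 := (hPs _ _ _).1 h'
      exact hL.1 r c c' (h1.2.trans h2.2.symm)
    · intro r r' c s h h'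
      have h1 := (hPs _ _ _).1 h
      have h2 := (hPs _ _ _).1 h'
      exact hL.2 r r' c (h1.2.trans h2.2.symm)
    · intro L' hL'
      refine hdet L' hL'.1 (fun r c hrc => ?_)
      exact hL'.2 r c _ ((hPs _ _ _).2 ⟨hrc, rfl⟩)
    · intro r c hrc
      have hmem : (r, c) ∈ C := by
        by_contra h
        simp [P, h] at hrc
      have hnd := hmin (C.erase (r, c)) (Finset.erase_ssubset hmem)
      unfold Determines at hnd
      push Not at hnd
      obtain ⟨L', hL', hag, hne⟩ := hnd
      have hem : ∀ r' c' s, emptied P r c r' c' = some s ↔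
          ((r', c') ∈ C.erase (r, c) ∧ L r' c' = s) := by
        intro r' c' s
        unfold emptied
        by_cases h : r' = r ∧ c' = c
        · simp [h]
        · rw [if_neg h, hPs, Finset.mem_erase]
          constructor
          · rintro ⟨h1, h2⟩
            refine ⟨⟨?_, h1⟩, h2⟩
            intro h3
            exact h (by simpa [Prod.ext_iff] using h3)
          · rintro ⟨h1, h2⟩
            exact ⟨h1.2, h2⟩
      refine ⟨L, L', fun h => hne h.symm, ⟨hL, ?_⟩, ⟨hL', ?_⟩⟩
      · intro r' c' s h
        exact ((hem _ _ _).1 h).2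
      · intro r' c' s h
        have := (hem _ _ _).1 h
        exact (hag r' c' this.1).trans this.2
  have hSC : S ⊆ C := by
    intro x hx
    by_contra hxC
    obtain ⟨L', hL', hne, hag⟩ := hS x hx
    refine hne (hdet L' hL' (fun r c hrc => hag r c ?_ ?_))
    · exact fun h => (Finset.disjoint_left.1 hdisj hrc) h
    · rintro rfl
      exact hxC hrc
  have hsize : size P = C.card := by
    unfold size
    congr 1
    ext x
    by_cases h : x ∈ C <;> simp [P, h]
  calc S.card ≤ C.card := Finset.card_le_card hSC
    _ = size P := hsize.symm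
    _ ≤ lcs n := le_lcs hcrit

/-- A critical set has an empty cell in every row. -/
theorem exists_empty {n : ℕ} {P : Fin n → Fin n → Option (Fin n)} (hP : IsCriticalSet P)
    (r : Fin n) : ∃ c, P r c = none := by
  classical
  by_contra hcon
  push Not at hcon
  have hsome : ∀ c, ∃ s, P r c = some s := fun c => Option.ne_none_iff_exists'.1 (hcon c)
  obtain ⟨s₀, hs₀⟩ := hsome r
  obtain ⟨L₁, L₂, hne, h₁, h₂⟩ := hP.2.2 r r (by simp [hs₀])
  have key : ∀ L, IsCompletion (emptied P r r) L → IsCompletion P L := by
    intro L hL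
    refine ⟨hL.1, ?_⟩
    have hother : ∀ r' c' s, ¬ (r' = r ∧ c' = r) → P r' c' = some s → L r' c' = s := by
      intro r' c' s h hPs
      refine hL.2 r' c' s ?_
      simp [emptied, h, hPs]
    intro r' c' s h
    by_cases hrc : r' = r ∧ c' = r
    · obtain ⟨h1, h2⟩ := hrc
      rw [h1, h2] at h ⊢
      -- the symbol `s` occurs in row `r` of `L` at some column `c₁`
      have hinj : Function.Injective (L r) := fun a b hab => hL.1.1 r a b hab
      obtain ⟨c₁, hc₁⟩ := (Finite.injective_iff_surjective.1 hinj) s
      by_cases hc : c₁ = r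
      · rw [← hc₁, hc]
      · exfalso
        obtain ⟨s₁, hs₁⟩ := hsome c₁
        have h1 : L r c₁ = s₁ := hother r c₁ s₁ (by simp [hc]) hs₁
        rw [hc₁] at h1
        subst h1
        exact hc (hP.1.1 r c₁ r s hs₁ h)
    · exact hother r' c' s hrc h
  obtain ⟨L, -, hu⟩ := hP.2.1
  exact hne ((hu L₁ (key L₁ h₁)).trans (hu L₂ (key L₂ h₂)).symm)

/-- The (easy, known) upper bound `lcs n ≤ n ^ 2 - n`. -/
theorem lcs_add_le (n : ℕ) : lcs n + n ≤ n ^ 2 := by
  classical
  have hall : ∀ P : Fin n → Fin n → Option (Fin n), IsCriticalSet P → size P + n ≤ n ^ 2 := by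
    intro P hP
    choose f hf using exists_empty hP
    have h1 : (Finset.univ.filter (fun x : Fin n × Fin n => (P x.1 x.2).isSome = true)).card +
        (Finset.univ.filter (fun x : Fin n × Fin n => ¬ (P x.1 x.2).isSome = true)).card =
          n ^ 2 := by
      rw [Finset.card_filter_add_card_filter_not]
      simp [sq]
    have h2 : n ≤ (Finset.univ.filter
        (fun x : Fin n × Fin n => ¬ (P x.1 x.2).isSome = true)).card := by
      calc n = (Finset.univ : Finset (Fin n)).card := by simp
        _ = ((Finset.univ : Finset (Fin n)).image (fun r => (r, f r))).card := by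
            rw [Finset.card_image_of_injective]
            intro a b hab
            exact (Prod.ext_iff.1 hab).1
        _ ≤ _ := by
            refine Finset.card_le_card ?_
            intro x hx
            simp only [Finset.mem_image, Finset.mem_univ, true_and] at hx
            obtain ⟨r, rfl⟩ := hx
            simp [hf r]
    unfold size
    omega
  rcases Nat.eq_zero_or_pos n with rfl | hn
  · have : lcs 0 ≤ 0 := by
      refine csSup_le' ?_
      rintro k ⟨P, -, rfl⟩
      simpa using size_le P
    simpa using this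
  · have hle : n ≤ n ^ 2 := by nlinarith
    have : lcs n ≤ n ^ 2 - n := by
      refine csSup_le' ?_
      rintro k ⟨P, hP, rfl⟩
      have := hall P hP
      omega
    omega

end Pool.Agent.Lib.MP_469949_co
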