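import Pool.Agent.Lib.MP_469949_co.Prolong
import Pool.Agent.Lib.MP_469949_co.Extend

/-!
The composite gadget and the resulting lower bound for `lcs`.
-/

namespace Pool.Agent.Lib.MP_469949_co

open Finset

/-- A gadget on `Z`, with the latin square given as a function. -/
structure FG (Z : Type) [Fintype Z] [DecidableEq Z] (f : Vx Z → Vx Z → Vx Z)
    (D : Set (Tr (Vx Z))) : Prop where
  hub : ∀ a b, f (Sum.inl a) (Sum.inl b) = Sum.inl (xor a b)
  row : ∀ r, Function.Injective (f r)
  col : ∀ c, Function.Injective (fun r => f r c)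
  Dsub : ∀ t ∈ D, ofFun f t = 1 ∧ ¬ hubTr t
  lg : LG Set.univ (ofFun f) D

lemma ofFun_eq_one {V : Type} [DecidableEq V] {L : V → V → V} {t : Tr V} :
    ofFun L t = 1 ↔ L (t 0) (t 1) = t 2 := by
  unfold ofFun
  split_ifs with h
  · simp [h]
  · simp [h]

lemma base_of {Z : Type} [Fintype Z] [DecidableEq Z] {f : Vx Z → Vx Z → Vx Z}
    {D : Set (Tr (Vx Z))} (hub : ∀ a b, f (Sum.inl a) (Sum.inl b) = Sum.inl (xor a b))
    (row : ∀ r, Function.Injective (f r)) (col : ∀ c, Function.Injective (fun r => f r c))
    (Dsub : ∀ t ∈ D, ofFun f t = 1 ∧ ¬ hubTr t) : Base (ofFun f) D := by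
  refine ⟨ofFun_isLS (fun r c c' h => row r h) (fun r r' c h => col c h), ?_, Dsub⟩
  intro b hb
  rw [ofFun_eq_one]
  show f (Sum.inl (b 0)) (Sum.inl (b 1)) = Sum.inl (b 2)
  rw [hub]
  congr 1
  revert hb
  cases b 0 <;> cases b 1 <;> cases b 2 <;> decide

lemma FG.base {Z : Type} [Fintype Z] [DecidableEq Z] {f : Vx Z → Vx Z → Vx Z}
    {D : Set (Tr (Vx Z))} (h : FG Z f D) : Base (ofFun f) D :=
  base_of h.hub h.row h.col h.Dsub

/-- `t` can be switched: there is a latin square not containing `t` that agrees with `N` outside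
`D`, the three hub triples different from `x0`, and `t`. -/
def Sw {Z : Type} [Fintype Z] [DecidableEq Z] (N : Tr (Vx Z) → ℤ) (D : Set (Tr (Vx Z)))
    (t : Tr (Vx Z)) : Prop :=
  ∃ L : Tr (Vx Z) → ℤ, IsLS L ∧ L t = 0 ∧
    ∀ s, N s = 1 → s ∉ D → s ≠ t → (¬ hubTr s ∨ s = x0) → L s = 1

section count
variable {Z : Type} [Fintype Z] [DecidableEq Z] {f : Vx Z → Vx Z → Vx Z} {D : Set (Tr (Vx Z))}

lemma exists_fun {V : Type} [Fintype V] [DecidableEq V] {w : Tr V → ℤ} (hw : IsLS w) :
    ∃ g : V → V → V, (∀ t, w t = ofFun g t) ∧ (∀ r c c', g r c = g r c' → c = c') ∧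
      (∀ r r' c, g r c = g r' c → r = r') := by
  have h : ∀ r c, ∃ s, w ![r, c, s] = 1 := by
    intro r c
    obtain ⟨t, ht, ht1⟩ := hw.exists 2 ![r, c, r]
    refine ⟨t 2, ?_⟩
    have e : ![r, c, t 2] = t := by
      funext j
      fin_cases j
      · exact (ht 0 (by decide)).symm
      · exact (ht 1 (by decide)).symm
      · rfl
    rw [e]; exact ht1
  choose g hg using h
  refine ⟨g, ?_, ?_, ?_⟩
  · intro t
    by_cases h : g (t 0) (t 1) = t 2
    · have e : ![t 0, t 1, g (t 0) (t 1)] = t := by
        funext j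
        fin_cases j
        · rfl
        · rfl
        · exact h
      have := hg (t 0) (t 1)
      rw [e] at this
      rw [this, ofFun_eq_one.2 h]
    · have e1 : ofFun g t = 0 := if_neg h
      rw [e1]
      by_contra hne
      have h2 := hg (t 0) (t 1)
      have h3 : t = ![t 0, t 1, g (t 0) (t 1)] := hw.eq (i := 2) (by
        intro j hj
        fin_cases j
        · rfl
        · rfl
        · exact absurd rfl hj) hne (by rw [h2]; norm_num)
      exact h (congrFun h3 2).symm
  · intro r c c' h
    have h1 := hg r c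
    have h2 := hg r c'
    rw [← h] at h2
    have h3 := hw.eq (i := 1) (t := ![r, c, g r c]) (t' := ![r, c', g r c]) (by
        intro j hj
        fin_cases j
        · rfl
        · exact absurd rfl hj
        · rfl) (by rw [h1]; norm_num) (by rw [h2]; norm_num)
    exact congrFun h3 1
  · intro r r' c h
    have h1 := hg r c
    have h2 := hg r' c
    rw [← h] at h2
    have h3 := hw.eq (i := 0) (t := ![r, c, g r c]) (t' := ![r', c, g r c]) (by
        intro j hj
        fin_cases j
        · exact absurd rfl hj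
        · rfl
        · rfl) (by rw [h1]; norm_num) (by rw [h2]; norm_num)
    exact congrFun h3 0

open Classical in
/-- lower bound from a gadget. -/
theorem FG.lcs_ge (h : FG Z f D) :
    (Finset.univ.filter (fun t : Tr (Vx Z) => ofFun f t = 1 ∧ Sw (ofFun f) D t)).card ≤
      lcs (Fintype.card (Vx Z)) := by
  let e := Fintype.equivFin (Vx Z)
  let L : Fin (Fintype.card (Vx Z)) → Fin (Fintype.card (Vx Z)) → Fin (Fintype.card (Vx Z)) :=
    fun r c => e (f (e.symm r) (e.symm c))
  let tri : Fin (Fintype.card (Vx Z)) → Fin (Fintype.card (Vx Z)) → Tr (Vx Z) :=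
    fun r c => ![e.symm r, e.symm c, f (e.symm r) (e.symm c)]
  have htri : ∀ r c, ofFun f (tri r c) = 1 := fun r c => ofFun_eq_one.2 rfl
  have hL : IsLatinSquare L := by
    refine ⟨fun r c c' hh => ?_, fun r r' c hh => ?_⟩
    · exact e.symm.injective (h.row _ (e.injective hh))
    · exact e.symm.injective (h.col _ (e.injective hh))
  let DD : Finset (Fin (Fintype.card (Vx Z)) × Fin (Fintype.card (Vx Z))) :=
    Finset.univ.filter (fun x => tri x.1 x.2 ∈ D ∨ (hubTr (tri x.1 x.2) ∧ tri x.1 x.2 ≠ x0))
  let SS : Finset (Fin (Fintype.card (Vx Z)) × Fin (Fintype.card (Vx Z))) :=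
    Finset.univ.filter (fun x => Sw (ofFun f) D (tri x.1 x.2))
  -- pull back of a latin square
  have hpull : ∀ L', IsLatinSquare L' →
      IsLS (ofFun (fun r c => e.symm (L' (e r) (e c)) : Vx Z → Vx Z → Vx Z)) := by
    intro L' hL'
    refine ofFun_isLS (fun r c c' hh => ?_) (fun r r' c hh => ?_)
    · exact e.injective (hL'.1 _ _ _ (e.symm.injective hh))
    · exact e.injective (hL'.2 _ _ _ (e.symm.injective hh))
  have hag : ∀ t, ofFun f t = 1 → t = tri (e (t 0)) (e (t 1)) := by
    intro t ht
    funext j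
    fin_cases j
    · show t 0 = e.symm (e (t 0))
      rw [e.symm_apply_apply]
    · show t 1 = e.symm (e (t 1))
      rw [e.symm_apply_apply]
    · show t 2 = f (e.symm (e (t 0))) (e.symm (e (t 1)))
      rw [e.symm_apply_apply, e.symm_apply_apply]
      exact (ofFun_eq_one.1 ht).symm
  have key := Pool.Agent.Lib.MP_469949_co.lcs_ge L hL DD ?_ SS ?_
  · refine le_trans ?_ key
    refine Finset.card_le_card_of_injOn (fun t => (e (t 0), e (t 1))) ?_ ?_
    · intro t ht
      simp only [Finset.coe_filter, Finset.mem_univ, true_and, Set.mem_setOf_eq] at ht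
      simp only [SS, Finset.coe_filter, Finset.mem_univ, true_and, Set.mem_setOf_eq]
      rw [← hag t ht.1]
      exact ht.2
    · intro t ht s hs hts
      simp only [Finset.coe_filter, Finset.mem_univ, true_and, Set.mem_setOf_eq] at ht hs
      simp only [Prod.mk.injEq] at hts
      rw [hag t ht.1, hag s hs.1, hts.1, hts.2]
  · -- uniqueness
    intro L' hL' hagree
    have h1 := h.lg.global_uniq h.base _ (hpull L' hL') ?_
    · funext r c
      have h2 := congrFun h1 (tri r c)
      rw [htri, ofFun_eq_one] at h2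
      have h3 : e.symm (L' (e (e.symm r)) (e (e.symm c))) = f (e.symm r) (e.symm c) := h2
      rw [e.apply_symm_apply, e.apply_symm_apply] at h3
      show L' r c = e (f (e.symm r) (e.symm c))
      rw [← h3, e.apply_symm_apply]
    · intro t ht htD hth
      rw [ofFun_eq_one]
      have hx : (e (t 0), e (t 1)) ∉ DD := by
        simp only [DD, Finset.mem_filter, Finset.mem_univ, true_and]
        rw [← hag t ht]
        rintro (hh | ⟨hh, hh'⟩)
        · exact htD hh
        · rcases hth with q | q
          · exact q hh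
          · exact hh' q
      rw [hagree _ _ hx]
      show e.symm (e (f (e.symm (e (t 0))) (e.symm (e (t 1))))) = t 2
      rw [e.symm_apply_apply, e.symm_apply_apply, e.symm_apply_apply]
      exact ofFun_eq_one.1 ht
  · -- switchable cells
    rintro ⟨r, c⟩ hrc
    simp only [SS, Finset.mem_filter, Finset.mem_univ, true_and] at hrc
    obtain ⟨w, hw, hwt, hws⟩ := hrc
    obtain ⟨g, hg, hg1, hg2⟩ := exists_fun hw
    refine ⟨fun r c => e (g (e.symm r) (e.symm c)), ⟨?_, ?_⟩, ?_, ?_⟩
    · intro r c c' hh
      exact e.symm.injective (hg1 _ _ _ (e.injective hh))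
    · intro r r' c hh
      exact e.symm.injective (hg2 _ _ _ (e.injective hh))
    · intro hh
      have h2 := congrFun (congrFun hh r) c
      have h3 : g (e.symm r) (e.symm c) = f (e.symm r) (e.symm c) := e.injective h2
      rw [hg] at hwt
      have h4 : ofFun g (tri r c) = 1 := ofFun_eq_one.2 h3
      rw [h4] at hwt
      norm_num at hwt
    · intro r' c' hD hne
      simp only [DD, Finset.mem_filter, Finset.mem_univ, true_and, not_or, not_and, not_not] at hD
      have h5 := hws (tri r' c') (htri r' c') hD.1 ?_ ?_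
      · rw [hg, ofFun_eq_one] at h5
        have h6 : g (e.symm r') (e.symm c') = f (e.symm r') (e.symm c') := h5
        show e (g (e.symm r') (e.symm c')) = e (f (e.symm r') (e.symm c'))
        rw [h6]
      · intro hh
        apply hne
        have e1 : e.symm r' = e.symm r := congrFun hh 0
        have e2 : e.symm c' = e.symm c := congrFun hh 1
        rw [e.symm.injective e1, e.symm.injective e2]
      · by_cases hh : hubTr (tri r' c')
        · exact Or.inr (hD.2 hh)
        · exact Or.inl hh

end count

end Pool.Agent.Lib.MP_469949_co
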