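import Pool.Agent.Lib.MP_469949_co.Check

/-!
Certificates for gadgets on `Fin k`.
-/

namespace Pool.Agent.Lib.MP_469949_co

open Finset

/-- table entry. -/
def tab (B n r c : ℕ) : ℕ := (B >>> (5 * (r * n + c))) % 32

/-- mask of the entries of a row. -/
def rowMask (B n r : ℕ) : ℕ := (List.range n).foldl (fun m c => m ||| (1 <<< tab B n r c)) 0
/-- mask of the entries of a column. -/
def colMask (B n c : ℕ) : ℕ := (List.range n).foldl (fun m r => m ||| (1 <<< tab B n r c)) 0

/-- no two coordinates are hubs. -/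
def oneHub (k t : ℕ) : Bool :=
  (!(decide (k ≤ tR t) && decide (k ≤ tC t))) && ((!(decide (k ≤ tC t) && decide (k ≤ tS t))) &&
    (!(decide (k ≤ tR t) && decide (k ≤ tS t))))

/-- not all coordinates are hubs. -/
def nonHub (k t : ℕ) : Bool :=
  !(decide (k ≤ tR t) && (decide (k ≤ tC t) && decide (k ≤ tS t)))

/-- the mask of the two pairs `{(i₀ : v), (j : hub 0)}`. -/
def dmask (k i₀ v : ℕ) : ℕ :=
  (1 <<< pcode ((i₀ + 2) % 3) v k) ||| (1 <<< pcode ((i₀ + 1) % 3) k v)

/-- the mask of the nine hub pairs different from `(0, 0)`. -/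
def hmask (k : ℕ) : ℕ :=
  (List.range 3).foldl (fun m i => m ||| ((1 <<< pcode i k (k + 1)) |||
    ((1 <<< pcode i (k + 1) k) ||| (1 <<< pcode i (k + 1) (k + 1))))) 0

/-- second pair of the triple with pair `p` and remaining coordinate `z`. -/
def q1 (p z : ℕ) : ℕ := pcode ((p / 1024 + 1) % 3) (p % 32) z
/-- third pair. -/
def q2 (p z : ℕ) : ℕ := pcode ((p / 1024 + 2) % 3) z ((p / 32) % 32)

/-- is the triple in `D`? -/
def isD (B n PD p z : ℕ) : Bool :=
  if p / 1024 = 0 then PD.testBit (pcode 2 z ((p / 32) % 32)) && (tab B n z ((p / 32) % 32) == p % 32)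
  else if p / 1024 = 1 then PD.testBit (pcode 2 (p % 32) z) && (tab B n (p % 32) z == (p / 32) % 32)
  else PD.testBit (pcode 2 ((p / 32) % 32) (p % 32)) && (tab B n ((p / 32) % 32) (p % 32) == z)

/-- exhaustive search along a stream of pairs. -/
def dfs (B n PD : ℕ) : ℕ → ℕ → Bool → List ℕ → Option (List ℕ)
  | 0, _, _, _ => none
  | f + 1, A, ok, st =>
    if A &&& PD = 0 then (if ok then some st else none)
    else match st with
      | [] => none
      | p :: st' =>
        if (A &&& PD).testBit p then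
          (List.range n).foldl (fun acc z => Option.bind acc (fun s =>
              if A.testBit (q1 p z) && A.testBit (q2 p z) then
                dfs B n PD f (A ^^^ ((1 <<< p) ||| ((1 <<< q1 p z) ||| (1 <<< q2 p z))))
                  (ok && isD B n PD p z) s
              else some s)) (some st')
        else none

/-- certificate of a gadget. -/
structure Cert where
  k : ℕ
  B : ℕ
  D : List ℕ
  tr : List (List ℕ × List ℕ)
  st : List ℕ

namespace Cert

/-- table check. -/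
def okTab (C : Cert) : Bool :=
  (List.range (C.k + 2)).all (fun r => (rowMask C.B (C.k + 2) r == 2 ^ (C.k + 2) - 1) &&
      (colMask C.B (C.k + 2) r == 2 ^ (C.k + 2) - 1)) &&
    ((tab C.B (C.k + 2) C.k C.k == C.k) && ((tab C.B (C.k + 2) C.k (C.k + 1) == C.k + 1) &&
      ((tab C.B (C.k + 2) (C.k + 1) C.k == C.k + 1) &&
        ((tab C.B (C.k + 2) (C.k + 1) (C.k + 1) == C.k) && decide (C.k + 2 ≤ 32)))))

/-- check of the elements of `D`. -/
def okD (C : Cert) : Bool :=
  C.D.all (fun t => valid (C.k + 2) t && ((tab C.B (C.k + 2) (tR t) (tC t) == tS t) &&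
    oneHub C.k t))

/-- check of one transfer. -/
def okTr1 (C : Cert) (i₀ x : ℕ) (q : List ℕ × List ℕ) : Bool :=
  q.1.all (fun t => C.D.contains t) && (q.2.all (fun t => valid (C.k + 2) t && nonHub C.k t) &&
    (match accP q.1, accP q.2 with
      | some mr, some ma => (mr &&& dmask C.k i₀ x == dmask C.k i₀ x) &&
          ((mr &&& dmask C.k i₀ (C.k + 1) == 0) &&
            (ma == (mr ^^^ dmask C.k i₀ x) ^^^ dmask C.k i₀ (C.k + 1)))
      | _, _ => false))

/-- check of all transfers. -/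
def okTr (C : Cert) : Bool :=
  (List.range 3).all (fun i₀ => (List.range C.k).all (fun x =>
    okTr1 C i₀ x (C.tr.getD (i₀ * C.k + x) ([], []))))

/-- check of the uniqueness. -/
def okU (C : Cert) : Bool :=
  match accP C.D with
  | none => false
  | some PD => (dfs C.B (C.k + 2) PD (C.D.length + 1) (PD ||| hmask C.k) true C.st).isSome

/-- the full check. -/
def check (C : Cert) : Bool := C.okTab && (C.okD && (C.okTr && C.okU))

/-- the latin square. -/
def fn (C : Cert) : Vx (Fin C.k) → Vx (Fin C.k) → Vx (Fin C.k) :=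
  fun r c => dec C.k (tab C.B (C.k + 2) (code C.k r) (code C.k c))

/-- the set `D`. -/
def Ds (C : Cert) : Set (Tr (Vx (Fin C.k))) := {t | ∃ c ∈ C.D, t = dect C.k c}

end Cert

lemma foldl_or {l : List ℕ} {f : ℕ → ℕ} {m p : ℕ} :
    (l.foldl (fun m c => m ||| (1 <<< f c)) m).testBit p = true ↔
      (m.testBit p = true ∨ ∃ c ∈ l, f c = p) := by
  induction l generalizing m with
  | nil => simp
  | cons a l ih =>
    rw [List.foldl_cons, ih, Nat.testBit_or, Bool.or_eq_true, testBit_one_shift]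
    simp only [decide_eq_true_eq, List.mem_cons, exists_eq_or_imp]
    exact or_assoc

lemma mask_full {n : ℕ} {f : ℕ → ℕ}
    (h : (List.range n).foldl (fun m c => m ||| (1 <<< f c)) 0 = 2 ^ n - 1) :
    (∀ c < n, f c < n) ∧ ∀ s < n, ∃ c < n, f c = s := by
  constructor
  · intro c hc
    have h1 : ((List.range n).foldl (fun m c => m ||| (1 <<< f c)) 0).testBit (f c) = true :=
      foldl_or.2 (Or.inr ⟨c, List.mem_range.2 hc, rfl⟩)
    rw [h, Nat.testBit_two_pow_sub_one] at h1
    simpa using h1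
  · intro s hs
    have h1 : ((List.range n).foldl (fun m c => m ||| (1 <<< f c)) 0).testBit s = true := by
      rw [h, Nat.testBit_two_pow_sub_one]
      simpa using hs
    rw [foldl_or] at h1
    rcases h1 with h1 | ⟨c, hc, hcs⟩
    · simp at h1
    · exact ⟨c, List.mem_range.1 hc, hcs⟩

lemma foldl_some {α : Type} {l : List ℕ} {g : ℕ → α → Option α} {acc : Option α} {res : α}
    (h : l.foldl (fun acc z => Option.bind acc (fun s => g z s)) acc = some res) :
    (∃ s, acc = some s) ∧ ∀ z ∈ l, ∃ s r, g z s = some r := by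
  induction l generalizing acc with
  | nil =>
    refine ⟨⟨res, h⟩, fun z hz => ?_⟩
    simp at hz
  | cons a l ih =>
    rw [List.foldl_cons] at h
    rcases acc with _ | s
    · obtain ⟨⟨s, hs⟩, -⟩ := ih h
      simp at hs
    · obtain ⟨⟨r, hr⟩, h2⟩ := ih h
      refine ⟨⟨s, rfl⟩, fun z hz => ?_⟩
      rcases List.mem_cons.1 hz with rfl | hz
      · exact ⟨s, r, hr⟩
      · exact h2 z hz

lemma aux1 : ∀ i₀ i : Fin 3, (i₀.val + 2) % 3 = i.val → i₀ = i + 1 := by decide
lemma aux1' : ∀ i : Fin 3, ((i + 1 : Fin 3).val + 2) % 3 = i.val := by decide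
lemma aux2 : ∀ i₀ i : Fin 3, (i₀.val + 1) % 3 = i.val → i₀ = i + 2 := by decide
lemma aux2' : ∀ i : Fin 3, ((i + 2 : Fin 3).val + 1) % 3 = i.val := by decide

section sound
variable (C : Cert)

lemma okTab_spec (h : C.okTab = true) :
    C.k + 2 ≤ 32 ∧ (∀ r < C.k + 2, ∀ c < C.k + 2, tab C.B (C.k + 2) r c < C.k + 2) ∧
    (∀ r < C.k + 2, ∀ s < C.k + 2, ∃ c < C.k + 2, tab C.B (C.k + 2) r c = s) ∧
    (∀ c < C.k + 2, ∀ s < C.k + 2, ∃ r < C.k + 2, tab C.B (C.k + 2) r c = s) ∧
    (tab C.B (C.k + 2) C.k C.k = C.k ∧ tab C.B (C.k + 2) C.k (C.k + 1) = C.k + 1 ∧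
      tab C.B (C.k + 2) (C.k + 1) C.k = C.k + 1 ∧
      tab C.B (C.k + 2) (C.k + 1) (C.k + 1) = C.k) := by
  unfold Cert.okTab at h
  simp only [Bool.and_eq_true, List.all_eq_true, List.mem_range, beq_iff_eq,
    decide_eq_true_eq] at h
  obtain ⟨h1, h2, h3, h4, h5, h6⟩ := h
  refine ⟨h6, ?_, ?_, ?_, h2, h3, h4, h5⟩
  · intro r hr c hc
    exact (mask_full (f := fun c => tab C.B (C.k + 2) r c) (h1 r hr).1).1 c hc
  · intro r hr s hs
    exact (mask_full (f := fun c => tab C.B (C.k + 2) r c) (h1 r hr).1).2 s hs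
  · intro c hc s hs
    exact (mask_full (f := fun r => tab C.B (C.k + 2) r c) (h1 c hc).2).2 s hs

lemma fn_row (h : C.okTab = true) (r : Vx (Fin C.k)) : Function.Injective (C.fn r) := by
  obtain ⟨h1, h2, h3, -⟩ := okTab_spec C h
  rw [Finite.injective_iff_surjective]
  intro s
  obtain ⟨c, hc, hcs⟩ := h3 _ (code_lt C.k r) _ (code_lt C.k s)
  refine ⟨dec C.k c, ?_⟩
  unfold Cert.fn
  rw [code_dec hc, hcs, dec_code]

lemma fn_col (h : C.okTab = true) (c : Vx (Fin C.k)) :
    Function.Injective (fun r => C.fn r c) := by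
  obtain ⟨h1, h2, -, h3, -⟩ := okTab_spec C h
  rw [Finite.injective_iff_surjective]
  intro s
  obtain ⟨r, hr, hrs⟩ := h3 _ (code_lt C.k c) _ (code_lt C.k s)
  refine ⟨dec C.k r, ?_⟩
  show C.fn (dec C.k r) c = s
  unfold Cert.fn
  rw [code_dec hr, hrs, dec_code]

lemma fn_hub (h : C.okTab = true) (a b : Bool) :
    C.fn (Sum.inl a) (Sum.inl b) = Sum.inl (xor a b) := by
  obtain ⟨-, -, -, -, e1, e2, e3, e4⟩ := okTab_spec C h
  have d1 : dec C.k C.k = Sum.inl false := by simp [dec]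
  have d2 : dec C.k (C.k + 1) = Sum.inl true := by simp [dec]
  unfold Cert.fn
  cases a <;> cases b <;> simp only [code]
  · rw [e1, d1]; rfl
  · rw [e2, d2]; rfl
  · rw [e3, d2]; rfl
  · rw [e4, d1]; rfl

lemma ofFun_fn (h : C.okTab = true) (t : Tr (Vx (Fin C.k))) : ofFun C.fn t = 1 ↔
    tab C.B (C.k + 2) (code C.k (t 0)) (code C.k (t 1)) = code C.k (t 2) := by
  obtain ⟨h1, h2, -⟩ := okTab_spec C h
  rw [ofFun_eq_one]
  have hlt := h2 _ (code_lt C.k (t 0)) _ (code_lt C.k (t 1))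
  unfold Cert.fn
  constructor
  · intro hh
    rw [← hh, code_dec hlt]
  · intro hh
    rw [hh, dec_code]

lemma dect_code {k t : ℕ} (hv : valid (k + 2) t = true) :
    code k (dect k t 0) = tR t ∧ code k (dect k t 1) = tC t ∧ code k (dect k t 2) = tS t := by
  obtain ⟨h1, h2, h3⟩ := (valid_iff _ _).1 hv
  exact ⟨code_dec h1, code_dec h2, code_dec h3⟩

lemma okD_spec (h : C.okD = true) : ∀ c ∈ C.D, valid (C.k + 2) c = true ∧
    tab C.B (C.k + 2) (tR c) (tC c) = tS c ∧ oneHub C.k c = true := by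
  unfold Cert.okD at h
  simp only [Bool.and_eq_true, List.all_eq_true, beq_iff_eq] at h
  intro c hc
  exact ⟨(h c hc).1, (h c hc).2.1, (h c hc).2.2⟩

lemma D_ofFun (hT : C.okTab = true) (hD : C.okD = true) {c : ℕ} (hc : c ∈ C.D) :
    ofFun C.fn (dect C.k c) = 1 := by
  obtain ⟨h1, h2, -⟩ := okD_spec C hD c hc
  obtain ⟨e1, e2, e3⟩ := dect_code h1
  rw [ofFun_fn C hT, e1, e2, e3, h2]

/-- elements of `D` have no hub pair. -/
lemma D_nohub (hD : C.okD = true) {c : ℕ} (hc : c ∈ C.D) (i : Fin 3) :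
    ¬ hubPair i (dect C.k c) := by
  obtain ⟨h1, -, h3⟩ := okD_spec C hD c hc
  obtain ⟨e1, e2, e3⟩ := dect_code h1
  unfold oneHub at h3
  simp only [Bool.and_eq_true, Bool.not_eq_true', Bool.and_eq_false_imp, decide_eq_true_eq,
    decide_eq_false_iff_not, not_le] at h3
  obtain ⟨g1, g2, g3⟩ := h3
  intro hp
  fin_cases i
  · have a1 := (isHub_iff_code _).1 (hp 1 (by decide))
    have a2 := (isHub_iff_code _).1 (hp 2 (by decide))
    rw [e2] at a1
    rw [e3] at a2
    have := g2 a1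
    omega
  · have a1 := (isHub_iff_code _).1 (hp 0 (by decide))
    have a2 := (isHub_iff_code _).1 (hp 2 (by decide))
    rw [e1] at a1
    rw [e3] at a2
    have := g3 a1
    omega
  · have a1 := (isHub_iff_code _).1 (hp 0 (by decide))
    have a2 := (isHub_iff_code _).1 (hp 1 (by decide))
    rw [e1] at a1
    rw [e2] at a2
    have := g1 a1
    omega

lemma D_sub (hT : C.okTab = true) (hD : C.okD = true) :
    ∀ t ∈ C.Ds, ofFun C.fn t = 1 ∧ ¬ hubTr t := by
  rintro t ⟨c, hc, rfl⟩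
  exact ⟨D_ofFun C hT hD hc, fun h => D_nohub C hD hc 0 (hubPair_of_hubTr h)⟩

lemma base_fn (hT : C.okTab = true) (hD : C.okD = true) : Base (ofFun C.fn) C.Ds :=
  base_of (fn_hub C hT) (fn_row C hT) (fn_col C hT) (D_sub C hT hD)

/-- deficit masks. -/
lemma defc_dmask {k : ℕ} (hk : k + 2 ≤ 32) (i₀ i : Fin 3) (v : Vx (Fin k))
    (a : Tr (Vx (Fin k))) :
    defc i₀ v i a = if (dmask k i₀.val (code k v)).testBit (pc i a) = true then 1 else 0 := by
  have hv := code_lt k v
  have h4 := code_lt k (a (i + 1))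
  have h5 := code_lt k (a (i + 2))
  have hpc : pc i a = pcode i.val (code k (a (i + 1))) (code k (a (i + 2))) := rfl
  have hh0 : code k (h0 : Vx (Fin k)) = k := rfl
  have key1 : pcode ((i₀.val + 2) % 3) (code k v) k = pc i a ↔
      (i₀ = i + 1 ∧ a (i + 1) = v ∧ a (i + 2) = h0) := by
    rw [hpc]
    constructor
    · intro h
      obtain ⟨q1, q2, q3⟩ := pcode_inj (by omega) (by omega) (by omega) (by omega) h
      exact ⟨aux1 i₀ i q1, (code_inj q2).symm, code_inj (by rw [hh0]; exact q3.symm)⟩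
    · rintro ⟨q1, q2, q3⟩
      rw [q2, q3, hh0, q1, aux1' i]
  have key2 : pcode ((i₀.val + 1) % 3) k (code k v) = pc i a ↔
      (i₀ = i + 2 ∧ a (i + 2) = v ∧ a (i + 1) = h0) := by
    rw [hpc]
    constructor
    · intro h
      obtain ⟨q1, q2, q3⟩ := pcode_inj (by omega) (by omega) (by omega) (by omega) h
      exact ⟨aux2 i₀ i q1, (code_inj q3).symm, code_inj (by rw [hh0]; exact q2.symm)⟩
    · rintro ⟨q1, q2, q3⟩
      rw [q2, q3, hh0, q1, aux2' i]
  have key : (dmask k i₀.val (code k v)).testBit (pc i a) = true ↔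
      ((i₀ = i + 1 ∧ a (i + 1) = v ∧ a (i + 2) = h0) ∨
        (i₀ = i + 2 ∧ a (i + 2) = v ∧ a (i + 1) = h0)) := by
    unfold dmask
    rw [Nat.testBit_or, testBit_one_shift, testBit_one_shift, Bool.or_eq_true,
      decide_eq_true_eq, decide_eq_true_eq, key1, key2]
  have hne : ∀ j : Fin 3, j + 1 ≠ j + 2 := by decide
  unfold defc
  by_cases hb : (dmask k i₀.val (code k v)).testBit (pc i a) = true
  · rw [if_pos hb]
    rcases key.1 hb with ⟨c1, d1, d2⟩ | ⟨c2, d1, d2⟩
    · have c2 : ¬ i₀ = i + 2 := fun h => hne i (c1.symm.trans h)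
      rw [if_pos c1, if_neg c2, d1, d2, Pe_self, Pe_self]; norm_num
    · have c1 : ¬ i₀ = i + 1 := fun h => hne i (h.symm.trans c2)
      rw [if_neg c1, if_pos c2, d1, d2, Pe_self, Pe_self]; norm_num
  · rw [if_neg hb]
    have e1 : (if i₀ = i + 1 then Pe (a (i + 1)) v * Pe (a (i + 2)) h0 else 0) = 0 := by
      by_cases c1 : i₀ = i + 1
      · rw [if_pos c1]
        by_cases d1 : a (i + 1) = v
        · by_cases d2 : a (i + 2) = h0
          · exact absurd (key.2 (Or.inl ⟨c1, d1, d2⟩)) hb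
          · rw [Pe_eq_zero d2, mul_zero]
        · rw [Pe_eq_zero d1, zero_mul]
      · rw [if_neg c1]
    have e2 : (if i₀ = i + 2 then Pe (a (i + 2)) v * Pe (a (i + 1)) h0 else 0) = 0 := by
      by_cases c1 : i₀ = i + 2
      · rw [if_pos c1]
        by_cases d1 : a (i + 2) = v
        · by_cases d2 : a (i + 1) = h0
          · exact absurd (key.2 (Or.inr ⟨c1, d1, d2⟩)) hb
          · rw [Pe_eq_zero d2, mul_zero]
        · rw [Pe_eq_zero d1, zero_mul]
      · rw [if_neg c1]
    rw [e1, e2]; norm_num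

end sound

end Pool.Agent.Lib.MP_469949_co
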