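import Pool.Agent.Lib.MP_469949_co.BigGadget

/-!
A verified checker for gadgets on `Fin k`.
-/

namespace Pool.Agent.Lib.MP_469949_co

open Finset

/-- code of an index. -/
def code (k : ℕ) : Vx (Fin k) → ℕ
  | Sum.inr i => i.val
  | Sum.inl false => k
  | Sum.inl true => k + 1

/-- decoding. -/
def dec (k c : ℕ) : Vx (Fin k) :=
  if h : c < k then Sum.inr ⟨c, h⟩ else if c = k then Sum.inl false else Sum.inl true

lemma dec_code (k : ℕ) (v : Vx (Fin k)) : dec k (code k v) = v := by
  rcases v with b | i
  · cases b
    · simp [code, dec]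
    · simp [code, dec]
  · simp [code, dec]

lemma code_lt (k : ℕ) (v : Vx (Fin k)) : code k v < k + 2 := by
  rcases v with b | i
  · cases b <;> simp [code]
  · simp only [code]
    have := i.2
    omega

lemma code_dec {k c : ℕ} (h : c < k + 2) : code k (dec k c) = c := by
  unfold dec
  split_ifs with h1 h2
  · rfl
  · simp [code, h2]
  · simp only [code]; omega

lemma code_inj {k : ℕ} {v w : Vx (Fin k)} (h : code k v = code k w) : v = w := by
  rw [← dec_code k v, ← dec_code k w, h]

lemma isHub_iff_code {k : ℕ} (v : Vx (Fin k)) : isHub v ↔ k ≤ code k v := by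
  rcases v with b | i
  · constructor
    · intro _; cases b <;> simp [code]
    · intro _; exact ⟨b, rfl⟩
  · constructor
    · intro h; exact absurd h (not_hub_inr i)
    · intro h
      simp only [code] at h
      have := i.2
      omega

/-- coded triples. -/
def tR (t : ℕ) : ℕ := t / 1024
/-- coded triples. -/
def tC (t : ℕ) : ℕ := (t / 32) % 32
/-- coded triples. -/
def tS (t : ℕ) : ℕ := t % 32
/-- code of a pair. -/
def pcode (i x y : ℕ) : ℕ := (i * 32 + x) * 32 + y

/-- decoded triple. -/
def dect (k t : ℕ) : Tr (Vx (Fin k)) := ![dec k (tR t), dec k (tC t), dec k (tS t)]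

/-- the three pairs of a coded triple. -/
def bits (t : ℕ) : ℕ :=
  (1 <<< pcode 0 (tC t) (tS t)) ||| ((1 <<< pcode 1 (tS t) (tR t)) ||| (1 <<< pcode 2 (tR t) (tC t)))

/-- pair mask of a list of pair-disjoint triples. -/
def accP : List ℕ → Option ℕ
  | [] => some 0
  | t :: l => match accP l with
    | none => none
    | some m => if m &&& bits t = 0 then some (m ||| bits t) else none

/-- pair code of `(i, a)`. -/
def pc {k : ℕ} (i : Fin 3) (a : Tr (Vx (Fin k))) : ℕ :=
  pcode i.val (code k (a (i + 1))) (code k (a (i + 2)))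

lemma testBit_one_shift (a p : ℕ) : (1 <<< a).testBit p = decide (a = p) := by
  rw [Nat.one_shiftLeft, Nat.testBit_two_pow]

lemma testBit_bits (t p : ℕ) : (bits t).testBit p = true ↔
    (pcode 0 (tC t) (tS t) = p ∨ pcode 1 (tS t) (tR t) = p ∨ pcode 2 (tR t) (tC t) = p) := by
  unfold bits
  rw [Nat.testBit_or, Nat.testBit_or, testBit_one_shift, testBit_one_shift, testBit_one_shift]
  simp

lemma pcode_inj {i x y i' x' y' : ℕ} (hx : x < 32) (hy : y < 32) (hx' : x' < 32) (hy' : y' < 32)
    (h : pcode i x y = pcode i' x' y') : i = i' ∧ x = x' ∧ y = y' := by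
  unfold pcode at h
  omega

lemma ag_iff_pc {k : ℕ} (hk : k + 2 ≤ 32) (i : Fin 3) (a b : Tr (Vx (Fin k))) :
    Ag i a b ↔ pc i a = pc i b := by
  rw [ag_iff]
  unfold pc
  have h1 := code_lt k (a (i + 1))
  have h2 := code_lt k (a (i + 2))
  have h3 := code_lt k (b (i + 1))
  have h4 := code_lt k (b (i + 2))
  constructor
  · rintro ⟨e1, e2⟩
    rw [e1, e2]
  · intro h
    obtain ⟨-, e1, e2⟩ := pcode_inj (by omega) (by omega) (by omega) (by omega) h
    exact ⟨(code_inj e1).symm, (code_inj e2).symm⟩

/-- a coded triple with coordinates below `n`. -/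
def valid (n t : ℕ) : Bool := decide (tR t < n) && (decide (tC t < n) && decide (tS t < n))

lemma valid_iff (n t : ℕ) : valid n t = true ↔ tR t < n ∧ tC t < n ∧ tS t < n := by
  simp [valid]

/-- pair code of a coded triple. -/
lemma pc_dect {k t : ℕ} (hv : valid (k + 2) t = true) (i : Fin 3) :
    pc i (dect k t) = match i with
      | 0 => pcode 0 (tC t) (tS t)
      | 1 => pcode 1 (tS t) (tR t)
      | 2 => pcode 2 (tR t) (tC t) := by
  obtain ⟨h1, h2, h3⟩ := (valid_iff _ _).1 hv
  fin_cases i
  · show pcode 0 (code k (dec k (tC t))) (code k (dec k (tS t))) = pcode 0 (tC t) (tS t)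
    rw [code_dec h2, code_dec h3]
  · show pcode 1 (code k (dec k (tS t))) (code k (dec k (tR t))) = pcode 1 (tS t) (tR t)
    rw [code_dec h3, code_dec h1]
  · show pcode 2 (code k (dec k (tR t))) (code k (dec k (tC t))) = pcode 2 (tR t) (tC t)
    rw [code_dec h1, code_dec h2]

lemma bits_iff {k t : ℕ} (hk : k + 2 ≤ 32) (hv : valid (k + 2) t = true) (i : Fin 3)
    (a : Tr (Vx (Fin k))) : (bits t).testBit (pc i a) = true ↔ Ag i a (dect k t) := by
  rw [testBit_bits, ag_iff_pc hk, pc_dect hv]
  obtain ⟨h1, h2, h3⟩ := (valid_iff _ _).1 hv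
  have h4 := code_lt k (a (i + 1))
  have h5 := code_lt k (a (i + 2))
  have hpc : pc i a = pcode i.val (code k (a (i + 1))) (code k (a (i + 2))) := rfl
  constructor
  · rintro (h | h | h)
    · rw [hpc] at h
      obtain ⟨e, -, -⟩ := pcode_inj (by omega) (by omega) (by omega) (by omega) h
      have hi : i = 0 := Fin.ext e.symm
      subst hi
      exact h.symm
    · rw [hpc] at h
      obtain ⟨e, -, -⟩ := pcode_inj (by omega) (by omega) (by omega) (by omega) h
      have hi : i = 1 := Fin.ext e.symm
      subst hi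
      exact h.symm
    · rw [hpc] at h
      obtain ⟨e, -, -⟩ := pcode_inj (by omega) (by omega) (by omega) (by omega) h
      have hi : i = 2 := Fin.ext e.symm
      subst hi
      exact h.symm
  · intro h
    fin_cases i
    · exact Or.inl h.symm
    · exact Or.inr (Or.inl h.symm)
    · exact Or.inr (Or.inr h.symm)

/-- weight of a list of coded triples. -/
def Sl (k : ℕ) (l : List ℕ) : Tr (Vx (Fin k)) → ℤ :=
  fun t => (l.map (fun c => if t = dect k c then (1 : ℤ) else 0)).sum

lemma Sl_nonneg (k : ℕ) (l : List ℕ) (t : Tr (Vx (Fin k))) : 0 ≤ Sl k l t := by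
  unfold Sl
  refine List.sum_nonneg (fun x hx => ?_)
  rw [List.mem_map] at hx
  obtain ⟨c, -, rfl⟩ := hx
  split_ifs <;> norm_num

lemma Sl_pos {k : ℕ} {l : List ℕ} {t : Tr (Vx (Fin k))} (h : ∃ c ∈ l, t = dect k c) :
    1 ≤ Sl k l t := by
  induction l with
  | nil => obtain ⟨c, hc, -⟩ := h; simp at hc
  | cons a l ih =>
    have e : Sl k (a :: l) t = (if t = dect k a then 1 else 0) + Sl k l t := rfl
    rw [e]
    have h0 := Sl_nonneg k l t
    obtain ⟨c, hc, hct⟩ := h
    rcases List.mem_cons.1 hc with rfl | hc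
    · rw [if_pos hct]; linarith
    · have := ih ⟨c, hc, hct⟩
      split_ifs <;> linarith

lemma Sl_zero {k : ℕ} {l : List ℕ} {t : Tr (Vx (Fin k))} (h : ∀ c ∈ l, t ≠ dect k c) :
    Sl k l t = 0 := by
  induction l with
  | nil => rfl
  | cons a l ih =>
    have e : Sl k (a :: l) t = (if t = dect k a then 1 else 0) + Sl k l t := rfl
    rw [e, if_neg (h a (List.mem_cons_self)), ih (fun c hc => h c (List.mem_cons_of_mem _ hc))]
    norm_num

lemma mem_of_Sl {k : ℕ} {l : List ℕ} {t : Tr (Vx (Fin k))} (h : Sl k l t ≠ 0) :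
    ∃ c ∈ l, t = dect k c := by
  by_contra hcon
  push Not at hcon
  exact h (Sl_zero hcon)

lemma accP_mem {l : List ℕ} {m : ℕ} (h : accP l = some m) (p : ℕ) :
    m.testBit p = true ↔ ∃ t ∈ l, (bits t).testBit p = true := by
  induction l generalizing m with
  | nil =>
    simp only [accP, Option.some.injEq] at h
    subst h
    simp
  | cons t l ih =>
    unfold accP at h
    rcases hl : accP l with _ | m'
    · rw [hl] at h; simp at h
    · rw [hl] at h
      simp only at h
      split_ifs at h with h0
      simp only [Option.some.injEq] at h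
      subst h
      rw [Nat.testBit_or, Bool.or_eq_true, ih hl]
      simp only [List.mem_cons, exists_eq_or_imp]
      exact or_comm

lemma bd_Sl {k : ℕ} (hk : k + 2 ≤ 32) {l : List ℕ} {m : ℕ} (h : accP l = some m)
    (hv : ∀ t ∈ l, valid (k + 2) t = true) (i : Fin 3) (a : Tr (Vx (Fin k))) :
    bd (Sl k l) i a = if m.testBit (pc i a) = true then 1 else 0 := by
  induction l generalizing m with
  | nil =>
    simp only [accP, Option.some.injEq] at h
    subst h
    simp [Sl, bd]
  | cons t l ih =>
    unfold accP at h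
    rcases hl : accP l with _ | m'
    · rw [hl] at h; simp at h
    · rw [hl] at h
      simp only at h
      split_ifs at h with h0
      simp only [Option.some.injEq] at h
      subst h
      have e : Sl k (t :: l) = fun s => (if s = dect k t then 1 else 0) + Sl k l s := rfl
      rw [e, bd_add, ih hl (fun s hs => hv s (List.mem_cons_of_mem _ hs))]
      have hvt := hv t (List.mem_cons_self)
      have h1 : bd (fun s => if s = dect k t then (1 : ℤ) else 0) i a =
          if (bits t).testBit (pc i a) = true then 1 else 0 := by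
        rw [bd_single]
        by_cases hag : Ag i a (dect k t)
        · rw [if_pos ((bits_iff hk hvt i a).2 hag)]
          obtain ⟨q1, q2⟩ := (ag_iff _ _ _).1 hag
          rw [q1, q2, Pe_self, Pe_self]; norm_num
        · rw [if_neg (fun h' => hag ((bits_iff hk hvt i a).1 h'))]
          rw [ag_iff, not_and_or] at hag
          rcases hag with q | q
          · rw [Pe_eq_zero (fun h => q h.symm), zero_mul]
          · rw [Pe_eq_zero (u := a (i + 2)) (fun h => q h.symm), mul_zero]
      rw [h1, Nat.testBit_or]
      have h2 : ¬ (m'.testBit (pc i a) = true ∧ (bits t).testBit (pc i a) = true) := by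
        rintro ⟨q1, q2⟩
        have := congrArg (fun x => x.testBit (pc i a)) h0
        simp only [Nat.testBit_and, q1, q2, Nat.zero_testBit] at this
        exact absurd this (by decide)
      by_cases q1 : m'.testBit (pc i a) = true <;> by_cases q2 : (bits t).testBit (pc i a) = true
      · exact absurd ⟨q1, q2⟩ h2
      · simp [q1, q2]
      · simp [q1, q2]
      · simp [q1, q2]

end Pool.Agent.Lib.MP_469949_co
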