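import Pool.Agent.Lib.MP_469949_co.Gadget

/-!
Composition of gadgets, and alternative latin squares.
-/

namespace Pool.Agent.Lib.MP_469949_co

open Finset

variable {Z : Type} [Fintype Z] [DecidableEq Z] {N : Tr (Vx Z) → ℤ} {D : Set (Tr (Vx Z))}

lemma add_one_ne : ∀ i : Fin 3, i + 1 ≠ i := by decide
lemma add_two_ne : ∀ i : Fin 3, i + 2 ≠ i := by decide

lemma third_exists : ∀ i j : Fin 3, ∃ k : Fin 3, k ≠ i ∧ k ≠ j := by decide

omit [Fintype Z] [DecidableEq Z] in
/-- Two groups meet only in hubs. -/
lemma hub_of_two {G : Type} {γ : Z → G} {g g' : G} (hg : g ≠ g') {v : Vx Z}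
    (h : inS (γ ⁻¹' {g}) v) (h' : inS (γ ⁻¹' {g'}) v) : isHub v := by
  rcases isHub_or v with h1 | ⟨z, rfl⟩
  · exact h1
  · have a := inS_inr.1 h
    have b := inS_inr.1 h'
    simp only [Set.mem_preimage, Set.mem_singleton_iff] at a b
    exact absurd (a.symm.trans b) hg

/-- the composite of gadgets is a gadget. -/
theorem LG.comp {G : Type} (γ : Z → G) (hB : Base N D)
    (hDg : ∀ t ∈ D, ∃ g, inTr (γ ⁻¹' {g}) t) (h : ∀ g, LG (γ ⁻¹' {g}) N D) :
    LG Set.univ N D := by
  classical
  refine ⟨fun i t _ _ => fun z _ => Set.mem_univ z, ?_, ?_⟩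
  · intro M hM0 hMs hM1 hMle hMx hMD t _ htn htN
    by_cases htD : t ∉ D
    · exact hMD t (fun j z _ => Set.mem_univ z) htn htN htD
    push Not at htD
    obtain ⟨g, hg⟩ := hDg t htD
    let Mg : Tr (Vx Z) → ℤ := fun s => if inTr (γ ⁻¹' {g}) s then M s else 0
    have hMg : ∀ s, inTr (γ ⁻¹' {g}) s → Mg s = M s := fun s hs => if_pos hs
    have hMg0 : ∀ s, 0 ≤ Mg s := by
      intro s; simp only [Mg]; split_ifs
      · exact hM0 s
      · exact le_refl _
    have hMgle : ∀ s, Mg s ≤ M s := by
      intro s; simp only [Mg]; split_ifs
      · exact le_refl _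
      · exact hM0 s
    have key := (h g).uniq Mg hMg0 ?_ ?_ ?_ ?_ ?_ t hg htn htN
    · rwa [hMg t hg] at key
    · intro s hs
      simp only [Mg] at hs
      split_ifs at hs with h1
      · exact ⟨h1, (hMs s hs).2⟩
      · exact absurd rfl hs
    · intro i a ha hna
      rw [← hM1 i a (fun j _ z _ => Set.mem_univ z) hna]
      unfold bd
      refine Finset.sum_congr rfl (fun s _ => ?_)
      split_ifs with hag
      · by_cases h1 : inTr (γ ⁻¹' {g}) s
        · exact hMg s h1
        · have h2 : Mg s = 0 := if_neg h1
          rw [h2]
          by_contra hne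
          have hne' : M s ≠ 0 := fun h => hne h.symm
          have hMs1 : 1 ≤ M s := by
            have := hM0 s
            omega
          -- coordinate `i` of `s` is outside of the group
          have hsp : inPair (γ ⁻¹' {g}) i s := inPair_of_ag hag ha
          have hsi : ¬ inS (γ ⁻¹' {g}) (s i) := fun h => h1 (inTr_of hsp h)
          obtain ⟨z, hz, hzg⟩ : ∃ z, s i = Sum.inr z ∧ γ z ≠ g := by
            unfold inS at hsi
            push Not at hsi
            obtain ⟨z, hz, hz'⟩ := hsi
            exact ⟨z, hz, hz'⟩
          -- some other coordinate is in the group and not a hub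
          obtain ⟨j, hj, y, hy⟩ : ∃ j, j ≠ i ∧ ∃ y, s j = Sum.inr y := by
            unfold hubPair at hna
            push Not at hna
            obtain ⟨j, hj, hj'⟩ := hna
            rcases isHub_or (a j) with h3 | ⟨y, hy⟩
            · exact absurd h3 hj'
            · exact ⟨j, hj, y, (hag j hj).trans hy⟩
          have hyg : γ y = g := by
            have := hsp j hj
            rw [hy] at this
            have h6 := inS_inr.1 this
            exact h6
          -- the third coordinate
          obtain ⟨k, hki, hkj⟩ := third_exists i j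
          obtain ⟨t₀, ht₀, ht₀1⟩ := hB.ls.exists k s
          have e1 : t₀ i = Sum.inr z := (ht₀ i hki.symm).trans hz
          have e2 : t₀ j = Sum.inr y := (ht₀ j hkj.symm).trans hy
          have ht₀D : t₀ ∉ D := by
            intro hD
            obtain ⟨g', hg'⟩ := hDg t₀ hD
            have a1 := hg' i
            have a2 := hg' j
            rw [e1] at a1
            rw [e2] at a2
            have b1 := inS_inr.1 a1
            have b2 := inS_inr.1 a2
            simp only [Set.mem_preimage, Set.mem_singleton_iff] at b1 b2
            exact hzg (b1.trans (b2.symm.trans hyg))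
          have ht₀h : ¬ hubTr t₀ := by
            intro hh
            have := hh i
            rw [e1] at this
            exact not_hub_inr z this
          have hM₀ : M t₀ = 1 := hMD t₀ (fun j z _ => Set.mem_univ z) ht₀h ht₀1 ht₀D
          by_cases hst : s = t₀
          · rw [← hst] at ht₀1
            exact hsi ((h g).sub i s hsp ht₀1)
          · have := add_le_bd hM0 (Ag.refl k s) ht₀ hst
            have h4 := hMle k s
            omega
      · rfl
    · intro i a
      exact (bd_mono hMgle i a).trans (hMle i a)
    · intro i a ha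
      have h1 := bd_mono hMgle i a
      have h2 := bd_nonneg hMg0 i a
      rw [hMx i a ha] at h1
      omega
    · intro s hs hsn hsN hsD
      rw [hMg s hs]
      exact hMD s (fun j z _ => Set.mem_univ z) hsn hsN hsD
  · intro i₀ x _
    set g := γ x with hgdef
    obtain ⟨A, hA0, hAs, hAD, hAb⟩ := (h g).tr i₀ x (by simp [hgdef])
    have hsub := (h g).sub
    refine ⟨fun t => (res Set.univ N t - res (γ ⁻¹' {g}) N t) + A t, ?_, ?_, ?_, ?_⟩
    · intro t
      have h1 : res (γ ⁻¹' {g}) N t ≤ res Set.univ N t := by
        unfold res
        split_ifs with h1 h2 h2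
        · exact le_refl _
        · exact absurd ⟨fun j z _ => Set.mem_univ z, h1.2⟩ h2
        · exact hB.ls.1 t
        · exact le_refl _
      have := hA0 t
      show 0 ≤ (res Set.univ N t - res (γ ⁻¹' {g}) N t) + A t
      linarith
    · intro t ht
      refine ⟨fun j z _ => Set.mem_univ z, ?_⟩
      intro hh
      apply ht
      show (res Set.univ N t - res (γ ⁻¹' {g}) N t) + A t = 0
      have h1 : res Set.univ N t = 0 := by unfold res; rw [if_neg (fun h => h.2 hh)]
      have h2 : res (γ ⁻¹' {g}) N t = 0 := by unfold res; rw [if_neg (fun h => h.2 hh)]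
      have h3 : A t = 0 := by
        by_contra hne
        exact (hAs t hne).2 hh
      rw [h1, h2, h3]; rfl
    · intro t _ htn htN htD
      show 1 ≤ (res Set.univ N t - res (γ ⁻¹' {g}) N t) + A t
      have h1 : res Set.univ N t = 1 := by
        unfold res; rw [if_pos ⟨fun j z _ => Set.mem_univ z, htn⟩, htN]
      by_cases hin : inTr (γ ⁻¹' {g}) t
      · have h2 : res (γ ⁻¹' {g}) N t = 1 := by
          unfold res; rw [if_pos ⟨hin, htn⟩, htN]
        have h3 := hAD t hin htn htN htD
        rw [h1, h2]; linarith
      · have h2 : res (γ ⁻¹' {g}) N t = 0 := by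
          unfold res; rw [if_neg (fun h => hin h.1)]
        have h3 : A t = 0 := by
          by_contra hne
          exact hin (hAs t hne).1
        rw [h1, h2, h3]; rfl
    · intro i a
      rw [bd_add, bd_sub, hAb i a]
      ring

open Classical in
/-- Changing `N` inside a group to another local square. -/
theorem switch_in {S : Set Z} (hB : Base N D)
    (hsub : ∀ i t, inPair S i t → N t = 1 → inS S (t i))
    (A : Tr (Vx Z) → ℤ) (hA0 : ∀ t, 0 ≤ A t) (hAs : ∀ t, A t ≠ 0 → inTr S t)
    (hAb : ∀ i a, inPair S i a → bd A i a = 1) :
    IsLS (fun t => (N t - (if inTr S t then N t else 0)) + A t) := by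
  refine ⟨?_, ?_⟩
  · intro t
    have h1 := hA0 t
    have h2 := hB.ls.1 t
    show 0 ≤ (N t - (if inTr S t then N t else 0)) + A t
    split_ifs <;> linarith
  · intro i a
    rw [bd_add, bd_sub, hB.ls.2]
    by_cases hp : inPair S i a
    · have h1 : bd (fun t => if inTr S t then N t else 0) i a = 1 := by
        rw [← hB.ls.2 i a]
        unfold bd
        refine Finset.sum_congr rfl (fun t _ => ?_)
        by_cases hag : Ag i a t
        · rw [if_pos hag, if_pos hag]
          show (if inTr S t then N t else 0) = N t
          by_cases h2 : inTr S t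
          · rw [if_pos h2]
          · rw [if_neg h2]
            by_contra hne
            have h3 := one_of_ne hB (fun h => hne h.symm)
            exact h2 (inTr_of (inPair_of_ag hag hp) (hsub i t (inPair_of_ag hag hp) h3))
        · rw [if_neg hag, if_neg hag]
      rw [h1, hAb i a hp]; ring
    · have h1 : bd (fun t => if inTr S t then N t else 0) i a = 0 := by
        unfold bd
        refine Finset.sum_eq_zero (fun t _ => ?_)
        by_cases hag : Ag i a t
        · rw [if_pos hag]
          show (if inTr S t then N t else 0) = 0
          rw [if_neg (fun h2 => hp (inPair_of_ag hag.symm (inPair_of_inTr (i := i) h2)))]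
        · rw [if_neg hag]
      have h2 : bd A i a = 0 := by
        unfold bd
        refine Finset.sum_eq_zero (fun t _ => ?_)
        split_ifs with hag
        · by_contra hne
          exact hp (inPair_of_ag hag.symm (inPair_of_inTr (i := i) (hAs t hne)))
        · rfl
      rw [h1, h2]; ring

open Classical in
/-- Switching an element of `N` whose coordinates lie in three different groups. -/
theorem switch_off {G : Type} (γ : Z → G) (hB : Base N D)
    (h : ∀ g, LG (γ ⁻¹' {g}) N D)
    (t : Tr (Vx Z)) (ht : N t = 1) (z : Fin 3 → Z) (hz : ∀ j, t j = Sum.inr (z j))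
    (hd : ∀ j j', j ≠ j' → γ (z j) ≠ γ (z j')) :
    ∃ L : Tr (Vx Z) → ℤ, IsLS L ∧ L t = 0 ∧
      ∀ s, N s = 1 → s ∉ D → s ≠ t → (¬ hubTr s ∨ s = x0) → L s = 1 := by
  have htr : ∀ j, ∃ A : Tr (Vx Z) → ℤ, (∀ t, 0 ≤ A t) ∧
    (∀ t, A t ≠ 0 → inTr (γ ⁻¹' {γ (z j)}) t ∧ ¬ hubTr t) ∧
    (∀ t, inTr (γ ⁻¹' {γ (z j)}) t → ¬ hubTr t → N t = 1 → t ∉ D → 1 ≤ A t) ∧
    ∀ i a, bd A i a = bd (res (γ ⁻¹' {γ (z j)}) N) i a - defc j (Sum.inr (z j)) i a +
      defc j h1 i a := fun j => (h (γ (z j))).tr j (z j) (by simp)
  choose A hA0 hAs hAD hAb using htr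
  -- `t` with coordinate `i` replaced by the hub `0`
  let τ : Fin 3 → Tr (Vx Z) := fun i => Function.update t i h0
  let HH : Tr (Vx Z) → ℤ := fun s => if hubTr s then N s else 0
  let L : Tr (Vx Z) → ℤ := fun s =>
    (N s - ((∑ j : Fin 3, res (γ ⁻¹' {γ (z j)}) N s) + (HH s + if s = t then 1 else 0))) +
      ((∑ j : Fin 3, A j s) + ((∑ i : Fin 3, if s = τ i then 1 else 0) +
        ((if s = x0 then 1 else 0) + (if s = u1 then 1 else 0))))
  have htnh : ¬ hubTr t := by
    intro hh
    have := hh 0
    rw [hz 0] at this
    exact not_hub_inr _ this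
  have htg : ∀ g, ¬ inTr (γ ⁻¹' {g}) t := by
    intro g hg
    have a0 := hg 0
    have a1 := hg 1
    rw [hz 0] at a0
    rw [hz 1] at a1
    have b0 := inS_inr.1 a0
    have b1 := inS_inr.1 a1
    simp only [Set.mem_preimage, Set.mem_singleton_iff] at b0 b1
    exact hd 0 1 (by decide) (b0.trans b1.symm)
  -- the removed part is below `N`
  have hrem : ∀ s, (∑ j : Fin 3, res (γ ⁻¹' {γ (z j)}) N s) + (HH s + if s = t then 1 else 0)
      ≤ N s := by
    intro s
    by_cases hst : s = t
    · have e1 : ∀ j : Fin 3, res (γ ⁻¹' {γ (z j)}) N s = 0 := by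
        intro j
        unfold res
        rw [if_neg]
        intro hh
        rw [hst] at hh
        exact htg _ hh.1
      have e2 : HH s = 0 := by
        simp only [HH]
        rw [if_neg]
        rw [hst]; exact htnh
      rw [e2, if_pos hst, hst, ht]
      rw [hst] at e1
      simp [e1]
    · rw [if_neg hst]
      by_cases hh : hubTr s
      · have e1 : ∀ j : Fin 3, res (γ ⁻¹' {γ (z j)}) N s = 0 := by
          intro j
          unfold res
          rw [if_neg]
          intro h'
          exact h'.2 hh
        have e2 : HH s = N s := if_pos hh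
        rw [e2]
        simp [e1]
      · have e2 : HH s = 0 := if_neg hh
        rw [e2]
        by_cases hex : ∃ j, inTr (γ ⁻¹' {γ (z j)}) s
        · obtain ⟨j, hj⟩ := hex
          have e1 : ∀ j' : Fin 3, j' ≠ j → res (γ ⁻¹' {γ (z j')}) N s = 0 := by
            intro j' hj'
            unfold res
            rw [if_neg]
            intro h'
            apply hh
            intro k
            exact hub_of_two (hd j' j hj') (h'.1 k) (hj k)
          have e3 : (∑ j : Fin 3, res (γ ⁻¹' {γ (z j)}) N s) = res (γ ⁻¹' {γ (z j)}) N s := by
            refine Finset.sum_eq_single j (fun j' _ hj' => e1 j' hj') (fun hj' => ?_)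
            exact absurd (Finset.mem_univ j) hj'
          rw [e3]
          have := res_le hB (γ ⁻¹' {γ (z j)}) s
          linarith
        · push Not at hex
          have e1 : ∀ j : Fin 3, res (γ ⁻¹' {γ (z j)}) N s = 0 := by
            intro j
            unfold res
            rw [if_neg]
            intro h'
            exact hex j h'.1
          simp only [e1, Finset.sum_const_zero]
          have := hB.ls.1 s
          linarith
  have hadd0 : ∀ s, 0 ≤ (∑ j : Fin 3, A j s) + ((∑ i : Fin 3, if s = τ i then (1 : ℤ) else 0) +
        ((if s = x0 then 1 else 0) + (if s = u1 then 1 else 0))) := by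
    intro s
    have e1 : 0 ≤ ∑ j : Fin 3, A j s := Finset.sum_nonneg (fun j _ => hA0 j s)
    have e2 : 0 ≤ ∑ i : Fin 3, (if s = τ i then (1 : ℤ) else 0) :=
      Finset.sum_nonneg (fun j _ => by split_ifs <;> norm_num)
    have e3 : 0 ≤ (if s = x0 then (1 : ℤ) else 0) := by split_ifs <;> norm_num
    have e4 : 0 ≤ (if s = u1 then (1 : ℤ) else 0) := by split_ifs <;> norm_num
    linarith
  have hLS : IsLS L := by
    refine ⟨fun s => ?_, fun i a => ?_⟩
    · have e1 := hrem s
      have e2 := hadd0 s
      simp only [L]
      linarith
    · -- boundary of the hub part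
      have hHH : bd HH i a = (Pe (a (i + 1)) h0 + Pe (a (i + 1)) h1) *
          (Pe (a (i + 2)) h0 + Pe (a (i + 2)) h1) := by
        by_cases hp : hubPair i a
        · have e1 : bd HH i a = 1 := by
            rw [← hB.ls.2 i a]
            unfold bd
            refine Finset.sum_congr rfl (fun s _ => ?_)
            by_cases hag : Ag i a s
            · rw [if_pos hag, if_pos hag]
              by_cases h0 : N s = 0
              · simp only [HH]; rw [h0]; split_ifs <;> rfl
              · exact if_pos (hB.hub_closed (hubPair_of_ag hag hp) h0)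
            · rw [if_neg hag, if_neg hag]
          rw [e1]
          obtain ⟨b, hb⟩ := hp (i + 1) (add_one_ne i)
          obtain ⟨c, hc⟩ := hp (i + 2) (add_two_ne i)
          rw [hb, hc]
          unfold Pe h0 h1
          cases b <;> cases c <;> simp
        · have e1 : bd HH i a = 0 := by
            unfold bd
            refine Finset.sum_eq_zero (fun s _ => ?_)
            by_cases hag : Ag i a s
            · rw [if_pos hag]
              refine if_neg (fun hh => hp (hubPair_of_ag hag.symm (hubPair_of_hubTr (i := i) hh)))
            · rw [if_neg hag]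
          rw [e1]
          have hp' : ¬ (isHub (a (i + 1)) ∧ isHub (a (i + 2))) := by
            rintro ⟨q1, q2⟩
            apply hp
            intro j hj
            rcases ne_cases i j hj with rfl | rfl
            · exact q1
            · exact q2
          have hz0 : ∀ v : Vx Z, ¬ isHub v → Pe v h0 + Pe v h1 = 0 := by
            intro v hv
            have q0 : Pe v h0 = 0 := Pe_eq_zero (fun h => hv ⟨false, h⟩)
            have q1 : Pe v h1 = 0 := Pe_eq_zero (fun h => hv ⟨true, h⟩)
            rw [q0, q1]
            norm_num
          rw [not_and_or] at hp'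
          rcases hp' with q | q
          · rw [hz0 _ q, zero_mul]
          · rw [hz0 _ q, mul_zero]
      have hLb : bd L i a = (bd N i a - ((∑ j : Fin 3, bd (res (γ ⁻¹' {γ (z j)}) N) i a) +
          (bd HH i a + bd (fun s => if s = t then 1 else 0) i a))) +
          ((∑ j : Fin 3, bd (A j) i a) +
            ((∑ k : Fin 3, bd (fun s => if s = τ k then 1 else 0) i a) +
              (bd (fun s => if s = x0 then 1 else 0) i a +
                bd (fun s => if s = u1 then 1 else 0) i a))) := by
        simp only [L]
        rw [bd_add, bd_sub, bd_add, bd_add, bd_add, bd_add, bd_add, bd_sum, bd_sum, bd_sum]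
      rw [hLb, hHH]
      simp only [hAb, bd_single, Fin.sum_univ_three, hB.ls.2]
      clear_value HH L
      have hu : ∀ k l : Fin 3, τ k l = if l = k then h0 else t l := by
        intro k l
        simp only [τ, Function.update_apply]
      have hx : ∀ l : Fin 3, (x0 l : Vx Z) = h0 := fun _ => rfl
      have hy : ∀ l : Fin 3, (u1 l : Vx Z) = h1 := fun _ => rfl
      simp only [hu, hx, hy, ← hz]
      unfold defc
      fin_cases i
      · have e1 : (0 : Fin 3) + 1 = 1 := rfl
        have e2 : (0 : Fin 3) + 2 = 2 := rfl
        simp only [Fin.zero_eta, Fin.isValue, e1, e2]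
        simp only [Fin.isValue, Fin.reduceEq, if_true, if_false]
        ring
      · have e1 : (1 : Fin 3) + 1 = 2 := rfl
        have e2 : (1 : Fin 3) + 2 = 0 := rfl
        simp only [Fin.mk_one, Fin.isValue, e1, e2]
        simp only [Fin.isValue, Fin.reduceEq, if_true, if_false]
        ring
      · have e1 : (2 : Fin 3) + 1 = 0 := rfl
        have e2 : (2 : Fin 3) + 2 = 1 := rfl
        simp only [Fin.reduceFinMk, Fin.isValue, e1, e2]
        simp only [Fin.isValue, Fin.reduceEq, if_true, if_false]
        ring
  have hAt : ∀ j, A j t = 0 := by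
    intro j
    by_contra hne
    exact htg _ (hAs j t hne).1
  refine ⟨L, hLS, ?_, ?_⟩
  · -- `L t = 0`
    have e1 : ∀ j : Fin 3, res (γ ⁻¹' {γ (z j)}) N t = 0 := by
      intro j
      unfold res
      rw [if_neg]
      exact fun hh => htg _ hh.1
    have e2 : HH t = 0 := if_neg htnh
    have e3 : ∀ k : Fin 3, t ≠ τ k := by
      intro k hk
      have := congrFun hk k
      simp only [τ, Function.update_self] at this
      rw [hz k] at this
      exact absurd this (by simp [h0])
    have e4 : t ≠ x0 := fun hh => htnh (hh ▸ fun _ => ⟨false, rfl⟩)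
    have e5 : t ≠ u1 := fun hh => htnh (hh ▸ fun _ => ⟨true, rfl⟩)
    simp only [L, e1, e2, hAt, ht, if_neg (e3 _), if_neg e4, if_neg e5]
    simp
  · intro s hs hsD hst hsh
    -- `L s ≥ 1`
    have hge : 1 ≤ L s := by
      by_cases hh : hubTr s
      · have hsx : s = x0 := hsh.resolve_left (fun h => h hh)
        have e1 := hrem s
        have e2 : 0 ≤ ∑ j : Fin 3, A j s := Finset.sum_nonneg (fun j _ => hA0 j s)
        have e3 : 0 ≤ ∑ i : Fin 3, (if s = τ i then (1 : ℤ) else 0) :=
          Finset.sum_nonneg (fun j _ => by split_ifs <;> norm_num)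
        have e4 : (if s = x0 then (1 : ℤ) else 0) = 1 := if_pos hsx
        have e5 : 0 ≤ (if s = u1 then (1 : ℤ) else 0) := by split_ifs <;> norm_num
        simp only [L]
        linarith
      · have e2 : HH s = 0 := if_neg hh
        have e3 : 0 ≤ ∑ i : Fin 3, (if s = τ i then (1 : ℤ) else 0) :=
          Finset.sum_nonneg (fun j _ => by split_ifs <;> norm_num)
        have e4 : 0 ≤ (if s = x0 then (1 : ℤ) else 0) := by split_ifs <;> norm_num
        have e5 : 0 ≤ (if s = u1 then (1 : ℤ) else 0) := by split_ifs <;> norm_num
        by_cases hex : ∃ j, inTr (γ ⁻¹' {γ (z j)}) s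
        · obtain ⟨j, hj⟩ := hex
          have e6 : 1 ≤ ∑ j : Fin 3, A j s := by
            refine le_trans (hAD j s hj hh hs hsD) ?_
            exact Finset.single_le_sum (f := fun j => A j s) (fun k _ => hA0 k s)
              (Finset.mem_univ j)
          have e1 := hrem s
          simp only [L]
          linarith
        · push Not at hex
          have e1 : ∀ j : Fin 3, res (γ ⁻¹' {γ (z j)}) N s = 0 := by
            intro j
            unfold res
            rw [if_neg]
            intro h'
            exact hex j h'.1
          have e6 : 0 ≤ ∑ j : Fin 3, A j s := Finset.sum_nonneg (fun j _ => hA0 j s)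
          simp only [L, e1, e2, if_neg hst, hs, Finset.sum_const_zero]
          linarith
    rcases hLS.zero_or_one s with h0 | h1
    · rw [h0] at hge
      norm_num at hge
    · exact h1

/-- The latin square is determined outside of `D` and of the three hub triples different
from `x0`. -/
theorem LG.global_uniq (hB : Base N D) (hG : LG Set.univ N D) (L : Tr (Vx Z) → ℤ)
    (hL : IsLS L) (h : ∀ t, N t = 1 → t ∉ D → (¬ hubTr t ∨ t = x0) → L t = 1) : L = N := by
  classical
  have hNx0 : N x0 = 1 := hB.hub (fun _ => false) rfl
  have hx0D : (x0 : Tr (Vx Z)) ∉ D := fun hD => (hB.Dsub _ hD).2 (fun _ => ⟨false, rfl⟩)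
  have hLx0 : L x0 = 1 := h _ hNx0 hx0D (Or.inr rfl)
  -- non-hub triples
  have hnon : ∀ t, ¬ hubTr t → N t = 1 → L t = 1 := by
    intro t htn htN
    let M : Tr (Vx Z) → ℤ := fun s => if hubTr s then 0 else L s
    have hM : ∀ s, ¬ hubTr s → M s = L s := fun s hs => if_neg hs
    have hM0 : ∀ s, 0 ≤ M s := by
      intro s; simp only [M]; split_ifs
      · exact le_refl _
      · exact hL.1 s
    have hMle : ∀ s, M s ≤ L s := by
      intro s; simp only [M]; split_ifs
      · exact hL.1 s
      · exact le_refl _
    have key := hG.uniq M hM0 ?_ ?_ ?_ ?_ ?_ t (fun j z _ => Set.mem_univ z) htn htN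
    · rwa [hM t htn] at key
    · intro s hs
      refine ⟨fun j z _ => Set.mem_univ z, ?_⟩
      intro hh
      exact hs (if_pos hh)
    · intro i a _ hna
      rw [← hL.2 i a]
      unfold bd
      refine Finset.sum_congr rfl (fun s _ => ?_)
      by_cases hag : Ag i a s
      · rw [if_pos hag, if_pos hag]
        exact hM s (fun hh => hna (hubPair_of_ag hag.symm (hubPair_of_hubTr (i := i) hh)))
      · rw [if_neg hag, if_neg hag]
    · intro i a
      rw [← hL.2 i a]
      exact bd_mono hMle i a
    · intro i a ha
      have h1 : bd M i a + 1 ≤ bd L i a := by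
        have h2 : bd (fun s => if s = x0 then (1 : ℤ) else 0) i a = 1 := by
          rw [bd_single]
          have e1 : a (i + 1) = x0 (i + 1) := ha _ (add_one_ne i)
          have e2 : a (i + 2) = x0 (i + 2) := ha _ (add_two_ne i)
          rw [e1, e2, Pe_self, Pe_self]; norm_num
        rw [← h2, ← bd_add]
        refine bd_mono (fun s => ?_) i a
        show M s + (if s = x0 then (1 : ℤ) else 0) ≤ L s
        split_ifs with hs
        · rw [hs, hLx0]
          have : M x0 = 0 := if_pos (fun _ => ⟨false, rfl⟩)
          rw [this]; norm_num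
        · have := hMle s
          linarith
      have h3 := bd_nonneg hM0 i a
      rw [hL.2] at h1
      omega
    · intro s _ hsn hsN hsD
      rw [hM s hsn]
      exact h s hsN hsD (Or.inl hsn)
  -- hub triples
  have hhubout : ∀ i t, hubPair i t → L t ≠ 0 → hubTr t := by
    intro i t hp hne
    by_contra hnh
    have hti : ¬ isHub (t i) := fun hh => hnh (hubTr_of hp hh)
    obtain ⟨z, hz⟩ := (isHub_or (t i)).resolve_left hti
    obtain ⟨j, hji, -⟩ := third_exists i i
    obtain ⟨k, hki, hkj⟩ := third_exists i j
    obtain ⟨t₀, ht₀, ht₀1⟩ := hB.ls.exists k t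
    have e1 : t₀ i = Sum.inr z := (ht₀ i hki.symm).trans hz
    have ht₀h : ¬ hubTr t₀ := by
      intro hh
      have := hh i
      rw [e1] at this
      exact not_hub_inr z this
    have h1 := hnon t₀ ht₀h ht₀1
    have h2 : t = t₀ := hL.eq ht₀ hne (by rw [h1]; norm_num)
    rw [← h2] at ht₀1
    exact hnh (hB.hub_closed hp (by rw [ht₀1]; norm_num))
  -- hub triples of `L` given by booleans
  have hval : ∀ b : Fin 3 → Bool, (xor (b 0) (xor (b 1) (b 2))) = false →
      L (fun j => Sum.inl (b j)) = 1 := by
    -- `L` at hub triples, as a function of three booleans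
    let ℓ : Bool → Bool → Bool → ℤ := fun b c d => L (![Sum.inl b, Sum.inl c, Sum.inl d])
    have hx : ℓ false false false = 1 := by
      have : (![Sum.inl false, Sum.inl false, Sum.inl false] : Tr (Vx Z)) = x0 := by
        funext j; fin_cases j <;> rfl
      simp only [ℓ]; rw [this]; exact hLx0
    have hnn : ∀ b c d, 0 ≤ ℓ b c d := fun b c d => hL.1 _
    -- sums over the third, second and first coordinate
    have hs2 : ∀ b c, ℓ b c false + ℓ b c true = 1 := by
      intro b c
      obtain ⟨t, ht, ht1⟩ := hL.exists 2 ![Sum.inl b, Sum.inl c, Sum.inl false]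
      have hp : hubPair 2 t := by
        refine hubPair_of_ag ht ?_
        intro j hj
        fin_cases j
        · exact ⟨b, rfl⟩
        · exact ⟨c, rfl⟩
        · exact absurd rfl hj
      have hh := hhubout 2 t hp (by rw [ht1]; norm_num)
      obtain ⟨d, hd⟩ := hh 2
      have htd : t = ![Sum.inl b, Sum.inl c, Sum.inl d] := by
        funext j
        fin_cases j
        · exact ht 0 (by decide)
        · exact ht 1 (by decide)
        · exact hd
      have hle : ℓ b c false + ℓ b c true ≤ 1 := by
        have := add_le_bd (w := L) hL.1 (i := 2) (a := ![Sum.inl b, Sum.inl c, Sum.inl false])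
          (t := ![Sum.inl b, Sum.inl c, Sum.inl false])
          (t' := ![Sum.inl b, Sum.inl c, Sum.inl true]) (Ag.refl _ _) (by
            intro j hj
            fin_cases j
            · rfl
            · rfl
            · exact absurd rfl hj) (by
            intro he
            have := congrFun he 2
            simp at this)
        rw [hL.2] at this
        exact this
      rw [htd] at ht1
      have h1 : ℓ b c d = 1 := ht1
      have h2 := hnn b c false
      have h3 := hnn b c true
      cases d
      · omega
      · omega
    have hne2 : ∀ b c d d', ℓ b c d ≠ 0 → ℓ b c d' ≠ 0 → d = d' := by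
      intro b c d d' h1 h2
      have := hL.eq (i := 2) (t := ![Sum.inl b, Sum.inl c, Sum.inl d])
        (t' := ![Sum.inl b, Sum.inl c, Sum.inl d']) (by
            intro j hj
            fin_cases j
            · rfl
            · rfl
            · exact absurd rfl hj) h1 h2
      have := congrFun this 2
      simpa using this
    have hne1 : ∀ b c c' d, ℓ b c d ≠ 0 → ℓ b c' d ≠ 0 → c = c' := by
      intro b c c' d h1 h2
      have := hL.eq (i := 1) (t := ![Sum.inl b, Sum.inl c, Sum.inl d])
        (t' := ![Sum.inl b, Sum.inl c', Sum.inl d]) (by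
            intro j hj
            fin_cases j
            · rfl
            · exact absurd rfl hj
            · rfl) h1 h2
      have := congrFun this 1
      simpa using this
    have hne0 : ∀ b b' c d, ℓ b c d ≠ 0 → ℓ b' c d ≠ 0 → b = b' := by
      intro b b' c d h1 h2
      have := hL.eq (i := 0) (t := ![Sum.inl b, Sum.inl c, Sum.inl d])
        (t' := ![Sum.inl b', Sum.inl c, Sum.inl d]) (by
            intro j hj
            fin_cases j
            · exact absurd rfl hj
            · rfl
            · rfl) h1 h2
      have := congrFun this 0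
      simpa using this
    -- cell (0,1)
    have a1 : ℓ false true false = 0 := by
      by_contra hne
      have := hne1 false true false false hne (by rw [hx]; norm_num)
      exact absurd this (by decide)
    have a2 : ℓ false true true = 1 := by have := hs2 false true; omega
    have b1 : ℓ true false false = 0 := by
      by_contra hne
      have := hne0 true false false false hne (by rw [hx]; norm_num)
      exact absurd this (by decide)
    have b2 : ℓ true false true = 1 := by have := hs2 true false; omega
    have c1 : ℓ true true true = 0 := by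
      by_contra hne
      have := hne1 true true false true hne (by rw [b2]; norm_num)
      exact absurd this (by decide)
    have c2 : ℓ true true false = 1 := by have := hs2 true true; omega
    intro b hb
    have e : (fun j => Sum.inl (b j) : Tr (Vx Z)) = ![Sum.inl (b 0), Sum.inl (b 1), Sum.inl (b 2)] := by
      funext j; fin_cases j <;> rfl
    rw [e]
    show ℓ (b 0) (b 1) (b 2) = 1
    revert hb
    cases b 0 <;> cases b 1 <;> cases b 2 <;> intro hb <;> first | exact absurd hb (by decide) | assumption
  -- conclusion
  have hge : ∀ t, N t = 1 → L t = 1 := by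
    intro t ht
    by_cases hh : hubTr t
    · choose b hb using hh
      have htb : t = fun j => Sum.inl (b j) := funext hb
      rw [htb]
      apply hval
      -- parity of `b` from uniqueness in `N`
      by_contra hpar
      have hpar' : (xor (b 0) (xor (b 1) (b 2))) = true := by
        cases hx : xor (b 0) (xor (b 1) (b 2)) <;> simp_all
      let b' : Fin 3 → Bool := Function.update b 2 (! b 2)
      have h1 : N (fun j => Sum.inl (b' j)) = 1 := by
        apply hB.hub
        simp only [b']
        rw [Function.update_of_ne (by decide), Function.update_of_ne (by decide),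
          Function.update_self]
        revert hpar'
        cases b 0 <;> cases b 1 <;> cases b 2 <;> decide
      have h2 := hB.ls.eq (i := 2) (t := t) (t' := fun j => Sum.inl (b' j)) (by
        intro j hj
        rw [htb]
        simp only [b']
        rw [Function.update_of_ne hj]) (by rw [ht]; norm_num) (by rw [h1]; norm_num)
      have h3 := congrFun h2 2
      rw [htb] at h3
      simp only [b', Function.update_self, Sum.inl.injEq] at h3
      cases hb2 : b 2 <;> simp [hb2] at h3
    · exact hnon t hh ht
  funext t
  rcases hB.ls.zero_or_one t with h0 | h1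
  · rw [h0]
    by_contra hne
    obtain ⟨s, hs, hs1⟩ := hB.ls.exists 0 t
    have h2 := hge s hs1
    have h3 : t = s := hL.eq hs hne (by rw [h2]; norm_num)
    rw [h3, hs1] at h0
    norm_num at h0
  · rw [h1, hge t h1]

end Pool.Agent.Lib.MP_469949_co
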