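import Mathlib

/-!
Latin squares, partial latin squares, completions, critical sets and `lcs n`.
-/

namespace Pool.Agent.Lib.MP_469949_co

/-- A latin square of order `n`, written as a function `(row, column) ↦ symbol`:
no symbol occurs twice in a row and no symbol occurs twice in a column. -/
def IsLatinSquare {n : ℕ} (L : Fin n → Fin n → Fin n) : Prop :=
  (∀ r c c', L r c = L r c' → c = c') ∧ (∀ r r' c, L r c = L r' c → r = r')

/-- A partial latin square of order `n`: an array whose cells are empty (`none`) or hold a symbol,
no symbol occurring twice in a row or twice in a column. -/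
def IsPartialLatinSquare {n : ℕ} (P : Fin n → Fin n → Option (Fin n)) : Prop :=
  (∀ r c c' s, P r c = some s → P r c' = some s → c = c') ∧
    (∀ r r' c s, P r c = some s → P r' c = some s → r = r')

/-- The size of a partial latin square: its number of filled cells. -/
def size {n : ℕ} (P : Fin n → Fin n → Option (Fin n)) : ℕ :=
  (Finset.univ.filter (fun x : Fin n × Fin n => (P x.1 x.2).isSome = true)).card

/-- `L` is a completion of `P`: a latin square that agrees with `P` on every filled cell of `P`. -/
def IsCompletion {n : ℕ} (P : Fin n → Fin n → Option (Fin n)) (L : Fin n → Fin n → Fin n) : Prop :=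
  IsLatinSquare L ∧ ∀ r c s, P r c = some s → L r c = s

/-- `P` with the cell `(r, c)` emptied. -/
def emptied {n : ℕ} (P : Fin n → Fin n → Option (Fin n)) (r c : Fin n) :
    Fin n → Fin n → Option (Fin n) :=
  fun r' c' => if r' = r ∧ c' = c then none else P r' c'

/-- `P` is a critical set (in the latin square that is its unique completion): it is a partial latin
square with exactly one completion, and emptying any filled cell leaves more than one completion. -/
def IsCriticalSet {n : ℕ} (P : Fin n → Fin n → Option (Fin n)) : Prop :=
  IsPartialLatinSquare P ∧ (∃! L, IsCompletion P L) ∧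
    ∀ r c, (P r c).isSome = true →
      ∃ L₁ L₂, L₁ ≠ L₂ ∧ IsCompletion (emptied P r c) L₁ ∧ IsCompletion (emptied P r c) L₂

/-- `lcs n`: the largest size of a critical set of order `n`. -/
noncomputable def lcs (n : ℕ) : ℕ :=
  sSup {k | ∃ P : Fin n → Fin n → Option (Fin n), IsCriticalSet P ∧ size P = k}

end Pool.Agent.Lib.MP_469949_co
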