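import Pool.Agent.Lib.MP_469949_co.Lift
import Pool.Agent.Lib.MP_469949_co.DataA
import Pool.Agent.Lib.MP_469949_co.Data9
import Pool.Agent.Lib.MP_469949_co.Data10
import Pool.Agent.Lib.MP_469949_co.Data11
import Pool.Agent.Lib.MP_469949_co.Data12
import Pool.Agent.Lib.MP_469949_co.Data13
import Pool.Agent.Lib.MP_469949_co.Data14
import Pool.Agent.Lib.MP_469949_co.Data15

/-!
The bounds for `lcs n`.
-/

namespace Pool.Agent.Lib.MP_469949_co

open Finset

lemma good_cert (C : Cert) (h : C.check = true) : Good C.k ((C.k + 2) ^ 2) := by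
  have := (Cert.sound C h).good
  rwa [Fintype.card_fin] at this

lemma okSw_set (C : Cert) (h : C.check = true) {bad : List ℕ} {sw : List (List ℕ × List ℕ)}
    (hs : C.okSw bad sw = true) : ∃ BX : Finset (Tr (Vx (Fin C.k))),
      (∀ t, ofFun C.fn t = 1 → ¬ hubTr t → ¬ Sw (ofFun C.fn) C.Ds t → t ∈ BX) ∧
      BX.card ≤ (C.D ++ bad).length := by
  classical
  unfold Cert.check at h
  simp only [Bool.and_eq_true] at h
  refine ⟨_, ?_, okSw_card C h.1 h.2.1 hs⟩
  intro t h1 h2 h3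
  rw [Finset.mem_filter]
  exact ⟨Finset.mem_univ _, h1, h2, h3⟩

/-- composition with the gadget of size eight. -/
theorem good_comp8 {u b m : ℕ} (hU : Good u b) (hm : Odd m) (hle : u ≤ 8 * (m - 1)) :
    Good (8 * m + u) (47 * m + b) := by
  have hX : FG (Fin 8) (Cert.fn gadA) (Cert.Ds gadA) := Cert.sound gadA gadA_check
  have hset : ∃ BX : Finset (Tr (Vx (Fin 8))), (∀ t, ofFun (Cert.fn gadA) t = 1 → ¬ hubTr t →
      ¬ Sw (ofFun (Cert.fn gadA)) (Cert.Ds gadA) t → t ∈ BX) ∧ BX.card ≤ 47 :=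
    okSw_set gadA gadA_check gadA_sw
  obtain ⟨BX, hBX, h47⟩ := hset
  obtain ⟨Z, i1, i2, f, D, B, a1, a2, a3, a4⟩ := Good.comp hX hBX hU hm hle
  refine ⟨Z, i1, i2, f, D, B, a1, a2, a3, a4.trans ?_⟩
  exact Nat.add_le_add_right (Nat.mul_le_mul_right _ h47) _

lemma small_good (r : ℕ) (hr : r < 8) : ∃ u, u % 8 = r ∧ u ≤ 15 ∧ (u = 0 ∨ 9 ≤ u) ∧
    Good u ((u + 2) ^ 2) := by
  interval_cases r
  · exact ⟨0, rfl, by norm_num, Or.inl rfl, good_zero⟩
  · exact ⟨9, rfl, by norm_num, Or.inr (by norm_num), good_cert gad9 gad9_check⟩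
  · exact ⟨10, rfl, by norm_num, Or.inr (by norm_num), good_cert gad10 gad10_check⟩
  · exact ⟨11, rfl, by norm_num, Or.inr (by norm_num), good_cert gad11 gad11_check⟩
  · exact ⟨12, rfl, by norm_num, Or.inr (by norm_num), good_cert gad12 gad12_check⟩
  · exact ⟨13, rfl, by norm_num, Or.inr (by norm_num), good_cert gad13 gad13_check⟩
  · exact ⟨14, rfl, by norm_num, Or.inr (by norm_num), good_cert gad14 gad14_check⟩
  · exact ⟨15, rfl, by norm_num, Or.inr (by norm_num), good_cert gad15 gad15_check⟩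

/-- gadgets of all large sizes. -/
theorem exists_good {N : ℕ} (hN : 87 ≤ N) : ∃ u M, u ≤ 15 ∧ N = 8 * M + u ∧
    Good N (47 * M + (u + 2) ^ 2) := by
  obtain ⟨u, hu1, hu2, hu3, hu4⟩ := small_good (N % 8) (Nat.mod_lt _ (by norm_num))
  have hM : N = 8 * ((N - u) / 8) + u := by omega
  set M := (N - u) / 8 with hMdef
  refine ⟨u, M, hu2, hM, ?_⟩
  have hM9 : 9 ≤ M := by omega
  rcases Nat.even_or_odd M with hE | hO
  · obtain ⟨a, ha⟩ := hE
    have hodd : Odd (M - 3) := ⟨a - 2, by omega⟩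
    have h1 := good_comp8 hu4 (m := 3) (by decide) (by omega)
    have h2 := good_comp8 h1 hodd (by omega)
    have e1 : 8 * (M - 3) + (8 * 3 + u) = N := by omega
    have e2 : 47 * (M - 3) + (47 * 3 + (u + 2) ^ 2) = 47 * M + (u + 2) ^ 2 := by omega
    rwa [e1, e2] at h2
  · have h2 := good_comp8 hu4 hO (by omega)
    rwa [← hM] at h2

/-- The lower bound for `lcs`. -/
theorem lcs_lower (n : ℕ) (hn : 89 ≤ n) : 8 * n ^ 2 ≤ 8 * lcs n + 47 * n + 1513 := by
  obtain ⟨u, M, hu, hNM, hG⟩ := exists_good (N := n - 2) (by omega)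
  have h1 := hG.lcs_ge
  have e : n - 2 + 2 = n := by omega
  rw [e] at h1
  have h2 : 47 * (8 * M) = 47 * (n - 2 - u) := by omega
  have h3 : 8 * (u + 2) ^ 2 ≤ 47 * (u + 2) + 1513 := by
    interval_cases u <;> norm_num
  have h4 : 8 * n ^ 2 ≤ 8 * lcs n + 8 * (47 * M + (u + 2) ^ 2) := by
    have := Nat.mul_le_mul_left 8 h1
    linarith
  omega

end Pool.Agent.Lib.MP_469949_co
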