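import Pool.Agent.Lib.MP_469949_co.Bd

/-!
Gadgets: latin squares on `Bool ⊕ Z` (two hubs and the vertices of `Z`).
-/

namespace Pool.Agent.Lib.MP_469949_co

open Finset

/-- Index set: two hubs and `Z`. -/
abbrev Vx (Z : Type) := Bool ⊕ Z

lemma ne_cases : ∀ i j : Fin 3, j ≠ i → j = i + 1 ∨ j = i + 2 := by decide

section basic
variable {Z : Type}

/-- `v` is a hub. -/
def isHub (v : Vx Z) : Prop := ∃ b : Bool, v = Sum.inl b
/-- all coordinates are hubs. -/
def hubTr (t : Tr (Vx Z)) : Prop := ∀ j, isHub (t j)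
/-- both coordinates different from `i` are hubs. -/
def hubPair (i : Fin 3) (a : Tr (Vx Z)) : Prop := ∀ j, j ≠ i → isHub (a j)
/-- `v` is a hub or lies in `S`. -/
def inS (S : Set Z) (v : Vx Z) : Prop := ∀ z, v = Sum.inr z → z ∈ S
/-- all coordinates are hubs or in `S`. -/
def inTr (S : Set Z) (t : Tr (Vx Z)) : Prop := ∀ j, inS S (t j)
/-- both coordinates different from `i` are hubs or in `S`. -/
def inPair (S : Set Z) (i : Fin 3) (a : Tr (Vx Z)) : Prop := ∀ j, j ≠ i → inS S (a j)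

/-- the triple `(0, 0, 0)` of hubs. -/
def x0 : Tr (Vx Z) := fun _ => Sum.inl false
/-- the triple `(1, 1, 1)` of hubs. -/
def u1 : Tr (Vx Z) := fun _ => Sum.inl true

lemma isHub_or (v : Vx Z) : isHub v ∨ ∃ z, v = Sum.inr z := by
  rcases v with b | z
  · exact Or.inl ⟨b, rfl⟩
  · exact Or.inr ⟨z, rfl⟩

lemma inS_of_hub (S : Set Z) {v : Vx Z} (h : isHub v) : inS S v := by
  obtain ⟨b, rfl⟩ := h
  intro z hz
  exact absurd hz (by simp)

lemma not_hub_inr (z : Z) : ¬ isHub (Sum.inr z : Vx Z) := by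
  rintro ⟨b, hb⟩
  exact absurd hb (by simp)

lemma inS_inr {S : Set Z} {z : Z} : inS S (Sum.inr z) ↔ z ∈ S := by
  constructor
  · intro h; exact h z rfl
  · intro h z' hz'
    rw [Sum.inr.injEq] at hz'
    rwa [← hz']

lemma inPair_of_ag {S : Set Z} {i : Fin 3} {a t : Tr (Vx Z)} (h : Ag i a t)
    (ha : inPair S i a) : inPair S i t := by
  intro j hj
  rw [h j hj]
  exact ha j hj

lemma inPair_of_inTr {S : Set Z} {i : Fin 3} {t : Tr (Vx Z)} (ht : inTr S t) : inPair S i t :=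
  fun j _ => ht j

lemma inTr_of {S : Set Z} {i : Fin 3} {t : Tr (Vx Z)} (h : inPair S i t) (hi : inS S (t i)) :
    inTr S t := by
  intro j
  by_cases hj : j = i
  · rw [hj]; exact hi
  · exact h j hj

lemma hubPair_of_ag {i : Fin 3} {a t : Tr (Vx Z)} (h : Ag i a t)
    (ha : hubPair i a) : hubPair i t := by
  intro j hj
  rw [h j hj]
  exact ha j hj

lemma hubPair_of_hubTr {i : Fin 3} {t : Tr (Vx Z)} (ht : hubTr t) : hubPair i t :=
  fun j _ => ht j

lemma hubTr_of {i : Fin 3} {t : Tr (Vx Z)} (h : hubPair i t) (hi : isHub (t i)) : hubTr t := by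
  intro j
  by_cases hj : j = i
  · rw [hj]; exact hi
  · exact h j hj

end basic

variable {Z : Type} [Fintype Z] [DecidableEq Z]

/-- the hub `0`. -/
def h0 : Vx Z := Sum.inl false
/-- the hub `1`. -/
def h1 : Vx Z := Sum.inl true

/-- indicator of the two pairs `{(i₀ : v), (j : hub 0)}`, `j ≠ i₀`. -/
def defc (i₀ : Fin 3) (v : Vx Z) (i : Fin 3) (a : Tr (Vx Z)) : ℤ :=
  (if i₀ = i + 1 then Pe (a (i + 1)) v * Pe (a (i + 2)) h0 else 0) +
    (if i₀ = i + 2 then Pe (a (i + 2)) v * Pe (a (i + 1)) h0 else 0)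

open Classical in
/-- the part of `N` inside `S` and the hubs, without the hub-hub-hub triples. -/
noncomputable def res (S : Set Z) (N : Tr (Vx Z) → ℤ) : Tr (Vx Z) → ℤ :=
  fun t => if inTr S t ∧ ¬ hubTr t then N t else 0

/-- `N` is a latin square on `Bool ⊕ Z` in which the hubs form the subsquare `xor`,
and `D` consists of non-hub triples of `N`. -/
structure Base (N : Tr (Vx Z) → ℤ) (D : Set (Tr (Vx Z))) : Prop where
  ls : IsLS N
  hub : ∀ b : Fin 3 → Bool, (xor (b 0) (xor (b 1) (b 2))) = false →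
    N (fun j => Sum.inl (b j)) = 1
  Dsub : ∀ t ∈ D, N t = 1 ∧ ¬ hubTr t

/-- `S` (with the hubs) carries a gadget. -/
structure LG (S : Set Z) (N : Tr (Vx Z) → ℤ) (D : Set (Tr (Vx Z))) : Prop where
  sub : ∀ i t, inPair S i t → N t = 1 → inS S (t i)
  uniq : ∀ M : Tr (Vx Z) → ℤ, (∀ t, 0 ≤ M t) → (∀ t, M t ≠ 0 → inTr S t ∧ ¬ hubTr t) →
    (∀ i a, inPair S i a → ¬ hubPair i a → bd M i a = 1) →
    (∀ i a, bd M i a ≤ 1) →
    (∀ i a, (∀ j, j ≠ i → a j = h0) → bd M i a = 0) →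
    (∀ t, inTr S t → ¬ hubTr t → N t = 1 → t ∉ D → M t = 1) →
    ∀ t, inTr S t → ¬ hubTr t → N t = 1 → M t = 1
  tr : ∀ (i₀ : Fin 3) (x : Z), x ∈ S → ∃ A : Tr (Vx Z) → ℤ, (∀ t, 0 ≤ A t) ∧
    (∀ t, A t ≠ 0 → inTr S t ∧ ¬ hubTr t) ∧
    (∀ t, inTr S t → ¬ hubTr t → N t = 1 → t ∉ D → 1 ≤ A t) ∧
    ∀ i a, bd A i a = bd (res S N) i a - defc i₀ (Sum.inr x) i a + defc i₀ h1 i a

section base
variable {N : Tr (Vx Z) → ℤ} {D : Set (Tr (Vx Z))}

/-- the hub triple completing a hub pair. -/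
lemma Base.exists_hub (hB : Base N D) (i : Fin 3) (a : Tr (Vx Z)) (ha : hubPair i a) :
    ∃ t, Ag i a t ∧ hubTr t ∧ N t = 1 := by
  have hb : ∀ j, ∃ b : Bool, j ≠ i → a j = Sum.inl b := by
    intro j
    by_cases hj : j = i
    · exact ⟨false, fun h => absurd hj h⟩
    · obtain ⟨b, hb⟩ := ha j hj
      exact ⟨b, fun _ => hb⟩
  choose b hb using hb
  let b' : Fin 3 → Bool := Function.update b i (xor (b (i + 1)) (b (i + 2)))
  refine ⟨fun j => Sum.inl (b' j), ?_, fun j => ⟨_, rfl⟩, ?_⟩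
  · intro j hj
    rw [hb j hj]
    simp [b', Function.update_of_ne hj]
  · apply hB.hub
    fin_cases i
    · simp only [b', Fin.zero_eta, Fin.isValue, zero_add]
      rw [Function.update_self, Function.update_of_ne (by decide), Function.update_of_ne (by decide)]
      cases b 1 <;> cases b 2 <;> rfl
    · simp only [b', Fin.mk_one, Fin.isValue]
      rw [Function.update_self, Function.update_of_ne (by decide), Function.update_of_ne (by decide)]
      have e1 : (1 : Fin 3) + 1 = 2 := rfl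
      have e2 : (1 : Fin 3) + 2 = 0 := rfl
      rw [e1, e2]
      cases b 0 <;> cases b 2 <;> rfl
    · simp only [b', Fin.reduceFinMk, Fin.isValue]
      rw [Function.update_self, Function.update_of_ne (by decide), Function.update_of_ne (by decide)]
      have e1 : (2 : Fin 3) + 1 = 0 := rfl
      have e2 : (2 : Fin 3) + 2 = 1 := rfl
      rw [e1, e2]
      cases b 0 <;> cases b 1 <;> rfl

lemma Base.hub_closed (hB : Base N D) {i : Fin 3} {t : Tr (Vx Z)} (ha : hubPair i t)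
    (ht : N t ≠ 0) : hubTr t := by
  obtain ⟨s, hs, hs1, hs2⟩ := hB.exists_hub i t ha
  have := hB.ls.eq hs ht (by rw [hs2]; norm_num)
  rwa [this]

lemma one_of_ne (hB : Base N D) {t : Tr (Vx Z)} (h : N t ≠ 0) : N t = 1 :=
  (hB.ls.zero_or_one t).resolve_left h

lemma res_nonneg (hB : Base N D) (S : Set Z) (t : Tr (Vx Z)) : 0 ≤ res S N t := by
  unfold res
  split_ifs
  · exact hB.ls.1 t
  · exact le_refl _

lemma res_le (hB : Base N D) (S : Set Z) (t : Tr (Vx Z)) : res S N t ≤ N t := by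
  unfold res
  split_ifs
  · exact le_refl _
  · exact hB.ls.1 t

lemma bd_res (hB : Base N D) {S : Set Z} (hsub : ∀ i t, inPair S i t → N t = 1 → inS S (t i))
    (i : Fin 3) (a : Tr (Vx Z)) [Decidable (inPair S i a ∧ ¬ hubPair i a)] :
    bd (res S N) i a = if inPair S i a ∧ ¬ hubPair i a then 1 else 0 := by
  split_ifs with h
  · rw [← hB.ls.2 i a]
    unfold bd
    refine Finset.sum_congr rfl (fun t _ => ?_)
    split_ifs with hag
    · unfold res
      by_cases h0 : N t = 0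
      · rw [h0]; split_ifs <;> rfl
      · have h1 := one_of_ne hB h0
        have hin : inTr S t := inTr_of (inPair_of_ag hag h.1) (hsub i t (inPair_of_ag hag h.1) h1)
        have hnh : ¬ hubTr t := fun hh =>
          h.2 (hubPair_of_ag hag.symm (hubPair_of_hubTr (i := i) hh))
        rw [if_pos ⟨hin, hnh⟩]
    · rfl
  · unfold bd
    refine Finset.sum_eq_zero (fun t _ => ?_)
    split_ifs with hag
    · by_contra hne
      have hne' := hne
      unfold res at hne'
      split_ifs at hne' with h1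
      · apply h
        refine ⟨inPair_of_ag hag.symm (inPair_of_inTr h1.1), ?_⟩
        intro hh
        exact h1.2 (hB.hub_closed (hubPair_of_ag hag hh) hne')
      · exact hne' rfl
    · rfl

end base

omit [Fintype Z] in
lemma Pe_self (v : Vx Z) : Pe v v = 1 := by simp [Pe]

omit [Fintype Z] in
lemma Pe_eq_zero {u v : Vx Z} (h : u ≠ v) : Pe u v = 0 := by simp [Pe, h]

/-- if the pair `(i, a)` is not inside `S`, the deficit of a vertex of `S` vanishes. -/
lemma defc_eq_zero {S : Set Z} {i₀ : Fin 3} {v : Vx Z} (hv : inS S v) {i : Fin 3}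
    {a : Tr (Vx Z)} (h : ¬ inPair S i a) : defc i₀ v i a = 0 := by
  have h' : ¬ (inS S (a (i + 1)) ∧ inS S (a (i + 2))) := by
    rintro ⟨h1, h2⟩
    apply h
    intro j hj
    rcases ne_cases i j hj with rfl | rfl
    · exact h1
    · exact h2
  have hh0 : inS S (h0 : Vx Z) := inS_of_hub S ⟨false, rfl⟩
  unfold defc
  have e1 : Pe (a (i + 1)) v * Pe (a (i + 2)) h0 = 0 := by
    by_cases h1 : a (i + 1) = v
    · by_cases h2 : a (i + 2) = h0
      · exact absurd ⟨h1 ▸ hv, h2 ▸ hh0⟩ h'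
      · rw [Pe_eq_zero h2, mul_zero]
    · rw [Pe_eq_zero h1, zero_mul]
  have e2 : Pe (a (i + 2)) v * Pe (a (i + 1)) h0 = 0 := by
    by_cases h1 : a (i + 2) = v
    · by_cases h2 : a (i + 1) = h0
      · exact absurd ⟨h2 ▸ hh0, h1 ▸ hv⟩ h'
      · rw [Pe_eq_zero h2, mul_zero]
    · rw [Pe_eq_zero h1, zero_mul]
  rw [e1, e2]
  simp

end Pool.Agent.Lib.MP_469949_co
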