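import Pool.Agent.Lib.MP_469949_co.Sound

/-!
Verified checker for switchable elements inside a gadget.
-/

namespace Pool.Agent.Lib.MP_469949_co

open Finset

/-- the code of the triple of a cell. -/
def cellT (B n r c : ℕ) : ℕ := (r * 32 + c) * 32 + tab B n r c

/-- one of the three hub triples different from `(0, 0, 0)`. -/
def isDH (k t : ℕ) : Bool :=
  (t == (k * 32 + (k + 1)) * 32 + (k + 1)) || ((t == ((k + 1) * 32 + k) * 32 + (k + 1)) ||
    (t == ((k + 1) * 32 + (k + 1)) * 32 + k))

namespace Cert

/-- check that the element `x` can be switched, by removing `q.1` and adding `q.2`. -/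
def okSw1 (C : Cert) (x : ℕ) (q : List ℕ × List ℕ) : Bool :=
  q.1.all (fun t => C.D.contains t || isDH C.k t) &&
    (q.2.all (fun t => valid (C.k + 2) t && (!(t == x))) &&
    (match accP (x :: q.1), accP q.2 with
      | some a, some b => a == b
      | _, _ => false))

/-- check that all non-hub elements outside `D` and `bad` can be switched. -/
def okSw (C : Cert) (bad : List ℕ) (sw : List (List ℕ × List ℕ)) : Bool :=
  (List.range (C.k + 2)).all (fun r => (List.range (C.k + 2)).all (fun c =>
    (!nonHub C.k (cellT C.B (C.k + 2) r c)) || ((C.D ++ bad).contains (cellT C.B (C.k + 2) r c) ||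
      okSw1 C (cellT C.B (C.k + 2) r c) (sw.getD (r * (C.k + 2) + c) ([], [])))))

end Cert

lemma code_split (t : ℕ) : t = (tR t * 32 + tC t) * 32 + tS t := by
  unfold tR tC tS
  omega

lemma dect_inj {k s t : ℕ} (hs : valid (k + 2) s = true) (ht : valid (k + 2) t = true)
    (h : dect k s = dect k t) : s = t := by
  obtain ⟨a1, a2, a3⟩ := dect_code hs
  obtain ⟨b1, b2, b3⟩ := dect_code ht
  rw [h] at a1 a2 a3
  rw [code_split s, code_split t, ← a1, ← a2, ← a3, ← b1, ← b2, ← b3]

section sound
variable (C : Cert)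

lemma cellT_parts {B n r c : ℕ} (hc : c < 32) (ht : tab B n r c < 32) :
    tR (cellT B n r c) = r ∧ tC (cellT B n r c) = c ∧ tS (cellT B n r c) = tab B n r c := by
  unfold cellT tR tC tS
  omega

lemma isDH_spec {k t : ℕ} (hk : k + 2 ≤ 32) (h : isDH k t = true) :
    valid (k + 2) t = true ∧ ∃ b : Fin 3 → Bool, (xor (b 0) (xor (b 1) (b 2))) = false ∧
      (dect k t = fun j => Sum.inl (b j)) ∧ dect k t ≠ x0 := by
  have d1 : dec k k = Sum.inl false := by simp [dec]
  have d2 : dec k (k + 1) = Sum.inl true := by simp [dec]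
  unfold isDH at h
  simp only [Bool.or_eq_true, beq_iff_eq] at h
  rcases h with h | h | h
  · have e0 : t / 32 = k * 32 + (k + 1) := by omega
    have e1 : tR t = k := by unfold tR; omega
    have e2 : tC t = k + 1 := by unfold tC; rw [e0]; omega
    have e3 : tS t = k + 1 := by unfold tS; omega
    refine ⟨(valid_iff _ _).2 (by omega), ![false, true, true], rfl, ?_, ?_⟩
    · unfold dect
      rw [e1, e2, e3, d1, d2]
      funext j
      fin_cases j <;> rfl
    · intro hh
      have := congrFun hh 1
      unfold dect at this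
      rw [e2, d2] at this
      simp [x0] at this
  · have e0 : t / 32 = (k + 1) * 32 + k := by omega
    have e1 : tR t = k + 1 := by unfold tR; omega
    have e2 : tC t = k := by unfold tC; rw [e0]; omega
    have e3 : tS t = k + 1 := by unfold tS; omega
    refine ⟨(valid_iff _ _).2 (by omega), ![true, false, true], rfl, ?_, ?_⟩
    · unfold dect
      rw [e1, e2, e3, d1, d2]
      funext j
      fin_cases j <;> rfl
    · intro hh
      have := congrFun hh 0
      unfold dect at this
      rw [e1, d2] at this
      simp [x0] at this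
  · have e0 : t / 32 = (k + 1) * 32 + (k + 1) := by omega
    have e1 : tR t = k + 1 := by unfold tR; omega
    have e2 : tC t = k + 1 := by unfold tC; rw [e0]; omega
    have e3 : tS t = k := by unfold tS; omega
    refine ⟨(valid_iff _ _).2 (by omega), ![true, true, false], rfl, ?_, ?_⟩
    · unfold dect
      rw [e1, e2, e3, d1, d2]
      funext j
      fin_cases j <;> rfl
    · intro hh
      have := congrFun hh 0
      unfold dect at this
      rw [e1, d2] at this
      simp [x0] at this

lemma okSw1_spec (hT : C.okTab = true) (hD : C.okD = true) {x : ℕ} {q : List ℕ × List ℕ}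
    (hx : valid (C.k + 2) x = true) (hxN : ofFun C.fn (dect C.k x) = 1)
    (h : C.okSw1 x q = true) : Sw (ofFun C.fn) C.Ds (dect C.k x) := by
  obtain ⟨hk, -⟩ := okTab_spec C hT
  have hB := base_fn C hT hD
  unfold Cert.okSw1 at h
  simp only [Bool.and_eq_true, List.all_eq_true, Bool.or_eq_true, List.contains_iff_mem,
    Bool.not_eq_true', beq_eq_false_iff_ne, ne_eq] at h
  obtain ⟨hrem, hadd, hmask⟩ := h
  rcases hr : accP (x :: q.1) with _ | mr
  · rw [hr] at hmask; simp at hmask
  rcases ha : accP q.2 with _ | ma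
  · rw [hr, ha] at hmask; simp at hmask
  rw [hr, ha] at hmask
  simp only [beq_iff_eq] at hmask
  subst hmask
  have hvr : ∀ t ∈ x :: q.1, valid (C.k + 2) t = true := by
    intro t ht
    rcases List.mem_cons.1 ht with rfl | ht
    · exact hx
    · rcases hrem t ht with h1 | h1
      · exact (okD_spec C hD t h1).1
      · exact (isDH_spec hk h1).1
  have hva : ∀ t ∈ q.2, valid (C.k + 2) t = true := fun t ht => (hadd t ht).1
  have hrN : ∀ t ∈ x :: q.1, ofFun C.fn (dect C.k t) = 1 := by
    intro t ht
    rcases List.mem_cons.1 ht with rfl | ht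
    · exact hxN
    · rcases hrem t ht with h1 | h1
      · exact D_ofFun C hT hD h1
      · obtain ⟨-, b, hb, hb2, -⟩ := isDH_spec hk h1
        rw [hb2]
        exact hB.hub b hb
  have hLS : IsLS (fun t => (ofFun C.fn t - Sl C.k (x :: q.1) t) + Sl C.k q.2 t) := by
    refine ⟨?_, ?_⟩
    · intro t
      show 0 ≤ (ofFun C.fn t - Sl C.k (x :: q.1) t) + Sl C.k q.2 t
      have e1 := Sl_nonneg C.k q.2 t
      by_cases hz : Sl C.k (x :: q.1) t = 0
      · rw [hz]
        have := hB.ls.1 t
        linarith
      · obtain ⟨c, hc, rfl⟩ := mem_of_Sl hz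
        rw [hrN c hc]
        have e4 := Sl_le_one hk hr hvr (dect C.k c)
        linarith
    · intro i a
      show bd (fun t => (ofFun C.fn t - Sl C.k (x :: q.1) t) + Sl C.k q.2 t) i a = 1
      rw [bd_add, bd_sub, bd_Sl hk hr hvr, bd_Sl hk ha hva, hB.ls.2 i a]
      ring
  refine ⟨_, hLS, ?_, ?_⟩
  · show (ofFun C.fn (dect C.k x) - Sl C.k (x :: q.1) (dect C.k x)) + Sl C.k q.2 (dect C.k x) = 0
    have e1 : Sl C.k q.2 (dect C.k x) = 0 := by
      refine Sl_zero (fun c hc hh => ?_)
      exact (hadd c hc).2 (dect_inj hx (hva c hc) hh).symm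
    have e2 : Sl C.k (x :: q.1) (dect C.k x) = 1 :=
      le_antisymm (Sl_le_one hk hr hvr _) (Sl_pos ⟨x, List.mem_cons_self, rfl⟩)
    rw [hxN, e1, e2]; norm_num
  · intro s hsN hsD hsx hsh
    have e2 : Sl C.k (x :: q.1) s = 0 := by
      refine Sl_zero (fun c hc hh => ?_)
      rcases List.mem_cons.1 hc with rfl | hc
      · exact hsx hh
      · rcases hrem c hc with h1 | h1
        · exact hsD ⟨c, h1, hh⟩
        · obtain ⟨-, b, -, hb2, hb3⟩ := isDH_spec hk h1
          rcases hsh with h2 | h2
          · apply h2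
            rw [hh, hb2]
            intro j
            exact ⟨b j, rfl⟩
          · exact hb3 (hh.symm.trans h2)
    have e1 := Sl_nonneg C.k q.2 s
    have e3 := hLS.zero_or_one s
    show (ofFun C.fn s - Sl C.k (x :: q.1) s) + Sl C.k q.2 s = 1
    rcases e3 with e3 | e3
    · change (ofFun C.fn s - Sl C.k (x :: q.1) s) + Sl C.k q.2 s = 0 at e3
      rw [hsN, e2] at e3
      linarith
    · exact e3

open Classical in
/-- all non-switchable non-hub elements lie in `D` or `bad`. -/
theorem okSw_card (hT : C.okTab = true) (hD : C.okD = true) {bad : List ℕ}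
    {sw : List (List ℕ × List ℕ)} (h : C.okSw bad sw = true) :
    (Finset.univ.filter (fun t : Tr (Vx (Fin C.k)) => ofFun C.fn t = 1 ∧ ¬ hubTr t ∧
      ¬ Sw (ofFun C.fn) C.Ds t)).card ≤ (C.D ++ bad).length := by
  obtain ⟨hk, htab, -⟩ := okTab_spec C hT
  have hsub : (Finset.univ.filter (fun t : Tr (Vx (Fin C.k)) => ofFun C.fn t = 1 ∧ ¬ hubTr t ∧
      ¬ Sw (ofFun C.fn) C.Ds t)) ⊆ ((C.D ++ bad).map (dect C.k)).toFinset := by
    intro t ht
    simp only [Finset.mem_filter, Finset.mem_univ, true_and] at ht
    obtain ⟨htN, htn, htS⟩ := ht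
    rw [List.mem_toFinset, List.mem_map]
    unfold Cert.okSw at h
    simp only [List.all_eq_true, List.mem_range, Bool.or_eq_true, Bool.not_eq_true',
      List.contains_iff_mem] at h
    have h1 := h _ (code_lt C.k (t 0)) _ (code_lt C.k (t 1))
    set x := cellT C.B (C.k + 2) (code C.k (t 0)) (code C.k (t 1)) with hx
    have hl0 := code_lt C.k (t 0)
    have hl1 := code_lt C.k (t 1)
    have hlt := htab _ (code_lt C.k (t 0)) _ (code_lt C.k (t 1))
    obtain ⟨p1, p2, p3⟩ := cellT_parts (B := C.B) (n := C.k + 2) (r := code C.k (t 0))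
      (c := code C.k (t 1)) (by omega) (by omega)
    rw [← hx] at p1 p2 p3
    have hxv : valid (C.k + 2) x = true := (valid_iff _ _).2 ⟨by omega, by omega, by omega⟩
    have htx : dect C.k x = t := by
      unfold dect
      rw [p1, p2, p3, (ofFun_fn C hT t).1 htN, dec_code, dec_code, dec_code]
      funext j
      fin_cases j <;> rfl
    rcases h1 with h1 | h1 | h1
    · exfalso
      apply htn
      have hh : ∀ j, C.k ≤ code C.k (t j) := by
        unfold nonHub at h1
        simp only [Bool.not_eq_false', Bool.and_eq_true, decide_eq_true_eq] at h1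
        rw [p1, p2, p3, (ofFun_fn C hT t).1 htN] at h1
        intro j
        fin_cases j
        · exact h1.1
        · exact h1.2.1
        · exact h1.2.2
      exact fun j => (isHub_iff_code _).2 (hh j)
    · exact ⟨x, h1, htx⟩
    · exfalso
      apply htS
      rw [← htx]
      exact okSw1_spec C hT hD hxv (by rw [htx]; exact htN) h1
  refine (Finset.card_le_card hsub).trans ((List.toFinset_card_le _).trans ?_)
  rw [List.length_map]

open Classical in
/-- the non-switchable elements of a checked gadget. -/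
theorem okSw_card_all (hT : C.okTab = true) (hD : C.okD = true) {bad : List ℕ}
    {sw : List (List ℕ × List ℕ)} (h : C.okSw bad sw = true) :
    (Finset.univ.filter (fun t : Tr (Vx (Fin C.k)) => ofFun C.fn t = 1 ∧
      ¬ Sw (ofFun C.fn) C.Ds t)).card ≤ (C.D ++ bad).length + 4 := by
  have h1 := okSw_card C hT hD h
  have hB := base_fn C hT hD
  let H : Finset (Tr (Vx (Fin C.k))) := (Finset.univ : Finset (Bool × Bool)).image
    (fun p => ![Sum.inl p.1, Sum.inl p.2, Sum.inl (xor p.1 p.2)])
  have hH : H.card ≤ 4 := Finset.card_image_le.trans (by decide)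
  have hsub : (Finset.univ.filter (fun t : Tr (Vx (Fin C.k)) => ofFun C.fn t = 1 ∧
      ¬ Sw (ofFun C.fn) C.Ds t)) ⊆
      (Finset.univ.filter (fun t : Tr (Vx (Fin C.k)) => ofFun C.fn t = 1 ∧ ¬ hubTr t ∧
        ¬ Sw (ofFun C.fn) C.Ds t)) ∪ H := by
    intro t ht
    simp only [Finset.mem_filter, Finset.mem_univ, true_and] at ht
    rw [Finset.mem_union]
    by_cases hh : hubTr t
    · right
      obtain ⟨b0, hb0⟩ := hh 0
      obtain ⟨b1, hb1⟩ := hh 1
      refine Finset.mem_image.2 ⟨(b0, b1), Finset.mem_univ _, ?_⟩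
      have h2 : t 2 = Sum.inl (xor b0 b1) := by
        rw [← ofFun_eq_one.1 ht.1, hb0, hb1]
        exact fn_hub C hT b0 b1
      funext j
      fin_cases j
      · exact hb0.symm
      · exact hb1.symm
      · exact h2.symm
    · left
      simp only [Finset.mem_filter, Finset.mem_univ, true_and]
      exact ⟨ht.1, hh, ht.2⟩
  have h3 := (Finset.card_le_card hsub).trans (Finset.card_union_le _ _)
  omega

end sound

end Pool.Agent.Lib.MP_469949_co
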