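import Pool.Agent.Lib.MP_469949_co.Main
import Pool.Agent.Lib.MP_469949_co.Switch

/-!
Composition of the counts, and the algebraic input.
-/

namespace Pool.Agent.Lib.MP_469949_co

open Finset

/-- switchable elements of an embedded gadget can be switched. -/
lemma Sw_lift {Y Z : Type} [Fintype Y] [DecidableEq Y] [Fintype Z] [DecidableEq Z] {e : Y → Z}
    (he : Function.Injective e) {N : Tr (Vx Z) → ℤ} {D : Set (Tr (Vx Z))} (hB : Base N D)
    (hsub : ∀ i t, inPair (Set.range e) i t → N t = 1 → inS (Set.range e) (t i))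
    {N' : Tr (Vx Y) → ℤ} {D' : Set (Tr (Vx Y))} (hN : ∀ s, N (Emb e s) = N' s)
    (hD : ∀ s, s ∈ D' → Emb e s ∈ D) (t : Tr (Vx Y)) (ht : Sw N' D' t) : Sw N D (Emb e t) := by
  classical
  obtain ⟨L, hL, hLt, hLs⟩ := ht
  let A : Tr (Vx Z) → ℤ := fun t => ∑ t₀, if t = Emb e t₀ then L t₀ else 0
  have hA1 : ∀ t₀, A (Emb e t₀) = L t₀ := by
    intro t₀
    simp only [A]
    rw [Finset.sum_eq_single t₀]
    · rw [if_pos rfl]
    · intro s _ hs
      rw [if_neg (fun h => hs (Emb_injective he h).symm)]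
    · intro h; exact absurd (Finset.mem_univ _) h
  have hA2 : ∀ t, A t ≠ 0 → inTr (Set.range e) t := by
    intro t ht
    rw [inTr_range]
    by_contra hcon
    push Not at hcon
    apply ht
    simp only [A]
    exact Finset.sum_eq_zero (fun t₀ _ => if_neg (fun h => hcon t₀ h.symm))
  have hA0 : ∀ t, 0 ≤ A t := by
    intro t
    simp only [A]
    refine Finset.sum_nonneg (fun t₀ _ => ?_)
    split_ifs
    · exact hL.1 t₀
    · exact le_refl _
  have hLS := switch_in (S := Set.range e) hB hsub A hA0 hA2 (by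
    intro i a ha
    obtain ⟨a₀, ha₀⟩ := inPair_range _ ha
    rw [bd_congr ha₀, bd_Emb he A hA2]
    have e1 : (fun t => A (Emb e t)) = L := funext hA1
    rw [e1]
    exact hL.2 i a₀)
  refine ⟨_, hLS, ?_, ?_⟩
  · show (N (Emb e t) - (if inTr _ (Emb e t) then N (Emb e t) else 0)) + A (Emb e t) = 0
    rw [if_pos ((inTr_range _ _).2 ⟨t, rfl⟩), hA1, hLt]
    ring
  · intro s hs hsD hst hsh
    show (N s - (if inTr (Set.range e) s then N s else 0)) + A s = 1
    by_cases hin : inTr (Set.range e) s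
    · rw [if_pos hin]
      obtain ⟨s₀, rfl⟩ := (inTr_range _ _).1 hin
      rw [hA1]
      have := hLs s₀ (by rw [← hN]; exact hs) (fun h => hsD (hD s₀ h))
        (fun h => hst (by rw [h])) (by
          rcases hsh with h | h
          · exact Or.inl (fun h' => h ((hubTr_Emb _ s₀).2 h'))
          · right
            apply Emb_injective he
            rw [h]; rfl)
      rw [this]; ring
    · rw [if_neg hin, hs]
      have : A s = 0 := by
        by_contra hne
        exact hin (hA2 s hne)
      rw [this]; ring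

/-- a gadget on `N` vertices with at most `b` non-switchable elements. -/
def Good (N b : ℕ) : Prop :=
  ∃ (Z : Type) (_ : Fintype Z) (_ : DecidableEq Z) (f : Vx Z → Vx Z → Vx Z)
    (D : Set (Tr (Vx Z))) (B : Finset (Tr (Vx Z))), FG Z f D ∧ Fintype.card Z = N ∧
      (∀ t, ofFun f t = 1 → ¬ Sw (ofFun f) D t → t ∈ B) ∧ B.card ≤ b

lemma card_ofFun (V : Type) [Fintype V] [DecidableEq V] (f : V → V → V) :
    (Finset.univ.filter (fun t : Tr V => ofFun f t = 1)).card = (Fintype.card V) ^ 2 := by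
  rw [sq, ← Fintype.card_prod, ← Finset.card_univ]
  refine Finset.card_bij (fun t _ => (t 0, t 1)) (fun _ _ => Finset.mem_univ _) ?_ ?_
  · intro t ht s hs hts
    simp only [Finset.mem_filter, Finset.mem_univ, true_and, ofFun_eq_one] at ht hs
    simp only [Prod.mk.injEq] at hts
    funext j
    fin_cases j
    · exact hts.1
    · exact hts.2
    · show t 2 = s 2
      rw [← ht, ← hs, hts.1, hts.2]
  · rintro ⟨r, c⟩ _
    refine ⟨![r, c, f r c], ?_, rfl⟩
    simp only [Finset.mem_filter, Finset.mem_univ, true_and, ofFun_eq_one]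
    rfl

/-- the lower bound for `lcs`. -/
theorem Good.lcs_ge {N b : ℕ} (h : Good N b) : (N + 2) ^ 2 ≤ lcs (N + 2) + b := by
  classical
  obtain ⟨Z, _, _, f, D, B, hF, hN, hB, hb⟩ := h
  have hc : Fintype.card (Vx Z) = N + 2 := by
    rw [Fintype.card_sum, hN, Fintype.card_bool]; omega
  have h1 := hF.lcs_ge
  have hsplit := Finset.card_filter_add_card_filter_not
    (s := Finset.univ.filter (fun t : Tr (Vx Z) => ofFun f t = 1))
    (p := fun t => Sw (ofFun f) D t)
  rw [card_ofFun, Finset.filter_filter, Finset.filter_filter, hc] at hsplit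
  rw [hc] at h1
  have h2 : (Finset.univ.filter (fun t : Tr (Vx Z) => ofFun f t = 1 ∧
      ¬ Sw (ofFun f) D t)).card ≤ b := by
    refine (Finset.card_le_card ?_).trans hb
    intro t ht
    simp only [Finset.mem_filter, Finset.mem_univ, true_and] at ht
    exact hB t ht.1 ht.2
  omega

/-- the trivial count. -/
lemma FG.good {Z : Type} [Fintype Z] [DecidableEq Z] {f : Vx Z → Vx Z → Vx Z}
    {D : Set (Tr (Vx Z))} (h : FG Z f D) : Good (Fintype.card Z) ((Fintype.card Z + 2) ^ 2) := by
  classical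
  refine ⟨Z, inferInstance, inferInstance, f, D,
    Finset.univ.filter (fun t : Tr (Vx Z) => ofFun f t = 1), h, rfl, ?_, ?_⟩
  · intro t ht _
    simp [ht]
  · rw [card_ofFun, Fintype.card_sum, Fintype.card_bool, Nat.add_comm 2]

section comp
variable {T X U : Type} [Fintype T] [DecidableEq T] [Fintype X] [DecidableEq X] [Fintype U]
  [DecidableEq U] {d : PData T X U} {DX : Set (Tr (Vx X))} {DU : Set (Tr (Vx U))}

/-- the non-switchable elements of the composite. -/
lemma big_nonSw (hX : FG X d.NX DX) (hU : FG U d.NU DU) (hd : d.OK)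
    (t : Tr (Vx ((T × X) ⊕ U))) (htN : ofFun d.Big t = 1)
    (htS : ¬ Sw (ofFun d.Big) (DBig T DX DU) t) :
    (∃ (τ : T) (s : Tr (Vx X)), t = Emb (PData.eT U τ) s ∧ ofFun d.NX s = 1 ∧ ¬ hubTr s ∧
      ¬ Sw (ofFun d.NX) DX s) ∨
    (∃ s : Tr (Vx U), t = Emb (PData.eU T X) s ∧ ofFun d.NU s = 1 ∧
      ¬ Sw (ofFun d.NU) DU s) := by
  have hB := big_base hX hU hd
  have hgrp : ∃ g, inTr (grp T X U ⁻¹' {g}) t := by
    have hsub := fun g => (big_LG hX hU hd g).sub
    have htwo : ∀ (j k : Fin 3), j ≠ k → ∀ g, inS (grp T X U ⁻¹' {g}) (t j) →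
        inS (grp T X U ⁻¹' {g}) (t k) → inTr (grp T X U ⁻¹' {g}) t := by
      intro j k hjk g hj hk
      obtain ⟨l, hlj, hlk⟩ := third_exists j k
      have hp : inPair (grp T X U ⁻¹' {g}) l t := by
        intro m hm
        rcases three_cases j k l m hjk hlj hlk hm with rfl | rfl
        · exact hj
        · exact hk
      exact inTr_of hp (hsub g l t hp htN)
    by_cases hhub : ∃ j, isHub (t j)
    · obtain ⟨j, hj⟩ := hhub
      obtain ⟨k, hkj, -⟩ := third_exists j j
      rcases isHub_or (t k) with h1 | ⟨z, hz⟩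
      · exact ⟨none, htwo j k hkj.symm none (inS_of_hub _ hj) (inS_of_hub _ h1)⟩
      · refine ⟨grp T X U z, htwo j k hkj.symm _ (inS_of_hub _ hj) ?_⟩
        rw [hz, inS_inr]
        rfl
    · push Not at hhub
      have hz : ∀ j, ∃ z, t j = Sum.inr z := fun j =>
        (isHub_or (t j)).resolve_left (hhub j)
      choose z hz using hz
      by_contra hno
      apply htS
      have hdist : ∀ j j', j ≠ j' → grp T X U (z j) ≠ grp T X U (z j') := by
        intro j j' hjj heq
        apply hno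
        refine ⟨grp T X U (z j), htwo j j' hjj _ ?_ ?_⟩
        · rw [hz j, inS_inr]; rfl
        · rw [hz j', inS_inr]; exact heq.symm
      exact switch_off (grp T X U) hB (big_LG hX hU hd) t htN z hz hdist
  have hUlift : ∀ s : Tr (Vx U), t = Emb (PData.eU T X) s → ofFun d.NU s = 1 ∧
      ¬ Sw (ofFun d.NU) DU s := by
    rintro s rfl
    refine ⟨by rw [← ofFun_eU hd]; exact htN, fun h => htS ?_⟩
    have hsub := (big_LG hX hU hd none).sub
    rw [grp_none] at hsub
    exact Sw_lift eU_inj hB hsub (fun s => ofFun_eU hd s) (fun s hs => Or.inr ⟨s, hs, rfl⟩) s h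
  obtain ⟨g, hg⟩ := hgrp
  by_cases hh : hubTr t
  · right
    choose b hb using hh
    have ht : t = Emb (PData.eU T X) (fun j => Sum.inl (b j)) := by
      funext j
      exact hb j
    exact ⟨_, ht, hUlift _ ht⟩
  · rcases g with _ | τ
    · rw [grp_none] at hg
      obtain ⟨t₀, ht₀⟩ := (inTr_range _ _).1 hg
      exact Or.inr ⟨t₀, ht₀.symm, hUlift t₀ ht₀.symm⟩
    · rw [grp_some] at hg
      obtain ⟨t₀, rfl⟩ := (inTr_range _ _).1 hg
      left
      refine ⟨τ, t₀, rfl, by rw [← ofFun_eT hd τ]; exact htN,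
        fun h => hh ((hubTr_Emb _ t₀).2 h), fun h => htS ?_⟩
      exact big_Sw_in hX hU hd τ t₀ h

end comp

/-- multiplication by a primitive element of the field with eight elements. -/
def th8 : Fin 8 → Fin 8 := ![0, 2, 4, 6, 3, 1, 7, 5]
/-- first latin square of order eight. -/
def K1 (i j : Fin 8) : Fin 8 := i ^^^ j
/-- second latin square of order eight. -/
def K2 (i j : Fin 8) : Fin 8 := i ^^^ th8 j

lemma K1_row : ∀ i j j', K1 i j = K1 i j' → j = j' := by decide +kernel
lemma K1_col : ∀ i i' j, K1 i j = K1 i' j → i = i' := by decide +kernel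
lemma K2_row : ∀ i j j', K2 i j = K2 i j' → j = j' := by decide +kernel
lemma K2_col : ∀ i i' j, K2 i j = K2 i' j → i = i' := by decide +kernel
lemma K_orth : ∀ i j i' j', K1 i j = K1 i' j' → K2 i j = K2 i' j' → i = i' ∧ j = j' := by
  decide +kernel

/-- the data over `ZMod m × Fin 8`. -/
def pd8 (m : ℕ) (c : ZMod m) {U : Type} (NX : Vx (Fin 8) → Vx (Fin 8) → Vx (Fin 8))
    (NU : Vx U → Vx U → Vx U) (ι : U → ZMod m × Fin 8) : PData (ZMod m) (Fin 8) U where
  NX := NX
  NU := NU
  F := fun p q => (c * (p.1 + q.1), K1 p.2 q.2)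
  F' := fun p q => (q.1 - p.1, K2 p.2 q.2)
  ι := ι

lemma pd8_OK {m : ℕ} {c : ZMod m} (hc : c * 2 = 1) {U : Type}
    {NX : Vx (Fin 8) → Vx (Fin 8) → Vx (Fin 8)} {NU : Vx U → Vx U → Vx U}
    {ι : U → ZMod m × Fin 8}
    (hubX : ∀ a b, NX (Sum.inl a) (Sum.inl b) = Sum.inl (xor a b))
    (hubU : ∀ a b, NU (Sum.inl a) (Sum.inl b) = Sum.inl (xor a b))
    (rX : ∀ r, Function.Injective (NX r)) (cX : ∀ c, Function.Injective (fun r => NX r c))
    (rU : ∀ r, Function.Injective (NU r)) (cU : ∀ c, Function.Injective (fun r => NU r c))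
    (hi : Function.Injective ι) (hne : ∀ l, (ι l).1 ≠ 0) : (pd8 m c NX NU ι).OK := by
  have hcan : ∀ x y : ZMod m, c * x = c * y → x = y := by
    intro x y h
    have h2 : (c * 2) * x = (c * 2) * y := by
      calc (c * 2) * x = 2 * (c * x) := by ring
        _ = 2 * (c * y) := by rw [h]
        _ = (c * 2) * y := by ring
    rwa [hc, one_mul, one_mul] at h2
  refine ⟨hubX, hubU, rX, cX, rU, cU, ?_, ?_, ?_, ?_, ?_, hi, ?_, ?_, ?_⟩
  · rintro p ⟨a, b⟩ ⟨a', b'⟩ h
    simp only [pd8, Prod.mk.injEq] at h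
    exact Prod.ext (add_left_cancel (hcan _ _ h.1)) (K1_row _ _ _ h.2)
  · rintro q ⟨a, b⟩ ⟨a', b'⟩ h
    simp only [pd8, Prod.mk.injEq] at h
    exact Prod.ext (add_right_cancel (hcan _ _ h.1)) (K1_col _ _ _ h.2)
  · rintro p ⟨a, b⟩ ⟨a', b'⟩ h
    simp only [pd8, Prod.mk.injEq] at h
    exact Prod.ext (sub_left_injective h.1) (K2_row _ _ _ h.2)
  · rintro q ⟨a, b⟩ ⟨a', b'⟩ h
    simp only [pd8, Prod.mk.injEq] at h
    exact Prod.ext (sub_right_injective h.1) (K2_col _ _ _ h.2)
  · rintro ⟨⟨a, i⟩, ⟨b, j⟩⟩ ⟨⟨a', i'⟩, ⟨b', j'⟩⟩ h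
    simp only [pd8, Prod.mk.injEq] at h
    obtain ⟨⟨h1, h2⟩, h3, h4⟩ := h
    have h5 := hcan _ _ h1
    have h6 : c * (2 * b) = c * (2 * b') := by
      have : 2 * b = 2 * b' := by
        calc 2 * b = (a + b) + (b - a) := by ring
          _ = (a' + b') + (b' - a') := by rw [h5, h3]
          _ = 2 * b' := by ring
      rw [this]
    have h7 : b = b' := by
      have : (c * 2) * b = (c * 2) * b' := by
        calc (c * 2) * b = c * (2 * b) := by ring
          _ = c * (2 * b') := h6
          _ = (c * 2) * b' := by ring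
      rwa [hc, one_mul, one_mul] at this
    have h8 : a = a' := by
      rw [h7] at h5
      exact add_right_cancel h5
    obtain ⟨h9, h10⟩ := K_orth _ _ _ _ h2 h4
    rw [h7, h8, h9, h10]
  · intro p q hpq l h
    apply hne l
    have h' : (ι l).1 = q.1 - p.1 := congrArg Prod.fst h
    rw [h', hpq, sub_self]
  · intro p q
    show c * (p.1 + q.1) = p.1 ↔ p.1 = q.1
    constructor
    · intro h
      have : c * (p.1 + q.1) = c * (p.1 + p.1) := by
        rw [h]
        calc p.1 = (c * 2) * p.1 := by rw [hc, one_mul]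
          _ = c * (p.1 + p.1) := by ring
      exact (add_left_cancel (hcan _ _ this)).symm
    · intro h
      rw [← h]
      calc c * (p.1 + p.1) = (c * 2) * p.1 := by ring
        _ = p.1 := by rw [hc, one_mul]
  · intro p q
    show c * (p.1 + q.1) = q.1 ↔ p.1 = q.1
    constructor
    · intro h
      have : c * (p.1 + q.1) = c * (q.1 + q.1) := by
        rw [h]
        calc q.1 = (c * 2) * q.1 := by rw [hc, one_mul]
          _ = c * (q.1 + q.1) := by ring
      exact add_right_cancel (hcan _ _ this)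
    · intro h
      rw [h]
      calc c * (q.1 + q.1) = (c * 2) * q.1 := by ring
        _ = q.1 := by rw [hc, one_mul]

/-- one half modulo an odd number. -/
lemma exists_half {m : ℕ} (hm : Odd m) : ∃ c : ZMod m, c * 2 = 1 := by
  obtain ⟨a, ha⟩ := hm
  refine ⟨-(a : ZMod m), ?_⟩
  have h1 : ((m : ℕ) : ZMod m) = 0 := ZMod.natCast_self m
  have h3 : ((m : ℕ) : ZMod m) = ((2 * a + 1 : ℕ) : ZMod m) := congrArg _ ha
  have h2 : (2 : ZMod m) * (a : ZMod m) + 1 = 0 := by
    rw [← h1, h3]
    push_cast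
    ring
  linear_combination -h2

/-- composition of gadgets with a fixed gadget of size eight. -/
theorem Good.comp {NX : Vx (Fin 8) → Vx (Fin 8) → Vx (Fin 8)} {DX : Set (Tr (Vx (Fin 8)))}
    (hX : FG (Fin 8) NX DX) {BX : Finset (Tr (Vx (Fin 8)))}
    (hBX : ∀ t, ofFun NX t = 1 → ¬ hubTr t → ¬ Sw (ofFun NX) DX t → t ∈ BX)
    {u b m : ℕ} (hU : Good u b) (hm : Odd m) (hle : u ≤ 8 * (m - 1)) :
    Good (8 * m + u) (BX.card * m + b) := by
  classical
  obtain ⟨U, _, _, NU, DU, BU, hFU, hcU, hBU, hb⟩ := hU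
  obtain ⟨c, hc⟩ := exists_half hm
  have hm0 : m ≠ 0 := by
    rintro rfl
    exact absurd hm (by decide)
  have : NeZero m := ⟨hm0⟩
  -- the embedding of `U`
  have hcard : Fintype.card {p : ZMod m × Fin 8 // p.1 ≠ 0} = 8 * (m - 1) := by
    have e : {p : ZMod m × Fin 8 // p.1 ≠ 0} ≃ {x : ZMod m // x ≠ 0} × Fin 8 :=
      { toFun := fun p => (⟨p.1.1, p.2⟩, p.1.2)
        invFun := fun q => ⟨(q.1.1, q.2), q.1.2⟩
        left_inv := fun p => rfl
        right_inv := fun q => rfl }
    rw [Fintype.card_congr e, Fintype.card_prod, Fintype.card_fin]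
    have : Fintype.card {x : ZMod m // x ≠ 0} = m - 1 := by
      rw [Fintype.card_subtype_compl, ZMod.card]
      simp
    rw [this, Nat.mul_comm]
  obtain ⟨ι'⟩ := Function.Embedding.nonempty_of_card_le
    (α := U) (β := {p : ZMod m × Fin 8 // p.1 ≠ 0}) (by rw [hcU, hcard]; exact hle)
  have hd : (pd8 m c NX NU (fun l => (ι' l).1)).OK := by
    refine pd8_OK hc hX.hub hFU.hub hX.row hX.col hFU.row hFU.col ?_ (fun l => (ι' l).2)
    intro l l' h
    exact ι'.injective (Subtype.ext h)
  set d := pd8 m c NX NU (fun l => (ι' l).1) with hdd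
  have hX' : FG (Fin 8) d.NX DX := hX
  have hU' : FG U d.NU DU := hFU
  refine ⟨(ZMod m × Fin 8) ⊕ U, inferInstance, inferInstance, d.Big, DBig (ZMod m) DX DU,
    ((Finset.univ : Finset (ZMod m)) ×ˢ BX).image (fun p => Emb (PData.eT U p.1) p.2) ∪
          BU.image (Emb (PData.eU (ZMod m) (Fin 8))), big_FG hX' hU' hd, ?_, ?_, ?_⟩
  · rw [Fintype.card_sum, Fintype.card_prod, ZMod.card, Fintype.card_fin, hcU, Nat.mul_comm]
  · intro t htN htS
    rw [Finset.mem_union, Finset.mem_image, Finset.mem_image]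
    rcases big_nonSw hX' hU' hd t htN htS with ⟨τ, s, rfl, h1, h2, h3⟩ | ⟨s, rfl, h1, h2⟩
    · left
      exact ⟨(τ, s), Finset.mem_product.2 ⟨Finset.mem_univ _, hBX s h1 h2 h3⟩, rfl⟩
    · right
      exact ⟨s, hBU s h1 h2, rfl⟩
  · refine (Finset.card_union_le _ _).trans (Nat.add_le_add (Finset.card_image_le.trans ?_)
      (Finset.card_image_le.trans hb))
    rw [Finset.card_product, Finset.card_univ, ZMod.card, Nat.mul_comm]

/-- the empty gadget. -/
theorem good_zero : Good 0 4 := by
  classical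
  let f : Vx (Fin 0) → Vx (Fin 0) → Vx (Fin 0)
    | Sum.inl a, Sum.inl b => Sum.inl (xor a b)
    | Sum.inl a, Sum.inr b => Sum.inl a
    | Sum.inr a, _ => Sum.inr a
  have hub : ∀ t : Tr (Vx (Fin 0)), hubTr t := by
    intro t j
    rcases h : t j with b | z
    · exact ⟨b, rfl⟩
    · exact z.elim0
  have hF : FG (Fin 0) f ∅ := by
    refine ⟨fun a b => rfl, ?_, ?_, ?_, ?_, ?_, ?_⟩
    · intro r c c' h
      rcases r with a | r
      · rcases c with b | c
        · rcases c' with b' | c'
          · simp only [f, Sum.inl.injEq] at h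
            revert h
            cases a <;> cases b <;> cases b' <;> simp
          · exact c'.elim0
        · exact c.elim0
      · exact r.elim0
    · intro c r r' h
      rcases c with a | c
      · rcases r with b | r
        · rcases r' with b' | r'
          · simp only [f, Sum.inl.injEq] at h
            revert h
            cases a <;> cases b <;> cases b' <;> simp
          · exact r'.elim0
        · exact r.elim0
      · exact c.elim0
    · intro t ht
      exact absurd ht (Set.notMem_empty t)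
    · intro i t _ _ z
      exact z.elim0
    · intro M _ _ _ _ _ _ t _ ht
      exact absurd (hub t) ht
    · intro i₀ x
      exact x.elim0
  have := hF.good
  simpa using this

end Pool.Agent.Lib.MP_469949_co
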