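import Pool.Agent.Lib.MP_469949_co.BigGadget

/-!
The composite gadget, and the count of its switchable elements.
-/

namespace Pool.Agent.Lib.MP_469949_co

open Finset

variable {T X U : Type} [Fintype T] [DecidableEq T] [Fintype X] [DecidableEq X] [Fintype U]
  [DecidableEq U]

/-- the set `D` of the composite. -/
def DBig (T : Type) {X U : Type} (DX : Set (Tr (Vx X))) (DU : Set (Tr (Vx U))) :
    Set (Tr (Vx ((T × X) ⊕ U))) :=
  {t | (∃ τ : T, ∃ s ∈ DX, t = Emb (PData.eT U τ) s) ∨ ∃ s ∈ DU, t = Emb (PData.eU T X) s}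

/-- the group of a vertex. -/
def grp (T X U : Type) : (T × X) ⊕ U → Option T := Sum.elim (fun p => some p.1) (fun _ => none)

omit [Fintype T] [DecidableEq T] [Fintype X] [DecidableEq X] [Fintype U] [DecidableEq U] in
lemma grp_some (τ : T) : grp T X U ⁻¹' {some τ} = Set.range (PData.eT U τ : X → _) := by
  ext z
  rcases z with p | u
  · simp only [Set.mem_preimage, grp, Sum.elim_inl, Set.mem_singleton_iff, Option.some.injEq,
      Set.mem_range]
    constructor
    · intro h
      exact ⟨p.2, by unfold PData.eT; rw [← h]⟩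
    · rintro ⟨y, hy⟩
      unfold PData.eT at hy
      rw [Sum.inl.injEq] at hy
      rw [← hy]
  · simp only [Set.mem_preimage, grp, Sum.elim_inr, Set.mem_singleton_iff, reduceCtorEq,
      Set.mem_range, false_iff, not_exists]
    intro y hy
    exact absurd hy (by simp [PData.eT])

omit [Fintype T] [DecidableEq T] [Fintype X] [DecidableEq X] [Fintype U] [DecidableEq U] in
lemma grp_none : grp T X U ⁻¹' {none} = Set.range (PData.eU T X : U → _) := by
  ext z
  rcases z with p | u
  · simp only [Set.mem_preimage, grp, Sum.elim_inl, Set.mem_singleton_iff, reduceCtorEq,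
      Set.mem_range, false_iff, not_exists]
    intro y hy
    exact absurd hy (by simp [PData.eU])
  · simp only [Set.mem_preimage, grp, Sum.elim_inr, Set.mem_singleton_iff, Set.mem_range,
      true_iff]
    exact ⟨u, rfl⟩

omit [Fintype T] [DecidableEq T] [Fintype X] [DecidableEq X] [Fintype U] [DecidableEq U] in
lemma eT_inj (τ : T) : Function.Injective (PData.eT U τ : X → _) := by
  intro x y h
  unfold PData.eT at h
  simpa using h

omit [Fintype T] [DecidableEq T] [Fintype X] [DecidableEq X] [Fintype U] [DecidableEq U] in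
lemma eU_inj : Function.Injective (PData.eU T X : U → _) := by
  intro x y h
  unfold PData.eU at h
  simpa using h

omit [Fintype T] [Fintype X] [Fintype U] in
lemma ofFun_eT {d : PData T X U} (hd : d.OK) (τ : T) (s : Tr (Vx X)) :
    ofFun d.Big (Emb (PData.eT U τ) s) = ofFun d.NX s := by
  have h1 : d.Big (Emb (PData.eT U τ) s 0) (Emb (PData.eT U τ) s 1) =
      emb (PData.eT U τ) (d.NX (s 0) (s 1)) := d.Big_eT hd τ _ _
  have h2 : Emb (PData.eT U τ) s 2 = emb (PData.eT U τ) (s 2) := rfl
  unfold ofFun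
  rw [h1, h2]
  by_cases h : d.NX (s 0) (s 1) = s 2
  · rw [if_pos h, if_pos (congrArg _ h)]
  · rw [if_neg h, if_neg (fun h' => h (emb_injective (eT_inj τ) h'))]

omit [Fintype T] [Fintype X] [Fintype U] in
lemma ofFun_eU {d : PData T X U} (hd : d.OK) (s : Tr (Vx U)) :
    ofFun d.Big (Emb (PData.eU T X) s) = ofFun d.NU s := by
  have h1 : d.Big (Emb (PData.eU T X) s 0) (Emb (PData.eU T X) s 1) =
      emb (PData.eU T X) (d.NU (s 0) (s 1)) := d.Big_eU hd _ _
  have h2 : Emb (PData.eU T X) s 2 = emb (PData.eU T X) (s 2) := rfl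
  unfold ofFun
  rw [h1, h2]
  by_cases h : d.NU (s 0) (s 1) = s 2
  · rw [if_pos h, if_pos (congrArg _ h)]
  · rw [if_neg h, if_neg (fun h' => h (emb_injective eU_inj h'))]

omit [Fintype T] [DecidableEq T] [Fintype X] [DecidableEq X] [Fintype U] [DecidableEq U] in
lemma exists_inr {Z : Type} {t : Tr (Vx Z)} (h : ¬ hubTr t) : ∃ j z, t j = Sum.inr z := by
  unfold hubTr at h
  push Not at h
  obtain ⟨j, hj⟩ := h
  rcases isHub_or (t j) with h1 | ⟨z, hz⟩
  · exact absurd h1 hj
  · exact ⟨j, z, hz⟩

omit [Fintype T] [DecidableEq T] [Fintype X] [DecidableEq X] [Fintype U] [DecidableEq U] in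
lemma mem_DBig_eT {DX : Set (Tr (Vx X))} {DU : Set (Tr (Vx U))} (hX : ∀ t ∈ DX, ¬ hubTr t)
    (hU : ∀ t ∈ DU, ¬ hubTr t) (τ : T) (s : Tr (Vx X)) :
    Emb (PData.eT U τ) s ∈ DBig T DX DU ↔ s ∈ DX := by
  constructor
  · rintro (⟨τ', s', hs', he⟩ | ⟨s', hs', he⟩)
    · obtain ⟨j, x, hx⟩ := exists_inr (hX s' hs')
      have h1 := congrFun he j
      have h2 : Emb (PData.eT U τ') s' j = Sum.inr (Sum.inl (τ', x)) := by
        show emb _ (s' j) = _
        rw [hx]; rfl
      have h3 : emb (PData.eT U τ) (s j) = Sum.inr (Sum.inl (τ', x)) := h1.trans h2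
      have h4 : τ = τ' := by
        rcases hsj : s j with b | y
        · rw [hsj] at h3
          exact absurd h3 (by simp [emb])
        · rw [hsj] at h3
          simp only [emb, PData.eT, Sum.map_inr, Sum.inr.injEq, Sum.inl.injEq,
            Prod.mk.injEq] at h3
          exact h3.1
      subst h4
      have h5 : s = s' := Emb_injective (eT_inj τ) he
      rw [h5]; exact hs'
    · exfalso
      obtain ⟨j, x, hx⟩ := exists_inr (hU s' hs')
      have h1 := congrFun he j
      have h2 : Emb (PData.eU T X) s' j = Sum.inr (Sum.inr x) := by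
        show emb _ (s' j) = _
        rw [hx]; rfl
      have h3 : emb (PData.eT U τ) (s j) = Sum.inr (Sum.inr x) := h1.trans h2
      rcases hsj : s j with b | y
      · rw [hsj] at h3
        exact absurd h3 (by simp [emb])
      · rw [hsj] at h3
        exact absurd h3 (by simp [emb, PData.eT])
  · intro hs
    exact Or.inl ⟨τ, s, hs, rfl⟩

omit [Fintype T] [DecidableEq T] [Fintype X] [DecidableEq X] [Fintype U] [DecidableEq U] in
lemma mem_DBig_eU {DX : Set (Tr (Vx X))} {DU : Set (Tr (Vx U))} (hX : ∀ t ∈ DX, ¬ hubTr t)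
    (s : Tr (Vx U)) :
    Emb (PData.eU T X) s ∈ DBig T DX DU ↔ s ∈ DU := by
  constructor
  · rintro (⟨τ', s', hs', he⟩ | ⟨s', hs', he⟩)
    · exfalso
      obtain ⟨j, x, hx⟩ := exists_inr (hX s' hs')
      have h1 := congrFun he j
      have h2 : Emb (PData.eT U τ') s' j = Sum.inr (Sum.inl (τ', x)) := by
        show emb _ (s' j) = _
        rw [hx]; rfl
      have h3 : emb (PData.eU T X) (s j) = Sum.inr (Sum.inl (τ', x)) := h1.trans h2
      rcases hsj : s j with b | y
      · rw [hsj] at h3
        exact absurd h3 (by simp [emb])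
      · rw [hsj] at h3
        exact absurd h3 (by simp [emb, PData.eU])
    · have h5 : s = s' := Emb_injective eU_inj he
      rw [h5]; exact hs'
  · intro hs
    exact Or.inr ⟨s, hs, rfl⟩

lemma three_cases : ∀ j k l m : Fin 3, j ≠ k → l ≠ j → l ≠ k → m ≠ l → m = j ∨ m = k := by
  decide

section comp
variable {d : PData T X U} {DX : Set (Tr (Vx X))} {DU : Set (Tr (Vx U))}

lemma big_Dsub (hX : FG X d.NX DX) (hU : FG U d.NU DU) (hd : d.OK) :
    ∀ t ∈ DBig T DX DU, ofFun d.Big t = 1 ∧ ¬ hubTr t := by
  rintro t (⟨τ, s, hs, rfl⟩ | ⟨s, hs, rfl⟩)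
  · have h1 := hX.Dsub s hs
    refine ⟨(ofFun_eT hd τ s).trans h1.1, fun h => h1.2 ((hubTr_Emb _ s).1 h)⟩
  · have h1 := hU.Dsub s hs
    refine ⟨(ofFun_eU hd s).trans h1.1, fun h => h1.2 ((hubTr_Emb _ s).1 h)⟩

lemma big_base (hX : FG X d.NX DX) (hU : FG U d.NU DU) (hd : d.OK) :
    Base (ofFun d.Big) (DBig T DX DU) :=
  base_of (fun _ _ => rfl) (fun r c c' h => d.Big_row hd r c c' h)
    (fun c r r' h => d.Big_col hd r r' c h) (big_Dsub hX hU hd)

lemma big_LG (hX : FG X d.NX DX) (hU : FG U d.NU DU) (hd : d.OK) (g : Option T) :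
    LG (grp T X U ⁻¹' {g}) (ofFun d.Big) (DBig T DX DU) := by
  have hB := big_base hX hU hd
  rcases g with _ | τ
  · rw [grp_none]
    exact LG.transport eU_inj hU.base hB hU.lg (fun t => ofFun_eU hd t)
      (fun t => mem_DBig_eU (fun t ht => (hX.Dsub t ht).2) t)
  · rw [grp_some]
    exact LG.transport (eT_inj τ) hX.base hB hX.lg (fun t => ofFun_eT hd τ t)
      (fun t => mem_DBig_eT (fun t ht => (hX.Dsub t ht).2) (fun t ht => (hU.Dsub t ht).2) τ t)

lemma big_Dgrp (hX : FG X d.NX DX) (hU : FG U d.NU DU) :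
    ∀ t ∈ DBig T DX DU, ∃ g, inTr (grp T X U ⁻¹' {g}) t := by
  rintro t (⟨τ, s, hs, rfl⟩ | ⟨s, hs, rfl⟩)
  · refine ⟨some τ, ?_⟩
    rw [grp_some]
    exact (inTr_range _ _).2 ⟨s, rfl⟩
  · refine ⟨none, ?_⟩
    rw [grp_none]
    exact (inTr_range _ _).2 ⟨s, rfl⟩

/-- the composite is a gadget. -/
theorem big_FG (hX : FG X d.NX DX) (hU : FG U d.NU DU) (hd : d.OK) :
    FG ((T × X) ⊕ U) d.Big (DBig T DX DU) where
  hub := fun _ _ => rfl
  row := fun r c c' h => d.Big_row hd r c c' h
  col := fun c r r' h => d.Big_col hd r r' c h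
  Dsub := big_Dsub hX hU hd
  lg := LG.comp (grp T X U) (big_base hX hU hd) (big_Dgrp hX hU) (big_LG hX hU hd)

/-- elements of a copy that can be switched in the copy can be switched. -/
lemma big_Sw_in (hX : FG X d.NX DX) (hU : FG U d.NU DU) (hd : d.OK) (τ : T) (t : Tr (Vx X))
    (ht : Sw (ofFun d.NX) DX t) :
    Sw (ofFun d.Big) (DBig T DX DU) (Emb (PData.eT U τ) t) := by
  classical
  obtain ⟨L, hL, hLt, hLs⟩ := ht
  have hB := big_base hX hU hd
  have hsub := (big_LG hX hU hd (some τ)).sub
  rw [grp_some] at hsub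
  let A : Tr (Vx ((T × X) ⊕ U)) → ℤ := fun t => ∑ t₀, if t = Emb (PData.eT U τ) t₀ then L t₀ else 0
  have hA1 : ∀ t₀, A (Emb (PData.eT U τ) t₀) = L t₀ := by
    intro t₀
    simp only [A]
    rw [Finset.sum_eq_single t₀]
    · rw [if_pos rfl]
    · intro s _ hs
      rw [if_neg (fun h => hs (Emb_injective (eT_inj τ) h).symm)]
    · intro h; exact absurd (Finset.mem_univ _) h
  have hA2 : ∀ t, A t ≠ 0 → inTr (Set.range (PData.eT U τ : X → _)) t := by
    intro t ht
    rw [inTr_range]
    by_contra hcon
    push Not at hcon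
    apply ht
    simp only [A]
    exact Finset.sum_eq_zero (fun t₀ _ => if_neg (fun h => hcon t₀ h.symm))
  have hA0 : ∀ t, 0 ≤ A t := by
    intro t
    simp only [A]
    refine Finset.sum_nonneg (fun t₀ _ => ?_)
    split_ifs
    · exact hL.1 t₀
    · exact le_refl _
  have hLS := switch_in (S := Set.range (PData.eT U τ : X → _)) hB hsub A hA0 hA2 (by
    intro i a ha
    obtain ⟨a₀, ha₀⟩ := inPair_range _ ha
    rw [bd_congr ha₀, bd_Emb (eT_inj τ) A hA2]
    have e1 : (fun t => A (Emb (PData.eT U τ) t)) = L := funext hA1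
    rw [e1]
    exact hL.2 i a₀)
  refine ⟨_, hLS, ?_, ?_⟩
  · show (ofFun d.Big (Emb (PData.eT U τ) t) - (if inTr _ (Emb (PData.eT U τ) t) then
      ofFun d.Big (Emb (PData.eT U τ) t) else 0)) + A (Emb (PData.eT U τ) t) = 0
    rw [if_pos ((inTr_range _ _).2 ⟨t, rfl⟩), hA1, hLt]
    ring
  · intro s hs hsD hst hsh
    show (ofFun d.Big s - (if inTr (Set.range (PData.eT U τ : X → _)) s then
      ofFun d.Big s else 0)) + A s = 1
    by_cases hin : inTr (Set.range (PData.eT U τ : X → _)) s
    · rw [if_pos hin]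
      obtain ⟨s₀, rfl⟩ := (inTr_range _ _).1 hin
      rw [hA1]
      have := hLs s₀ (by rw [← ofFun_eT hd τ]; exact hs) (fun h => hsD (Or.inl ⟨τ, s₀, h, rfl⟩))
        (fun h => hst (by rw [h])) (by
          rcases hsh with h | h
          · exact Or.inl (fun h' => h ((hubTr_Emb _ s₀).2 h'))
          · right
            apply Emb_injective (eT_inj (U := U) τ)
            rw [h]; rfl)
      rw [this]; ring
    · rw [if_neg hin, hs]
      have : A s = 0 := by
        by_contra hne
        exact hin (hA2 s hne)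
      rw [this]; ring

open Classical in
/-- The lower bound given by the composite. -/
theorem lcs_big (hX : FG X d.NX DX) (hU : FG U d.NU DU) (hd : d.OK) (b : ℕ)
    (hb : (Finset.univ.filter (fun t : Tr (Vx X) => ofFun d.NX t = 1 ∧ ¬ hubTr t ∧
      ¬ Sw (ofFun d.NX) DX t)).card ≤ b) :
    (Fintype.card (Vx ((T × X) ⊕ U))) ^ 2 ≤ lcs (Fintype.card (Vx ((T × X) ⊕ U))) +
      Fintype.card T * b + (Fintype.card (Vx U)) ^ 2 := by
  have hB := big_base hX hU hd
  have hFG := big_FG hX hU hd
  -- total number of elements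
  have htot : ∀ (V : Type) [Fintype V] [DecidableEq V] (f : V → V → V),
      (Finset.univ.filter (fun t : Tr V => ofFun f t = 1)).card = (Fintype.card V) ^ 2 := by
    intro V _ _ f
    rw [sq, ← Fintype.card_prod, ← Finset.card_univ]
    refine Finset.card_bij (fun t _ => (t 0, t 1)) (fun _ _ => Finset.mem_univ _) ?_ ?_
    · intro t ht s hs hts
      simp only [Finset.mem_filter, Finset.mem_univ, true_and, ofFun_eq_one] at ht hs
      simp only [Prod.mk.injEq] at hts
      funext j
      fin_cases j
      · exact hts.1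
      · exact hts.2
      · show t 2 = s 2
        rw [← ht, ← hs, hts.1, hts.2]
    · rintro ⟨r, c⟩ _
      refine ⟨![r, c, f r c], ?_, rfl⟩
      simp only [Finset.mem_filter, Finset.mem_univ, true_and, ofFun_eq_one]
      rfl
  have hsplit := Finset.card_filter_add_card_filter_not
    (s := Finset.univ.filter (fun t : Tr (Vx ((T × X) ⊕ U)) => ofFun d.Big t = 1))
    (p := fun t => Sw (ofFun d.Big) (DBig T DX DU) t)
  rw [htot, Finset.filter_filter, Finset.filter_filter] at hsplit
  have hsw := hFG.lcs_ge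
  -- non-switchable elements
  have hns : (Finset.univ.filter (fun t : Tr (Vx ((T × X) ⊕ U)) => ofFun d.Big t = 1 ∧
      ¬ Sw (ofFun d.Big) (DBig T DX DU) t)).card ≤ Fintype.card T * b +
        (Fintype.card (Vx U)) ^ 2 := by
    let BX := Finset.univ.filter (fun t : Tr (Vx X) => ofFun d.NX t = 1 ∧ ¬ hubTr t ∧
      ¬ Sw (ofFun d.NX) DX t)
    let BU := Finset.univ.filter (fun t : Tr (Vx U) => ofFun d.NU t = 1)
    have hcover : (Finset.univ.filter (fun t : Tr (Vx ((T × X) ⊕ U)) => ofFun d.Big t = 1 ∧
      ¬ Sw (ofFun d.Big) (DBig T DX DU) t)) ⊆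
        ((Finset.univ : Finset T) ×ˢ BX).image (fun p => Emb (PData.eT U p.1) p.2) ∪
          BU.image (Emb (PData.eU T X)) := by
      intro t ht
      simp only [Finset.mem_filter, Finset.mem_univ, true_and] at ht
      obtain ⟨htN, htS⟩ := ht
      rw [Finset.mem_union, Finset.mem_image, Finset.mem_image]
      -- `t` lies in a group
      have hgrp : ∃ g, inTr (grp T X U ⁻¹' {g}) t := by
        have hsub := fun g => (big_LG hX hU hd g).sub
        -- two coordinates in a common group suffice
        have htwo : ∀ (j k : Fin 3), j ≠ k → ∀ g, inS (grp T X U ⁻¹' {g}) (t j) →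
            inS (grp T X U ⁻¹' {g}) (t k) → inTr (grp T X U ⁻¹' {g}) t := by
          intro j k hjk g hj hk
          obtain ⟨l, hlj, hlk⟩ := third_exists j k
          have hp : inPair (grp T X U ⁻¹' {g}) l t := by
            intro m hm
            rcases three_cases j k l m hjk hlj hlk hm with rfl | rfl
            · exact hj
            · exact hk
          exact inTr_of hp (hsub g l t hp htN)
        by_cases hhub : ∃ j, isHub (t j)
        · obtain ⟨j, hj⟩ := hhub
          obtain ⟨k, hkj, -⟩ := third_exists j j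
          rcases isHub_or (t k) with h1 | ⟨z, hz⟩
          · exact ⟨none, htwo j k hkj.symm none (inS_of_hub _ hj) (inS_of_hub _ h1)⟩
          · refine ⟨grp T X U z, htwo j k hkj.symm _ (inS_of_hub _ hj) ?_⟩
            rw [hz, inS_inr]
            rfl
        · push Not at hhub
          have hz : ∀ j, ∃ z, t j = Sum.inr z := fun j =>
            (isHub_or (t j)).resolve_left (hhub j)
          choose z hz using hz
          by_contra hno
          apply htS
          have hdist : ∀ j j', j ≠ j' → grp T X U (z j) ≠ grp T X U (z j') := by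
            intro j j' hjj heq
            apply hno
            refine ⟨grp T X U (z j), htwo j j' hjj _ ?_ ?_⟩
            · rw [hz j, inS_inr]; rfl
            · rw [hz j', inS_inr]; exact heq.symm
          exact switch_off (grp T X U) hB (big_LG hX hU hd) t htN z hz hdist
      obtain ⟨g, hg⟩ := hgrp
      by_cases hh : hubTr t
      · right
        choose b hb using hh
        refine ⟨fun j => Sum.inl (b j), ?_, ?_⟩
        · simp only [BU, Finset.mem_filter, Finset.mem_univ, true_and]
          rw [← ofFun_eU hd]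
          rw [← htN]
          congr 1
          funext j
          exact (hb j).symm
        · funext j
          exact (hb j).symm
      · rcases g with _ | τ
        · rw [grp_none] at hg
          obtain ⟨t₀, rfl⟩ := (inTr_range _ _).1 hg
          right
          refine ⟨t₀, ?_, rfl⟩
          simp only [BU, Finset.mem_filter, Finset.mem_univ, true_and]
          rw [← ofFun_eU hd]
          exact htN
        · rw [grp_some] at hg
          obtain ⟨t₀, rfl⟩ := (inTr_range _ _).1 hg
          left
          refine ⟨(τ, t₀), ?_, rfl⟩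
          simp only [BX, Finset.mem_product, Finset.mem_filter, Finset.mem_univ, true_and]
          refine ⟨?_, fun h => hh ((hubTr_Emb _ t₀).2 h), fun h => htS ?_⟩
          · rw [← ofFun_eT hd τ]
            exact htN
          · exact big_Sw_in hX hU hd τ t₀ h
    refine (Finset.card_le_card hcover).trans ((Finset.card_union_le _ _).trans ?_)
    refine Nat.add_le_add (Finset.card_image_le.trans ?_) (Finset.card_image_le.trans ?_)
    · rw [Finset.card_product, Finset.card_univ]
      exact Nat.mul_le_mul_left _ hb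
    · rw [htot]
  omega

end comp

end Pool.Agent.Lib.MP_469949_co
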