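import Pool.Agent.Lib.MP_469949_co.Transport

/-!
The composite latin square: copies of a square with hubs, indexed by `T`, glued with one further
square on `U` and the hubs.
-/

namespace Pool.Agent.Lib.MP_469949_co

open Finset

/-- Data of the construction. -/
structure PData (T X U : Type) where
  NX : Vx X → Vx X → Vx X
  NU : Vx U → Vx U → Vx U
  F : T × X → T × X → T × X
  F' : T × X → T × X → T × X
  ι : U → T × X

namespace PData

variable {T X U : Type}

/-- The transposed data. -/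
def tr (d : PData T X U) : PData T X U where
  NX := fun r c => d.NX c r
  NU := fun r c => d.NU c r
  F := fun r c => d.F c r
  F' := fun r c => d.F' c r
  ι := d.ι

/-- Requirements on the data. -/
structure OK (d : PData T X U) : Prop where
  hubX : ∀ a b, d.NX (Sum.inl a) (Sum.inl b) = Sum.inl (xor a b)
  hubU : ∀ a b, d.NU (Sum.inl a) (Sum.inl b) = Sum.inl (xor a b)
  rX : ∀ r, Function.Injective (d.NX r)
  cX : ∀ c, Function.Injective (fun r => d.NX r c)
  rU : ∀ r, Function.Injective (d.NU r)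
  cU : ∀ c, Function.Injective (fun r => d.NU r c)
  rF : ∀ p, Function.Injective (d.F p)
  cF : ∀ q, Function.Injective (fun p => d.F p q)
  rF' : ∀ p, Function.Injective (d.F' p)
  cF' : ∀ q, Function.Injective (fun p => d.F' p q)
  orth : Function.Injective (fun x : (T × X) × (T × X) => (d.F x.1 x.2, d.F' x.1 x.2))
  inj : Function.Injective d.ι
  diag : ∀ p q, p.1 = q.1 → ∀ l, d.ι l ≠ d.F' p q
  fl : ∀ p q, (d.F p q).1 = p.1 ↔ p.1 = q.1
  fr : ∀ p q, (d.F p q).1 = q.1 ↔ p.1 = q.1

lemma OK.tr {d : PData T X U} (h : d.OK) : d.tr.OK where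
  hubX := fun a b => by
    show d.NX _ _ = _
    rw [h.hubX, Bool.xor_comm]
  hubU := fun a b => by
    show d.NU _ _ = _
    rw [h.hubU, Bool.xor_comm]
  rX := h.cX
  cX := h.rX
  rU := h.cU
  cU := h.rU
  rF := h.cF
  cF := h.rF
  rF' := h.cF'
  cF' := h.rF'
  orth := by
    intro x y hxy
    have := h.orth (a₁ := (x.2, x.1)) (a₂ := (y.2, y.1)) hxy
    simp only [Prod.mk.injEq] at this
    exact Prod.ext this.2 this.1
  inj := h.inj
  diag := fun p q hpq l => h.diag q p hpq.symm l
  fl := fun p q => by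
    have := h.fr q p
    show (d.F q p).1 = p.1 ↔ _
    rw [this]; exact eq_comm
  fr := fun p q => by
    have := h.fl q p
    show (d.F q p).1 = q.1 ↔ _
    rw [this]; exact eq_comm

/-- embedding of a copy. -/
def eT (U : Type) (t : T) : X → (T × X) ⊕ U := fun x => Sum.inl (t, x)

/-- embedding of `U`. -/
def eU (T X : Type) : U → (T × X) ⊕ U := Sum.inr

open Classical in
/-- The composite latin square. -/
noncomputable def Big (d : PData T X U) :
    Vx ((T × X) ⊕ U) → Vx ((T × X) ⊕ U) → Vx ((T × X) ⊕ U)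
  | Sum.inl a, Sum.inl b => Sum.inl (xor a b)
  | Sum.inl a, Sum.inr (Sum.inl q) => emb (eT U q.1) (d.NX (Sum.inl a) (Sum.inr q.2))
  | Sum.inr (Sum.inl p), Sum.inl b => emb (eT U p.1) (d.NX (Sum.inr p.2) (Sum.inl b))
  | Sum.inl a, Sum.inr (Sum.inr u) => emb (eU T X) (d.NU (Sum.inl a) (Sum.inr u))
  | Sum.inr (Sum.inr u), Sum.inl b => emb (eU T X) (d.NU (Sum.inr u) (Sum.inl b))
  | Sum.inr (Sum.inr u), Sum.inr (Sum.inr v) => emb (eU T X) (d.NU (Sum.inr u) (Sum.inr v))
  | Sum.inr (Sum.inl p), Sum.inr (Sum.inl q) =>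
      if p.1 = q.1 then emb (eT U p.1) (d.NX (Sum.inr p.2) (Sum.inr q.2))
      else if h : ∃ l, d.ι l = d.F' p q then Sum.inr (Sum.inr h.choose)
      else Sum.inr (Sum.inl (d.F p q))
  | Sum.inr (Sum.inl p), Sum.inr (Sum.inr l) =>
      if h : ∃ q, d.F' p q = d.ι l then Sum.inr (Sum.inl (d.F p h.choose)) else Sum.inl true
  | Sum.inr (Sum.inr l), Sum.inr (Sum.inl q) =>
      if h : ∃ p, d.F' p q = d.ι l then Sum.inr (Sum.inl (d.F h.choose q)) else Sum.inl true

lemma Big_tr (d : PData T X U) (r c : Vx ((T × X) ⊕ U)) : d.tr.Big c r = d.Big r c := by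
  classical
  rcases r with a | p | l <;> rcases c with b | q | l'
  · show (Sum.inl (xor b a) : Vx ((T × X) ⊕ U)) = Sum.inl (xor a b)
    rw [Bool.xor_comm]
  · rfl
  · rfl
  · rfl
  · by_cases h : p.1 = q.1
    · have e1 : d.Big (Sum.inr (Sum.inl p)) (Sum.inr (Sum.inl q)) =
          emb (eT U p.1) (d.NX (Sum.inr p.2) (Sum.inr q.2)) := if_pos h
      have e2 : d.tr.Big (Sum.inr (Sum.inl q)) (Sum.inr (Sum.inl p)) =
          emb (eT U q.1) (d.NX (Sum.inr p.2) (Sum.inr q.2)) := if_pos h.symm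
      rw [e1, e2, h]
    · have e1 : d.Big (Sum.inr (Sum.inl p)) (Sum.inr (Sum.inl q)) =
          if h : ∃ l, d.ι l = d.F' p q then Sum.inr (Sum.inr h.choose)
            else Sum.inr (Sum.inl (d.F p q)) := if_neg h
      have e2 : d.tr.Big (Sum.inr (Sum.inl q)) (Sum.inr (Sum.inl p)) =
          if h : ∃ l, d.ι l = d.F' p q then Sum.inr (Sum.inr h.choose)
            else Sum.inr (Sum.inl (d.F p q)) := if_neg (fun h' => h h'.symm)
      rw [e1, e2]
  · rfl
  · rfl
  · rfl
  · rfl

/-- value on a copy. -/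
lemma Big_eT (d : PData T X U) (h : d.OK) (t : T) (v w : Vx X) :
    d.Big (emb (eT U t) v) (emb (eT U t) w) = emb (eT U t) (d.NX v w) := by
  classical
  rcases v with a | x <;> rcases w with b | y
  · rw [h.hubX]; rfl
  · rfl
  · rfl
  · exact if_pos rfl

lemma Big_eU (d : PData T X U) (h : d.OK) (v w : Vx U) :
    d.Big (emb (eU T X) v) (emb (eU T X) w) = emb (eU T X) (d.NU v w) := by
  rcases v with a | x <;> rcases w with b | y
  · rw [h.hubU]; rfl
  · rfl
  · rfl
  · rfl

variable [Finite T] [Finite X] [Finite U]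

/-- every symbol occurs in every row. -/
lemma Big_surj (d : PData T X U) (h : d.OK) (r s : Vx ((T × X) ⊕ U)) : ∃ c, d.Big r c = s := by
  classical
  have sX : ∀ r, Function.Surjective (d.NX r) := fun r =>
    Finite.injective_iff_surjective.1 (h.rX r)
  have sU : ∀ r, Function.Surjective (d.NU r) := fun r =>
    Finite.injective_iff_surjective.1 (h.rU r)
  have sF : ∀ p, Function.Surjective (d.F p) := fun r =>
    Finite.injective_iff_surjective.1 (h.rF r)
  have sF' : ∀ p, Function.Surjective (d.F' p) := fun r =>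
    Finite.injective_iff_surjective.1 (h.rF' r)
  have sO : Function.Surjective (fun x : (T × X) × (T × X) => (d.F x.1 x.2, d.F' x.1 x.2)) :=
    Finite.injective_iff_surjective.1 h.orth
  rcases r with a | p | l
  · -- hub row
    rcases s with b | q | u
    · refine ⟨Sum.inl (xor a b), ?_⟩
      show (Sum.inl (xor a (xor a b)) : Vx ((T × X) ⊕ U)) = Sum.inl b
      cases a <;> cases b <;> rfl
    · obtain ⟨c, hc⟩ := sX (Sum.inl a) (Sum.inr q.2)
      refine ⟨emb (eT U q.1) c, ?_⟩
      have : d.Big (emb (eT U q.1) (Sum.inl a)) (emb (eT U q.1) c) = _ := d.Big_eT h q.1 _ _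
      rw [hc] at this
      exact this
    · obtain ⟨c, hc⟩ := sU (Sum.inl a) (Sum.inr u)
      refine ⟨emb (eU T X) c, ?_⟩
      have : d.Big (emb (eU T X) (Sum.inl a)) (emb (eU T X) c) = _ := d.Big_eU h _ _
      rw [hc] at this
      exact this
  · -- row of a copy
    have hcopy : ∀ v : Vx X, ∃ c, d.Big (Sum.inr (Sum.inl p)) c = emb (eT U p.1) v := by
      intro v
      obtain ⟨c, hc⟩ := sX (Sum.inr p.2) v
      refine ⟨emb (eT U p.1) c, ?_⟩
      have : d.Big (emb (eT U p.1) (Sum.inr p.2)) (emb (eT U p.1) c) = _ := d.Big_eT h p.1 _ _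
      rw [hc] at this
      exact this
    rcases s with b | q | u
    · exact hcopy (Sum.inl b)
    · by_cases hq : q.1 = p.1
      · have := hcopy (Sum.inr q.2)
        have e : (Sum.inr (Sum.inl q) : Vx ((T × X) ⊕ U)) = emb (eT U p.1) (Sum.inr q.2) := by
          rw [← hq]; rfl
        rw [e]; exact this
      · obtain ⟨c, hc⟩ := sF p q
        have hpc : p.1 ≠ c.1 := by
          intro h'
          rw [← h.fl p c, hc] at h'
          exact hq h'
        by_cases hex : ∃ l, d.ι l = d.F' p c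
        · obtain ⟨l, hl⟩ := hex
          refine ⟨Sum.inr (Sum.inr l), ?_⟩
          have hex2 : ∃ q, d.F' p q = d.ι l := ⟨c, hl.symm⟩
          have e1 : d.Big (Sum.inr (Sum.inl p)) (Sum.inr (Sum.inr l)) =
              Sum.inr (Sum.inl (d.F p hex2.choose)) := dif_pos hex2
          have e2 : hex2.choose = c := h.rF' p (hex2.choose_spec.trans hl)
          rw [e1, e2, hc]
        · refine ⟨Sum.inr (Sum.inl c), ?_⟩
          have e1 : d.Big (Sum.inr (Sum.inl p)) (Sum.inr (Sum.inl c)) =
            Sum.inr (Sum.inl (d.F p c)) := (if_neg hpc).trans (dif_neg hex)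
          rw [e1, hc]
    · obtain ⟨c, hc⟩ := sF' p (d.ι u)
      have hpc : p.1 ≠ c.1 := fun h' => h.diag p c h' u hc.symm
      have hex : ∃ l, d.ι l = d.F' p c := ⟨u, hc.symm⟩
      refine ⟨Sum.inr (Sum.inl c), ?_⟩
      have e1 : d.Big (Sum.inr (Sum.inl p)) (Sum.inr (Sum.inl c)) =
            Sum.inr (Sum.inr hex.choose) := (if_neg hpc).trans (dif_pos hex)
      have e2 : hex.choose = u := h.inj (hex.choose_spec.trans hc)
      rw [e1, e2]
  · -- row of `U`
    have hcopy : ∀ v : Vx U, ∃ c, d.Big (Sum.inr (Sum.inr l)) c = emb (eU T X) v := by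
      intro v
      obtain ⟨c, hc⟩ := sU (Sum.inr l) v
      refine ⟨emb (eU T X) c, ?_⟩
      have : d.Big (emb (eU T X) (Sum.inr l)) (emb (eU T X) c) = _ := d.Big_eU h _ _
      rw [hc] at this
      exact this
    rcases s with b | q | u
    · exact hcopy (Sum.inl b)
    · obtain ⟨⟨p, c⟩, hpc⟩ := sO (q, d.ι l)
      simp only [Prod.mk.injEq] at hpc
      refine ⟨Sum.inr (Sum.inl c), ?_⟩
      have hex : ∃ p, d.F' p c = d.ι l := ⟨p, hpc.2⟩
      have e1 : d.Big (Sum.inr (Sum.inr l)) (Sum.inr (Sum.inl c)) =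
          Sum.inr (Sum.inl (d.F hex.choose c)) := dif_pos hex
      have e2 : hex.choose = p := h.cF' c (hex.choose_spec.trans hpc.2.symm)
      rw [e1, e2, hpc.1]
    · exact hcopy (Sum.inr u)

lemma Big_row (d : PData T X U) (h : d.OK) (r c c' : Vx ((T × X) ⊕ U))
    (hc : d.Big r c = d.Big r c') : c = c' :=
  (Finite.injective_iff_surjective.2 (d.Big_surj h r)) hc

lemma Big_col (d : PData T X U) (h : d.OK) (r r' c : Vx ((T × X) ⊕ U))
    (hr : d.Big r c = d.Big r' c) : r = r' := by
  rw [← Big_tr d, ← Big_tr d] at hr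
  exact d.tr.Big_row h.tr c r r' hr

end PData

end Pool.Agent.Lib.MP_469949_co
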