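import Pool.Agent.Lib.MP_469949_co.Cert

/-!
Soundness of the certificate checker.
-/

namespace Pool.Agent.Lib.MP_469949_co

open Finset

lemma nonHub_spec {k t : ℕ} (hv : valid (k + 2) t = true) (h : nonHub k t = true) :
    ¬ hubTr (dect k t) := by
  obtain ⟨e1, e2, e3⟩ := dect_code hv
  intro hh
  have a0 := (isHub_iff_code _).1 (hh 0)
  have a1 := (isHub_iff_code _).1 (hh 1)
  have a2 := (isHub_iff_code _).1 (hh 2)
  rw [e1] at a0
  rw [e2] at a1
  rw [e3] at a2
  unfold nonHub at h
  simp [a0, a1, a2] at h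

section sound
variable (C : Cert)

lemma Sl_le_one {k : ℕ} (hk : k + 2 ≤ 32) {l : List ℕ} {m : ℕ} (h : accP l = some m)
    (hv : ∀ t ∈ l, valid (k + 2) t = true) (t : Tr (Vx (Fin k))) : Sl k l t ≤ 1 := by
  have h1 := le_bd (Sl_nonneg k l) (Ag.refl 0 t)
  rw [bd_Sl hk h hv] at h1
  split_ifs at h1 <;> linarith

/-- soundness of the transfers. -/
lemma okTr_spec (hT : C.okTab = true) (hD : C.okD = true) (h : C.okTr = true) (i₀ : Fin 3)
    (x : Fin C.k) : ∃ A : Tr (Vx (Fin C.k)) → ℤ, (∀ t, 0 ≤ A t) ∧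
    (∀ t, A t ≠ 0 → inTr Set.univ t ∧ ¬ hubTr t) ∧
    (∀ t, inTr Set.univ t → ¬ hubTr t → ofFun C.fn t = 1 → t ∉ C.Ds → 1 ≤ A t) ∧
    ∀ i a, bd A i a = bd (res Set.univ (ofFun C.fn)) i a - defc i₀ (Sum.inr x) i a +
      defc i₀ h1 i a := by
  obtain ⟨hk, -⟩ := okTab_spec C hT
  have hB := base_fn C hT hD
  unfold Cert.okTr at h
  simp only [List.all_eq_true, List.mem_range] at h
  have h' := h i₀.val i₀.2 x.val x.2
  set q := C.tr.getD (i₀.val * C.k + x.val) ([], []) with hq
  unfold Cert.okTr1 at h'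
  simp only [Bool.and_eq_true, List.all_eq_true, List.contains_iff_mem] at h'
  obtain ⟨hrem, hadd, hmask⟩ := h'
  rcases hr : accP q.1 with _ | mr
  · rw [hr] at hmask; simp at hmask
  rcases ha : accP q.2 with _ | ma
  · rw [hr, ha] at hmask; simp at hmask
  rw [hr, ha] at hmask
  simp only [Bool.and_eq_true, beq_iff_eq] at hmask
  obtain ⟨m1, m2, m3⟩ := hmask
  have hvr : ∀ t ∈ q.1, valid (C.k + 2) t = true := fun t ht => (okD_spec C hD t (hrem t ht)).1
  have hva : ∀ t ∈ q.2, valid (C.k + 2) t = true := fun t ht => (hadd t ht).1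
  have hrD : ∀ t, Sl C.k q.1 t ≠ 0 → t ∈ C.Ds := by
    intro t ht
    obtain ⟨c, hc, rfl⟩ := mem_of_Sl ht
    exact ⟨c, hrem c hc, rfl⟩
  have hres1 : ∀ t, ¬ hubTr t → res Set.univ (ofFun C.fn) t = ofFun C.fn t := by
    intro t ht
    unfold res
    rw [if_pos ⟨fun j z _ => Set.mem_univ z, ht⟩]
  have hres0 : ∀ t, hubTr t → res Set.univ (ofFun C.fn) t = 0 := by
    intro t ht
    unfold res
    rw [if_neg (fun h => h.2 ht)]
  refine ⟨fun t => (res Set.univ (ofFun C.fn) t - Sl C.k q.1 t) + Sl C.k q.2 t, ?_, ?_, ?_, ?_⟩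
  · intro t
    show 0 ≤ (res Set.univ (ofFun C.fn) t - Sl C.k q.1 t) + Sl C.k q.2 t
    have e1 := Sl_nonneg C.k q.2 t
    have e2 := res_nonneg hB Set.univ t
    by_cases hz : Sl C.k q.1 t = 0
    · rw [hz]; linarith
    · have e3 := hB.Dsub t (hrD t hz)
      have e4 := Sl_le_one hk hr hvr t
      rw [hres1 t e3.2, e3.1]
      linarith
  · intro t ht
    refine ⟨fun j z _ => Set.mem_univ z, fun hh => ht ?_⟩
    show (res Set.univ (ofFun C.fn) t - Sl C.k q.1 t) + Sl C.k q.2 t = 0
    have e1 : Sl C.k q.1 t = 0 := by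
      by_contra hne
      exact (hB.Dsub t (hrD t hne)).2 hh
    have e2 : Sl C.k q.2 t = 0 := by
      by_contra hne
      obtain ⟨c, hc, rfl⟩ := mem_of_Sl hne
      exact nonHub_spec (hva c hc) (hadd c hc).2 hh
    rw [hres0 t hh, e1, e2]; ring
  · intro t _ htn htN htD
    show 1 ≤ (res Set.univ (ofFun C.fn) t - Sl C.k q.1 t) + Sl C.k q.2 t
    have e1 := Sl_nonneg C.k q.2 t
    have e2 : Sl C.k q.1 t = 0 := by
      by_contra hne
      exact htD (hrD t hne)
    rw [hres1 t htn, htN, e2]
    linarith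
  · intro i a
    rw [bd_add, bd_sub, bd_Sl hk hr hvr, bd_Sl hk ha hva, defc_dmask hk, defc_dmask hk]
    have c1 : code C.k (Sum.inr x) = x.val := rfl
    have c2 : code C.k (h1 : Vx (Fin C.k)) = C.k + 1 := rfl
    rw [c1, c2]
    have b1 := congrArg (fun y => y.testBit (pc i a)) m1
    have b2 := congrArg (fun y => y.testBit (pc i a)) m2
    have b3 := congrArg (fun y => y.testBit (pc i a)) m3
    simp only [Nat.testBit_and, Nat.testBit_xor, Nat.zero_testBit] at b1 b2 b3
    rw [b3]
    revert b1 b2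
    cases mr.testBit (pc i a) <;> cases (dmask C.k i₀.val x.val).testBit (pc i a) <;>
      cases (dmask C.k i₀.val (C.k + 1)).testBit (pc i a) <;> simp

/-- decoding a pair code. -/
lemma pc_decode {k : ℕ} (hk : k + 2 ≤ 32) (i : Fin 3) (t : Tr (Vx (Fin k))) :
    pc i t / 1024 = i.val ∧ (pc i t / 32) % 32 = code k (t (i + 1)) ∧
      pc i t % 32 = code k (t (i + 2)) := by
  have h1 := code_lt k (t (i + 1))
  have h2 := code_lt k (t (i + 2))
  have hpc : pc i t = (i.val * 32 + code k (t (i + 1))) * 32 + code k (t (i + 2)) := rfl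
  have := i.2
  rw [hpc]
  omega

lemma q1_pc {k : ℕ} (hk : k + 2 ≤ 32) (i : Fin 3) (t : Tr (Vx (Fin k))) :
    q1 (pc i t) (code k (t i)) = pc (i + 1) t := by
  obtain ⟨e1, e2, e3⟩ := pc_decode hk i t
  unfold q1
  rw [e1, e3]
  unfold pc
  have f1 : (i.val + 1) % 3 = (i + 1 : Fin 3).val := by fin_cases i <;> rfl
  have f2 : i + 1 + 1 = i + 2 := by fin_cases i <;> rfl
  have f3 : i + 1 + 2 = i := by fin_cases i <;> rfl
  rw [f1, f2, f3]

lemma q2_pc {k : ℕ} (hk : k + 2 ≤ 32) (i : Fin 3) (t : Tr (Vx (Fin k))) :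
    q2 (pc i t) (code k (t i)) = pc (i + 2) t := by
  obtain ⟨e1, e2, e3⟩ := pc_decode hk i t
  unfold q2
  rw [e1, e2]
  unfold pc
  have f1 : (i.val + 2) % 3 = (i + 2 : Fin 3).val := by fin_cases i <;> rfl
  have f2 : i + 2 + 1 = i := by fin_cases i <;> rfl
  have f3 : i + 2 + 2 = i + 1 := by fin_cases i <;> rfl
  rw [f1, f2, f3]

lemma pc_eq_iff {k : ℕ} (hk : k + 2 ≤ 32) (i j : Fin 3) (a b : Tr (Vx (Fin k))) :
    pc i a = pc j b ↔ i = j ∧ Ag i a b := by
  constructor
  · intro h
    have h1 := (pc_decode hk i a).1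
    have h2 := (pc_decode hk j b).1
    have hij : i = j := Fin.ext (by rw [← h1, ← h2, h])
    subst hij
    exact ⟨rfl, (ag_iff_pc hk i a b).2 h⟩
  · rintro ⟨rfl, h⟩
    exact (ag_iff_pc hk i a b).1 h

/-- pairs of elements of `D`. -/
lemma PD_spec (hT : C.okTab = true) (hD : C.okD = true) {PD : ℕ} (hPD : accP C.D = some PD)
    (i : Fin 3) (a : Tr (Vx (Fin C.k))) :
    PD.testBit (pc i a) = true ↔ ∃ t ∈ C.Ds, Ag i a t := by
  obtain ⟨hk, -⟩ := okTab_spec C hT
  rw [accP_mem hPD]
  constructor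
  · rintro ⟨c, hc, hb⟩
    exact ⟨dect C.k c, ⟨c, hc, rfl⟩, (bits_iff hk (okD_spec C hD c hc).1 i a).1 hb⟩
  · rintro ⟨t, ⟨c, hc, rfl⟩, hag⟩
    exact ⟨c, hc, (bits_iff hk (okD_spec C hD c hc).1 i a).2 hag⟩

lemma PD_pair (hT : C.okTab = true) (hD : C.okD = true) {PD : ℕ} (hPD : accP C.D = some PD)
    {p : ℕ} (hp : PD.testBit p = true) : ∃ (i : Fin 3) (a : Tr (Vx (Fin C.k))), p = pc i a := by
  obtain ⟨hk, -⟩ := okTab_spec C hT
  obtain ⟨c, hc, hb⟩ := (accP_mem hPD p).1 hp
  have hv := (okD_spec C hD c hc).1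
  rw [testBit_bits] at hb
  rcases hb with hb | hb | hb
  · exact ⟨0, dect C.k c, by rw [pc_dect hv]; exact hb.symm⟩
  · exact ⟨1, dect C.k c, by rw [pc_dect hv]; exact hb.symm⟩
  · exact ⟨2, dect C.k c, by rw [pc_dect hv]; exact hb.symm⟩

lemma isD_spec (hT : C.okTab = true) (hD : C.okD = true) {PD : ℕ} (hPD : accP C.D = some PD)
    (i : Fin 3) (t : Tr (Vx (Fin C.k)))
    (h : isD C.B (C.k + 2) PD (pc i t) (code C.k (t i)) = true) : t ∈ C.Ds := by
  obtain ⟨hk, -⟩ := okTab_spec C hT
  have key : PD.testBit (pcode 2 (code C.k (t 0)) (code C.k (t 1))) = true ∧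
      tab C.B (C.k + 2) (code C.k (t 0)) (code C.k (t 1)) = code C.k (t 2) := by
    obtain ⟨e1, e2, e3⟩ := pc_decode hk i t
    unfold isD at h
    rw [e1, e2, e3] at h
    fin_cases i
    · simpa using h
    · simpa using h
    · simpa using h
  obtain ⟨k1, k2⟩ := key
  have h1 : PD.testBit (pc 2 t) = true := k1
  obtain ⟨s, hs, hag⟩ := (PD_spec C hT hD hPD 2 t).1 h1
  have hB := base_fn C hT hD
  have h2 : ofFun C.fn t = 1 := (ofFun_fn C hT t).2 k2
  have h3 := (hB.Dsub s hs).1
  have h4 : t = s := hB.ls.eq hag (by rw [h2]; norm_num) (by rw [h3]; norm_num)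
  rw [h4]; exact hs

lemma fin3_cases : ∀ i j : Fin 3, i = j ∨ i + 1 = j ∨ i + 2 = j := by decide

/-- soundness of the search. -/
lemma dfs_sound (hT : C.okTab = true) (hD : C.okD = true) {PD : ℕ} (hPD : accP C.D = some PD) :
    ∀ (f A : ℕ) (ok : Bool) (st r : List ℕ), dfs C.B (C.k + 2) PD f A ok st = some r →
      ∀ W : Finset (Tr (Vx (Fin C.k))), (∀ t ∈ W, ∀ i, A.testBit (pc i t) = true) →
        (∀ t ∈ W, ∀ t' ∈ W, ∀ i, Ag i t t' → t = t') →
        (∀ i a, (A &&& PD).testBit (pc i a) = true → ∃ t ∈ W, Ag i a t) →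
        (∀ t ∈ W, ∃ i, PD.testBit (pc i t) = true) → ok = true ∧ ∀ t ∈ W, t ∈ C.Ds := by
  obtain ⟨hk, -⟩ := okTab_spec C hT
  intro f
  induction f with
  | zero => intro A ok st r h; simp [dfs] at h
  | succ f ih =>
    intro A ok st r h W hW1 hW2 hW3 hW4
    unfold dfs at h
    by_cases hz : A &&& PD = 0
    · rw [if_pos hz] at h
      have hWe : ∀ t ∈ W, False := by
        intro t ht
        obtain ⟨i, hi⟩ := hW4 t ht
        have h1 := hW1 t ht i
        have h2 := congrArg (fun y => y.testBit (pc i t)) hz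
        simp only [Nat.testBit_and, h1, hi, Nat.zero_testBit] at h2
        exact absurd h2 (by decide)
      refine ⟨?_, fun t ht => (hWe t ht).elim⟩
      cases ok
      · simp at h
      · rfl
    · rw [if_neg hz] at h
      rcases st with _ | ⟨p, st'⟩
      · simp at h
      · simp only at h
        by_cases hp : (A &&& PD).testBit p = true
        · rw [if_pos hp] at h
          have hpPD : PD.testBit p = true := by
            rw [Nat.testBit_and, Bool.and_eq_true] at hp
            exact hp.2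
          obtain ⟨i, a, hpa⟩ := PD_pair C hT hD hPD hpPD
          obtain ⟨t, htW, hat⟩ := hW3 i a (by rw [← hpa]; exact hp)
          have hpt : p = pc i t := by rw [hpa]; exact (ag_iff_pc hk i a t).1 hat
          obtain ⟨-, hz2⟩ := foldl_some (g := fun z s =>
              if A.testBit (q1 p z) && A.testBit (q2 p z) then
                dfs C.B (C.k + 2) PD f (A ^^^ ((1 <<< p) ||| ((1 <<< q1 p z) ||| (1 <<< q2 p z))))
                  (ok && isD C.B (C.k + 2) PD p z) s
              else some s) h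
          obtain ⟨s, r', hs⟩ := hz2 (code C.k (t i)) (List.mem_range.2 (code_lt C.k (t i)))
          have e1 : q1 p (code C.k (t i)) = pc (i + 1) t := by rw [hpt]; exact q1_pc hk i t
          have e2 : q2 p (code C.k (t i)) = pc (i + 2) t := by rw [hpt]; exact q2_pc hk i t
          simp only [e1, e2, hW1 t htW (i + 1), hW1 t htW (i + 2), Bool.and_self, if_true] at hs
          set X : ℕ := (1 <<< p) ||| ((1 <<< pc (i + 1) t) ||| (1 <<< pc (i + 2) t)) with hX
          have hXbit : ∀ (j : Fin 3) (b : Tr (Vx (Fin C.k))), X.testBit (pc j b) = true ↔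
              Ag j b t := by
            intro j b
            rw [hX, Nat.testBit_or, Nat.testBit_or, testBit_one_shift, testBit_one_shift,
              testBit_one_shift, hpt]
            simp only [Bool.or_eq_true, decide_eq_true_eq]
            rw [pc_eq_iff hk, pc_eq_iff hk, pc_eq_iff hk]
            constructor
            · rintro (⟨rfl, h'⟩ | ⟨rfl, h'⟩ | ⟨rfl, h'⟩)
              · exact h'.symm
              · exact h'.symm
              · exact h'.symm
            · intro h'
              have hj : i = j ∨ i + 1 = j ∨ i + 2 = j := fin3_cases i j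
              rcases hj with rfl | rfl | rfl
              · exact Or.inl ⟨rfl, h'.symm⟩
              · exact Or.inr (Or.inl ⟨rfl, h'.symm⟩)
              · exact Or.inr (Or.inr ⟨rfl, h'.symm⟩)
          have H1 : ∀ t' ∈ W.erase t, ∀ j, (A ^^^ X).testBit (pc j t') = true := by
            intro t' ht' j
            rw [Finset.mem_erase] at ht'
            rw [Nat.testBit_xor, hW1 t' ht'.2 j]
            have : X.testBit (pc j t') = false := by
              by_contra hne
              rw [Bool.not_eq_false, hXbit] at hne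
              exact ht'.1 (hW2 t' ht'.2 t htW j hne)
            rw [this]; rfl
          have H2 : ∀ t' ∈ W.erase t, ∀ t'' ∈ W.erase t, ∀ j, Ag j t' t'' → t' = t'' := by
            intro t' ht' t'' ht'' j hj
            rw [Finset.mem_erase] at ht' ht''
            exact hW2 t' ht'.2 t'' ht''.2 j hj
          have H3 : ∀ j b, ((A ^^^ X) &&& PD).testBit (pc j b) = true →
              ∃ t' ∈ W.erase t, Ag j b t' := by
            intro j b hb
            rw [Nat.testBit_and, Nat.testBit_xor, Bool.and_eq_true] at hb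
            obtain ⟨b1, b2⟩ := hb
            by_cases hXb : X.testBit (pc j b) = true
            · exfalso
              have h5 : pc j b = pc j t := (ag_iff_pc hk j b t).1 ((hXbit j b).1 hXb)
              have h6 := hW1 t htW j
              rw [← h5] at h6
              rw [h6, hXb] at b1
              exact absurd b1 (by decide)
            · have h5 : A.testBit (pc j b) = true := by
                rw [Bool.not_eq_true] at hXb
                rw [hXb] at b1
                simpa using b1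
              obtain ⟨t'', ht'', hag''⟩ := hW3 j b (by
                rw [Nat.testBit_and, h5, b2]; rfl)
              refine ⟨t'', Finset.mem_erase.2 ⟨?_, ht''⟩, hag''⟩
              rintro rfl
              exact hXb ((hXbit j b).2 hag'')
          have H4 : ∀ t' ∈ W.erase t, ∃ i, PD.testBit (pc i t') = true := by
            intro t' ht'
            exact hW4 t' (Finset.mem_of_mem_erase ht')
          obtain ⟨g1, g2⟩ := ih _ _ _ _ hs (W.erase t) H1 H2 H3 H4
          rw [Bool.and_eq_true] at g1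
          refine ⟨g1.1, fun t' ht' => ?_⟩
          by_cases htt : t' = t
          · rw [htt]
            refine isD_spec C hT hD hPD i t ?_
            rw [← hpt]; exact g1.2
          · exact g2 t' (Finset.mem_erase.2 ⟨htt, ht'⟩)
        · rw [if_neg hp] at h
          simp at h

/-- hub pairs different from `(0, 0)`. -/
lemma hmask_spec {k : ℕ} (i : Fin 3) (a : Tr (Vx (Fin k))) (hp : hubPair i a)
    (hx : ¬ ∀ j, j ≠ i → a j = h0) : (hmask k).testBit (pc i a) = true := by
  obtain ⟨b, hb⟩ := hp (i + 1) (add_one_ne i)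
  obtain ⟨c, hc⟩ := hp (i + 2) (add_two_ne i)
  have hbc : ¬ (b = false ∧ c = false) := by
    rintro ⟨rfl, rfl⟩
    apply hx
    intro j hj
    rcases ne_cases i j hj with rfl | rfl
    · exact hb
    · exact hc
  have hpc : pc i a = pcode i.val (code k (Sum.inl b)) (code k (Sum.inl c)) := by
    unfold pc; rw [hb, hc]
  have hval : ∀ j : ℕ, j < 3 → ∀ p, (p = pcode j k (k + 1) ∨ p = pcode j (k + 1) k ∨
      p = pcode j (k + 1) (k + 1)) → (hmask k).testBit p = true := by
    intro j hj p hp
    have hm : hmask k = ((0 ||| ((1 <<< pcode 0 k (k + 1)) |||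
      ((1 <<< pcode 0 (k + 1) k) ||| (1 <<< pcode 0 (k + 1) (k + 1))))) |||
      ((1 <<< pcode 1 k (k + 1)) |||
      ((1 <<< pcode 1 (k + 1) k) ||| (1 <<< pcode 1 (k + 1) (k + 1))))) |||
      ((1 <<< pcode 2 k (k + 1)) |||
      ((1 <<< pcode 2 (k + 1) k) ||| (1 <<< pcode 2 (k + 1) (k + 1)))) := rfl
    rw [hm]
    simp only [Nat.testBit_or, testBit_one_shift, Bool.or_eq_true, decide_eq_true_eq]
    interval_cases j <;> rcases hp with rfl | rfl | rfl <;> simp
  apply hval i.val i.2
  rw [hpc]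
  cases b <;> cases c <;> simp only [code]
  · exact absurd ⟨rfl, rfl⟩ hbc
  · simp
  · simp
  · simp

/-- a correct certificate gives a gadget. -/
theorem Cert.sound (h : C.check = true) : FG (Fin C.k) C.fn C.Ds := by
  unfold Cert.check at h
  simp only [Bool.and_eq_true] at h
  obtain ⟨hT, hD, hTr, hU⟩ := h
  obtain ⟨hk, -⟩ := okTab_spec C hT
  have hB := base_fn C hT hD
  refine ⟨fn_hub C hT, fn_row C hT, fn_col C hT, D_sub C hT hD, ?_⟩
  refine ⟨fun i t _ _ z _ => Set.mem_univ z, ?_, ?_⟩
  · intro M hM0 hMs hM1 hMle hMx hMD t htin htn htN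
    classical
    by_cases htD : t ∉ C.Ds
    · exact hMD t htin htn htN htD
    push Not at htD
    unfold Cert.okU at hU
    rcases hPD : accP C.D with _ | PD
    · rw [hPD] at hU; simp at hU
    rw [hPD] at hU
    simp only [Option.isSome_iff_exists] at hU
    obtain ⟨r, hr⟩ := hU
    -- two elements of `M` sharing a pair
    have hMeq : ∀ s s', M s ≠ 0 → M s' ≠ 0 → ∀ i, Ag i s s' → s = s' := by
      intro s s' hs hs' i hag
      by_contra hne
      have h1 := add_le_bd hM0 (Ag.refl i s) hag hne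
      have h2 := hMle i s
      have h3 := hM0 s
      have h4 := hM0 s'
      omega
    let W : Finset (Tr (Vx (Fin C.k))) := Finset.univ.filter (fun s => M s ≠ 0 ∧
      ¬ (ofFun C.fn s = 1 ∧ s ∉ C.Ds))
    have hWmem : ∀ s, s ∈ W ↔ (M s ≠ 0 ∧ ¬ (ofFun C.fn s = 1 ∧ s ∉ C.Ds)) := by
      intro s; simp [W]
    have hWpair : ∀ s ∈ W, ∀ i, ¬ hubPair i s → PD.testBit (pc i s) = true := by
      intro s hs i hi
      rw [hWmem] at hs
      obtain ⟨t₀, ht₀, ht₀1⟩ := hB.ls.exists i s
      rw [PD_spec C hT hD hPD]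
      refine ⟨t₀, ?_, ht₀⟩
      by_contra hD₀
      have ht₀h : ¬ hubTr t₀ := fun hh => hi (hubPair_of_ag ht₀.symm (hubPair_of_hubTr (i := i) hh))
      have hM₀ : M t₀ = 1 := hMD t₀ (fun j z _ => Set.mem_univ z) ht₀h ht₀1 hD₀
      have : s = t₀ := hMeq s t₀ hs.1 (by rw [hM₀]; norm_num) i ht₀
      rw [this] at hs
      exact hs.2 ⟨ht₀1, hD₀⟩
    have hkey := dfs_sound C hT hD hPD _ _ _ _ _ hr W ?_ ?_ ?_ ?_
    · -- conclusion
      obtain ⟨-, hWD⟩ := hkey
      -- a non-hub pair of `t`
      obtain ⟨j, z, hj⟩ : ∃ j z, t j = Sum.inr z := by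
        unfold hubTr at htn
        push Not at htn
        obtain ⟨j, hj⟩ := htn
        rcases isHub_or (t j) with h1 | ⟨z, hz⟩
        · exact absurd h1 hj
        · exact ⟨j, z, hz⟩
      have hnhp : ¬ hubPair (j + 1) t := by
        intro hh
        have := hh j (fun h => add_one_ne j h.symm)
        rw [hj] at this
        exact not_hub_inr z this
      obtain ⟨s, hs, hsne⟩ := exists_of_bd_ne (w := M) (i := j + 1) (a := t) (by
        rw [hM1 _ _ (fun _ _ z _ => Set.mem_univ z) hnhp]; norm_num)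
      have hMs1 : M s = 1 := by
        have h1 := le_bd hM0 (Ag.refl 0 s)
        have h2 := hMle 0 s
        have h3 := hM0 s
        omega
      by_cases hsW : s ∈ W
      · have hsD := hWD s hsW
        have : t = s := hB.ls.eq hs (by rw [htN]; norm_num)
          (by rw [(hB.Dsub s hsD).1]; norm_num)
        rw [this]; exact hMs1
      · rw [hWmem] at hsW
        push Not at hsW
        have h1 := hsW hsne
        have : t = s := hB.ls.eq hs (by rw [htN]; norm_num) (by rw [h1.1]; norm_num)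
        rw [this]; exact hMs1
    · -- bits
      intro s hs i
      rw [Nat.testBit_or, Bool.or_eq_true]
      by_cases hi : hubPair i s
      · right
        refine hmask_spec i s hi ?_
        intro hx
        have h1 := hMx i s hx
        have h2 := le_bd hM0 (Ag.refl i s)
        rw [h1] at h2
        have h3 := hM0 s
        rw [hWmem] at hs
        exact hs.1 (by omega)
      · left
        exact hWpair s hs i hi
    · intro s hs s' hs' i hag
      rw [hWmem] at hs hs'
      exact hMeq s s' hs.1 hs'.1 i hag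
    · intro i a ha
      rw [Nat.testBit_and, Bool.and_eq_true] at ha
      obtain ⟨d, hd, hdag⟩ := (PD_spec C hT hD hPD i a).1 ha.2
      have hna : ¬ hubPair i a := by
        intro hh
        obtain ⟨c, hc, rfl⟩ := hd
        exact D_nohub C hD hc i (hubPair_of_ag hdag hh)
      obtain ⟨s, hs, hsne⟩ := exists_of_bd_ne (w := M) (i := i) (a := a) (by
        rw [hM1 _ _ (fun _ _ z _ => Set.mem_univ z) hna]; norm_num)
      refine ⟨s, ?_, hs⟩
      rw [hWmem]
      refine ⟨hsne, ?_⟩
      rintro ⟨h1, h2⟩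
      have h3 : s = d := hB.ls.eq (hs.symm.trans hdag) (by rw [h1]; norm_num)
        (by rw [(hB.Dsub d hd).1]; norm_num)
      rw [h3] at h2
      exact h2 hd
    · intro s hs
      have hs' := (hWmem s).1 hs
      have hsn := (hMs s hs'.1).2
      obtain ⟨j, z, hj⟩ : ∃ j z, s j = Sum.inr z := by
        unfold hubTr at hsn
        push Not at hsn
        obtain ⟨j, hj⟩ := hsn
        rcases isHub_or (s j) with h1 | ⟨z, hz⟩
        · exact absurd h1 hj
        · exact ⟨j, z, hz⟩
      refine ⟨j + 1, hWpair s hs (j + 1) ?_⟩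
      intro hh
      have := hh j (fun h => add_one_ne j h.symm)
      rw [hj] at this
      exact not_hub_inr z this
  · intro i₀ x _
    exact okTr_spec C hT hD hTr i₀ x

end sound

end Pool.Agent.Lib.MP_469949_co
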