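import Pool.Agent.Lib.MP_469949_co.Comp

/-!
Transport of gadgets along injections.
-/

namespace Pool.Agent.Lib.MP_469949_co

open Finset

section
variable {Z₀ Z : Type}

/-- extension of `e` to the hubs. -/
def emb (e : Z₀ → Z) : Vx Z₀ → Vx Z := Sum.map id e

/-- action on triples. -/
def Emb (e : Z₀ → Z) (t : Tr (Vx Z₀)) : Tr (Vx Z) := fun j => emb e (t j)

lemma emb_injective {e : Z₀ → Z} (he : Function.Injective e) : Function.Injective (emb e) :=
  Sum.map_injective.2 ⟨Function.injective_id, he⟩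

lemma Emb_injective {e : Z₀ → Z} (he : Function.Injective e) : Function.Injective (Emb e) := by
  intro s t h
  funext j
  exact emb_injective he (congrFun h j)

lemma isHub_emb (e : Z₀ → Z) (v : Vx Z₀) : isHub (emb e v) ↔ isHub v := by
  rcases v with b | z
  · exact ⟨fun _ => ⟨b, rfl⟩, fun _ => ⟨b, rfl⟩⟩
  · exact ⟨fun h => absurd h (not_hub_inr _), fun h => absurd h (not_hub_inr _)⟩

lemma hubTr_Emb (e : Z₀ → Z) (t : Tr (Vx Z₀)) : hubTr (Emb e t) ↔ hubTr t :=
  forall_congr' (fun j => isHub_emb e (t j))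

lemma hubPair_Emb (e : Z₀ → Z) (i : Fin 3) (t : Tr (Vx Z₀)) :
    hubPair i (Emb e t) ↔ hubPair i t :=
  forall_congr' (fun j => forall_congr' (fun _ => isHub_emb e (t j)))

lemma inS_range (e : Z₀ → Z) (v : Vx Z) : inS (Set.range e) v ↔ ∃ v₀, emb e v₀ = v := by
  rcases v with b | z
  · exact ⟨fun _ => ⟨Sum.inl b, rfl⟩, fun _ => inS_of_hub _ ⟨b, rfl⟩⟩
  · rw [inS_inr]
    constructor
    · rintro ⟨z₀, rfl⟩
      exact ⟨Sum.inr z₀, rfl⟩
    · rintro ⟨v₀, hv₀⟩
      rcases v₀ with b | z₀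
      · exact absurd hv₀ (by simp [emb])
      · refine ⟨z₀, ?_⟩
        simpa [emb] using hv₀

lemma inTr_range (e : Z₀ → Z) (t : Tr (Vx Z)) : inTr (Set.range e) t ↔ ∃ t₀, Emb e t₀ = t := by
  constructor
  · intro h
    have : ∀ j, ∃ v₀, emb e v₀ = t j := fun j => (inS_range e _).1 (h j)
    choose t₀ ht₀ using this
    exact ⟨t₀, funext ht₀⟩
  · rintro ⟨t₀, rfl⟩ j
    exact (inS_range e _).2 ⟨t₀ j, rfl⟩

lemma inPair_range (e : Z₀ → Z) {i : Fin 3} {a : Tr (Vx Z)} (h : inPair (Set.range e) i a) :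
    ∃ a₀, Ag i a (Emb e a₀) := by
  have : ∀ j, ∃ v₀ : Vx Z₀, j ≠ i → emb e v₀ = a j := by
    intro j
    by_cases hj : j = i
    · exact ⟨Sum.inl false, fun h' => absurd hj h'⟩
    · obtain ⟨v₀, hv₀⟩ := (inS_range e _).1 (h j hj)
      exact ⟨v₀, fun _ => hv₀⟩
  choose a₀ ha₀ using this
  exact ⟨a₀, fun j hj => ha₀ j hj⟩

lemma Ag_Emb {e : Z₀ → Z} (he : Function.Injective e) (i : Fin 3) (a t : Tr (Vx Z₀)) :
    Ag i (Emb e a) (Emb e t) ↔ Ag i a t :=
  forall_congr' (fun _ => forall_congr' (fun _ =>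
    ⟨fun h => emb_injective he h, fun h => congrArg (emb e) h⟩))

end

variable {Z₀ Z : Type} [Fintype Z₀] [DecidableEq Z₀] [Fintype Z] [DecidableEq Z]

lemma bd_Emb {e : Z₀ → Z} (he : Function.Injective e) (w : Tr (Vx Z) → ℤ)
    (hw : ∀ t, w t ≠ 0 → inTr (Set.range e) t) (i : Fin 3) (a : Tr (Vx Z₀)) :
    bd w i (Emb e a) = bd (fun t => w (Emb e t)) i a := by
  unfold bd
  symm
  refine Fintype.sum_of_injective (Emb e) (Emb_injective he) _ _ ?_ ?_
  · intro t ht
    split_ifs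
    · by_contra hne
      exact ht ((inTr_range e t).1 (hw t hne))
    · rfl
  · intro t
    have := Ag_Emb he i a t
    by_cases h : Ag i a t
    · rw [if_pos h, if_pos (this.2 h)]
    · rw [if_neg h, if_neg (fun h' => h (this.1 h'))]

lemma bd_eq_zero {S : Set Z} {w : Tr (Vx Z) → ℤ} (hw : ∀ t, w t ≠ 0 → inTr S t)
    {i : Fin 3} {a : Tr (Vx Z)} (ha : ¬ inPair S i a) : bd w i a = 0 := by
  unfold bd
  refine Finset.sum_eq_zero (fun t _ => ?_)
  split_ifs with hag
  · by_contra hne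
    exact ha (inPair_of_ag hag.symm (inPair_of_inTr (i := i) (hw t hne)))
  · rfl

omit [Fintype Z₀] [Fintype Z] in
lemma Pe_emb {e : Z₀ → Z} (he : Function.Injective e) (u v : Vx Z₀) :
    Pe (emb e u) (emb e v) = Pe u v := by
  unfold Pe
  by_cases h : u = v
  · rw [if_pos h, if_pos (congrArg _ h)]
  · rw [if_neg h, if_neg (fun h' => h (emb_injective he h'))]

omit [Fintype Z] in
lemma defc_congr {i₀ i : Fin 3} {v : Vx Z} {a b : Tr (Vx Z)} (h : Ag i a b) :
    defc i₀ v i a = defc i₀ v i b := by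
  unfold defc
  rw [h (i + 1) (add_one_ne i), h (i + 2) (add_two_ne i)]

omit [Fintype Z₀] [Fintype Z] in
lemma defc_Emb {e : Z₀ → Z} (he : Function.Injective e) (i₀ i : Fin 3) (v : Vx Z₀)
    (a : Tr (Vx Z₀)) : defc i₀ (emb e v) i (Emb e a) = defc i₀ v i a := by
  have hh : (h0 : Vx Z) = emb e h0 := rfl
  unfold defc
  rw [hh]
  unfold Emb
  rw [Pe_emb he, Pe_emb he, Pe_emb he, Pe_emb he]

/-- transport of a gadget along an injection. -/
theorem LG.transport {e : Z₀ → Z} (he : Function.Injective e) {N₀ : Tr (Vx Z₀) → ℤ}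
    {D₀ : Set (Tr (Vx Z₀))} {N : Tr (Vx Z) → ℤ} {D : Set (Tr (Vx Z))}
    (hB₀ : Base N₀ D₀) (hB : Base N D) (hG : LG Set.univ N₀ D₀)
    (hN : ∀ t, N (Emb e t) = N₀ t) (hD : ∀ t, Emb e t ∈ D ↔ t ∈ D₀) :
    LG (Set.range e) N D := by
  classical
  refine ⟨?_, ?_, ?_⟩
  · intro i t ht htN
    obtain ⟨a₀, ha₀⟩ := inPair_range e ht
    obtain ⟨t₀, ht₀, ht₀1⟩ := hB₀.ls.exists i a₀
    have h1 : Ag i t (Emb e t₀) := ha₀.trans ((Ag_Emb he i a₀ t₀).2 ht₀)
    have h2 : t = Emb e t₀ := hB.ls.eq h1 (by rw [htN]; norm_num) (by rw [hN, ht₀1]; norm_num)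
    rw [h2]
    exact (inTr_range e _).2 ⟨t₀, rfl⟩ i
  · intro M hM0 hMs hM1 hMle hMx hMD t htin htn htN
    obtain ⟨t₀, rfl⟩ := (inTr_range e t).1 htin
    have hMs' : ∀ t, M t ≠ 0 → inTr (Set.range e) t := fun t ht => (hMs t ht).1
    refine hG.uniq (fun s => M (Emb e s)) (fun s => hM0 _) ?_ ?_ ?_ ?_ ?_ t₀
      (fun j z _ => Set.mem_univ z) (fun h => htn ((hubTr_Emb e t₀).2 h)) (by rw [← hN]; exact htN)
    · intro s hs
      exact ⟨fun j z _ => Set.mem_univ z, fun h => (hMs _ hs).2 ((hubTr_Emb e s).2 h)⟩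
    · intro i a _ hna
      rw [← bd_Emb he M hMs' i a]
      refine hM1 i _ (fun j _ => (inS_range e _).2 ⟨a j, rfl⟩) ?_
      rwa [hubPair_Emb]
    · intro i a
      rw [← bd_Emb he M hMs' i a]
      exact hMle i _
    · intro i a ha
      rw [← bd_Emb he M hMs' i a]
      refine hMx i _ (fun j hj => ?_)
      unfold Emb
      rw [ha j hj]; rfl
    · intro s _ hsn hsN hsD
      refine hMD _ ((inTr_range e _).2 ⟨s, rfl⟩) ?_ (by rw [hN]; exact hsN) ?_
      · rwa [hubTr_Emb]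
      · rwa [hD]
  · rintro i₀ x ⟨y, rfl⟩
    obtain ⟨A₀, hA0, hAs, hAD, hAb⟩ := hG.tr i₀ y (Set.mem_univ y)
    let A : Tr (Vx Z) → ℤ := fun t => ∑ t₀, if t = Emb e t₀ then A₀ t₀ else 0
    have hA1 : ∀ t₀, A (Emb e t₀) = A₀ t₀ := by
      intro t₀
      simp only [A]
      rw [Finset.sum_eq_single t₀]
      · rw [if_pos rfl]
      · intro s _ hs
        rw [if_neg (fun h => hs (Emb_injective he h).symm)]
      · intro h; exact absurd (Finset.mem_univ _) h
    have hA2 : ∀ t, A t ≠ 0 → ∃ t₀, Emb e t₀ = t := by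
      intro t ht
      by_contra hcon
      push Not at hcon
      apply ht
      simp only [A]
      refine Finset.sum_eq_zero (fun t₀ _ => if_neg (fun h => hcon t₀ h.symm))
    have hAs' : ∀ t, A t ≠ 0 → inTr (Set.range e) t := fun t ht => (inTr_range e t).2 (hA2 t ht)
    refine ⟨A, ?_, ?_, ?_, ?_⟩
    · intro t
      simp only [A]
      refine Finset.sum_nonneg (fun t₀ _ => ?_)
      split_ifs
      · exact hA0 t₀
      · exact le_refl _
    · intro t ht
      obtain ⟨t₀, rfl⟩ := hA2 t ht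
      refine ⟨hAs' _ ht, ?_⟩
      rw [hA1] at ht
      rw [hubTr_Emb]
      exact (hAs t₀ ht).2
    · intro t htin htn htN htD
      obtain ⟨t₀, rfl⟩ := (inTr_range e t).1 htin
      rw [hA1]
      refine hAD t₀ (fun j z _ => Set.mem_univ z) ?_ (by rw [← hN]; exact htN) ?_
      · rwa [← hubTr_Emb e]
      · rwa [← hD]
    · intro i a
      have hres : ∀ t, res (Set.range e) N t ≠ 0 → inTr (Set.range e) t := by
        intro t ht
        unfold res at ht
        split_ifs at ht with h1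
        · exact h1.1
        · exact absurd rfl ht
      by_cases hp : inPair (Set.range e) i a
      · obtain ⟨a₀, ha₀⟩ := inPair_range e hp
        rw [bd_congr ha₀, bd_congr (w := res (Set.range e) N) ha₀, defc_congr ha₀,
          defc_congr (v := h1) ha₀]
        rw [bd_Emb he A hAs', bd_Emb he _ hres]
        have e1 : (fun t => A (Emb e t)) = A₀ := funext hA1
        have e2 : (fun t => res (Set.range e) N (Emb e t)) = res Set.univ N₀ := by
          funext t
          unfold res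
          have q1 : inTr (Set.range e) (Emb e t) := (inTr_range e _).2 ⟨t, rfl⟩
          have q2 : inTr Set.univ t := fun j z _ => Set.mem_univ z
          by_cases hh : hubTr t
          · rw [if_neg (fun h => h.2 ((hubTr_Emb e t).2 hh)), if_neg (fun h => h.2 hh)]
          · rw [if_pos ⟨q1, fun h => hh ((hubTr_Emb e t).1 h)⟩, if_pos ⟨q2, hh⟩, hN]
        rw [e1, e2, hAb i a₀]
        have e3 : (Sum.inr (e y) : Vx Z) = emb e (Sum.inr y) := rfl
        have e4 : (h1 : Vx Z) = emb e h1 := rfl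
        rw [e3, e4, defc_Emb he, defc_Emb he]
      · have q1 : inS (Set.range e) (Sum.inr (e y)) := inS_inr.2 ⟨y, rfl⟩
        have q2 : inS (Set.range e) (h1 : Vx Z) := inS_of_hub _ ⟨true, rfl⟩
        rw [bd_eq_zero hAs' hp, bd_eq_zero hres hp, defc_eq_zero q1 hp, defc_eq_zero q2 hp]
        ring

end Pool.Agent.Lib.MP_469949_co
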