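import Pool.Agent.Lib.MP_469949_co.Bd

/-!
Upper bound for `lcs n`: abstract setting. Latin squares are sets of triples.
-/

namespace Pool.Agent.Lib.MP_469949_co

open Finset

/-- A latin square as a set of triples: every pair is covered exactly once. -/
def LatSet {V : Type} (A : Set (Tr V)) : Prop :=
  ∀ (i : Fin 3) (a : Tr V), ∃! t, t ∈ A ∧ Ag i a t

/-- Three distinct coordinates. -/
def Dist (i j k : Fin 3) : Prop := i ≠ j ∧ i ≠ k ∧ j ≠ k

lemma Dist.cases {i j k : Fin 3} (h : Dist i j k) (l : Fin 3) : l = i ∨ l = j ∨ l = k := by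
  revert i j k l
  unfold Dist
  decide

lemma Dist.perm1 {i j k : Fin 3} (h : Dist i j k) : Dist j i k := ⟨h.1.symm, h.2.2, h.2.1⟩
lemma Dist.perm2 {i j k : Fin 3} (h : Dist i j k) : Dist i k j := ⟨h.2.1, h.1, h.2.2.symm⟩
lemma Dist.perm3 {i j k : Fin 3} (h : Dist i j k) : Dist j k i := ⟨h.2.2, h.1.symm, h.2.1.symm⟩
lemma Dist.perm4 {i j k : Fin 3} (h : Dist i j k) : Dist k i j := ⟨h.2.1.symm, h.2.2.symm, h.1⟩
lemma Dist.perm5 {i j k : Fin 3} (h : Dist i j k) : Dist k j i := ⟨h.2.2.symm, h.2.1.symm, h.1.symm⟩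

lemma exists_dist {i j : Fin 3} (h : i ≠ j) : ∃ k, Dist i j k := by
  revert i j
  unfold Dist
  decide

lemma Dist.ag {V : Type} {i j k : Fin 3} (h : Dist i j k) (a t : Tr V) :
    Ag k a t ↔ t i = a i ∧ t j = a j := by
  constructor
  · intro h'
    exact ⟨h' i h.2.1, h' j h.2.2⟩
  · rintro ⟨h1, h2⟩ l hl
    rcases h.cases l with rfl | rfl | rfl
    · exact h1
    · exact h2
    · exact absurd rfl hl

lemma Dist.ext {V : Type} {i j k : Fin 3} (h : Dist i j k) {s t : Tr V} (h1 : s i = t i)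
    (h2 : s j = t j) (h3 : s k = t k) : s = t := by
  funext l
  rcases h.cases l with rfl | rfl | rfl
  · exact h1
  · exact h2
  · exact h3

section lat
variable {V : Type} {A A' : Set (Tr V)}

lemma LatSet.ex (hA : LatSet A) {i j : Fin 3} (hij : i ≠ j) (a b : V) :
    ∃ t ∈ A, t i = a ∧ t j = b := by
  obtain ⟨k, hk⟩ := exists_dist hij
  obtain ⟨t, ⟨h1, h2⟩, -⟩ := hA k (fun l => if l = i then a else b)
  rw [hk.ag] at h2
  refine ⟨t, h1, ?_, ?_⟩
  · simpa using h2.1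
  · have : j ≠ i := hij.symm
    simpa [this] using h2.2

lemma LatSet.uniq (hA : LatSet A) {i j : Fin 3} (hij : i ≠ j) {s t : Tr V} (hs : s ∈ A)
    (ht : t ∈ A) (h1 : s i = t i) (h2 : s j = t j) : s = t := by
  obtain ⟨k, hk⟩ := exists_dist hij
  exact (hA k s).unique ⟨hs, Ag.refl _ _⟩ ⟨ht, (hk.ag s t).2 ⟨h1.symm, h2.symm⟩⟩

/-- the exchange lemma -/
lemma LatSet.sw (hA : LatSet A) (hA' : LatSet A') {v : Tr V} (hv : v ∈ A) (hv' : v ∉ A')
    {i j : Fin 3} (hij : i ≠ j) : ∃ t ∈ A', t ∉ A ∧ t i = v i ∧ t j = v j := by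
  obtain ⟨t, ht, h1, h2⟩ := hA'.ex hij (v i) (v j)
  refine ⟨t, ht, ?_, h1, h2⟩
  intro htA
  have := hA.uniq hij htA hv h1 h2
  rw [this] at ht
  exact hv' ht

end lat

/-- `D` is the complement of a critical set (in the latin square `A`). -/
structure Crit {V : Type} (A : Set (Tr V)) (D : Finset (Tr V)) : Prop where
  lat : LatSet A
  sub : ∀ t ∈ D, t ∈ A
  sw : ∀ x ∈ A, x ∉ D → ∃ A', LatSet A' ∧ x ∉ A' ∧ ∀ t ∈ A, t ∉ D → t ≠ x → t ∈ A'

section crit
variable {V : Type} {A A' : Set (Tr V)} {D : Finset (Tr V)}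

/-- If `x` is exchanged, two of its coordinates have a common neighbour. -/
lemma basicB (hA : LatSet A) (hA' : LatSet A') {x : Tr V} (hx : x ∈ A) (hx' : x ∉ A')
    (hr : ∀ t ∈ A, t ∉ D → t ≠ x → t ∈ A') {i j k : Fin 3} (h : Dist i j k) :
    ∃ g, g ≠ x k ∧ (∃ y ∈ D, y ∉ A' ∧ y i = x i ∧ y k = g) ∧
      ∃ y ∈ D, y ∉ A' ∧ y j = x j ∧ y k = g := by
  obtain ⟨t, ht, htA, h1, h2⟩ := hA.sw hA' hx hx' h.1
  have hgk : t k ≠ x k := by
    intro h3
    exact htA (by rwa [h.ext h1 h2 h3])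
  refine ⟨t k, hgk, ?_, ?_⟩
  · obtain ⟨y, hy, hyA, h3, h4⟩ := hA'.sw hA ht htA h.2.1
    refine ⟨y, ?_, hyA, h3.trans h1, h4⟩
    by_contra hyD
    refine hyA (hr y hy hyD ?_)
    rintro rfl
    exact hgk h4.symm
  · obtain ⟨y, hy, hyA, h3, h4⟩ := hA'.sw hA ht htA h.2.2
    refine ⟨y, ?_, hyA, h3.trans h2, h4⟩
    by_contra hyD
    refine hyA (hr y hy hyD ?_)
    rintro rfl
    exact hgk h4.symm

/-- A line all of whose elements lie on two other lines is passed through in one way. -/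
lemma passG (hA : LatSet A) (hA' : LatSet A') {x : Tr V}
    (hr : ∀ t ∈ A, t ∉ D → t ≠ x → t ∈ A') {i j k : Fin 3} (h : Dist i j k) {zi zj : V}
    {y : Tr V} (hy : y ∈ A) (hy' : y ∉ A') (hyj : y j = zj) (hxk : y k ≠ x k)
    (hG : ∀ v ∈ D, v k = y k → v i = zi ∨ v j = zj) :
    ∃ t ∈ A', t i = zi ∧ t j = zj ∧ t k = y k := by
  have hD : ∀ v ∈ A, v ∉ A' → v k = y k → v i = zi ∨ v j = zj := by
    intro v hv hvA hvk
    refine hG v ?_ hvk
    by_contra hvD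
    refine hvA (hr v hv hvD ?_)
    rintro rfl
    exact hxk hvk.symm
  -- first step
  obtain ⟨t, ht, htA, h1, h2⟩ := hA.sw hA' hy hy' h.2.1
  have htj : t j ≠ zj := by
    intro h3
    exact htA (by rwa [h.ext h1 (h3.trans hyj.symm) h2])
  obtain ⟨v, hv, hvA, h3, h4⟩ := hA'.sw hA ht htA h.2.2
  have hvi : v i = zi := by
    rcases hD v hv hvA (h4.trans h2) with h5 | h5
    · exact h5
    · exact absurd (h3.symm.trans h5) htj
  -- second step
  obtain ⟨t', ht', htA', h1', h2'⟩ := hA.sw hA' hv hvA h.2.1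
  obtain ⟨v', hv', hvA', h3', h4'⟩ := hA'.sw hA ht' htA' h.2.2
  have hv'k : v' k = y k := h4'.trans (h2'.trans (h4.trans h2))
  rcases hD v' hv' hvA' hv'k with h5 | h5
  · exfalso
    have : v' = v := hA.uniq h.2.1 hv' hv (h5.trans hvi.symm) (hv'k.trans (h4.trans h2).symm)
    subst this
    exact htA' (by rwa [h.ext h1' h3'.symm h2'])
  · exact ⟨t', ht', h1'.trans hvi, h3'.symm.trans h5, h2'.trans (h4.trans h2)⟩

end crit

end Pool.Agent.Lib.MP_469949_co
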