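import Pool.Agent.Lib.MP_469949_co.UpperA

/-!
Upper bound for `lcs n`: counting.
-/

namespace Pool.Agent.Lib.MP_469949_co

open Finset

variable {V : Type} [Fintype V] [DecidableEq V]

/-- number of elements of `D` on the line `a` of type `i`. -/
def dg (D : Finset (Tr V)) (i : Fin 3) (a : V) : ℕ := (D.filter (fun y => y i = a)).card

/-- the lines of type `k` meeting the line `a` of type `i` in an element of `D`. -/
def nb (D : Finset (Tr V)) (i : Fin 3) (a : V) (k : Fin 3) : Finset V :=
  (D.filter (fun y => y i = a)).image (fun y => y k)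

lemma mem_nb {D : Finset (Tr V)} {i k : Fin 3} {a h : V} :
    h ∈ nb D i a k ↔ ∃ y ∈ D, y i = a ∧ y k = h := by
  simp [nb, and_assoc]

lemma sum_dg (D : Finset (Tr V)) (i : Fin 3) : ∑ a, dg D i a = D.card := by
  unfold dg
  rw [Finset.card_eq_sum_card_fiberwise (f := fun y : Tr V => y i) (t := Finset.univ)
    (fun _ _ => by simp)]

lemma card_nb_le (D : Finset (Tr V)) (i : Fin 3) (a : V) (k : Fin 3) :
    (nb D i a k).card ≤ dg D i a := Finset.card_image_le

variable {A : Set (Tr V)} {D : Finset (Tr V)}

/-- every line sees `n` lines of another type at distance two. -/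
lemma Crit.F1 (hC : Crit A D) {i j k : Fin 3} (h : Dist i j k) (a : V) :
    Fintype.card V ≤ (D.filter (fun y => y k ∈ nb D i a k)).card := by
  have key : ∀ b : V, ∃ y ∈ D.filter (fun y => y k ∈ nb D i a k), y j = b := by
    intro b
    obtain ⟨x, hx, h1, h2⟩ := hC.lat.ex h.1 a b
    by_cases hxD : x ∈ D
    · refine ⟨x, ?_, h2⟩
      rw [mem_filter, mem_nb]
      exact ⟨hxD, x, hxD, h1, rfl⟩
    · obtain ⟨A', hA', hxA', hr⟩ := hC.sw x hx hxD
      obtain ⟨g, -, ⟨y, hy, -, h3, h4⟩, ⟨y', hy', -, h5, h6⟩⟩ := basicB hC.lat hA' hx hxA' hr h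
      refine ⟨y', ?_, h5.trans h2⟩
      rw [mem_filter, mem_nb]
      exact ⟨hy', y, hy, h3.trans h1, h4.trans h6.symm⟩
  calc Fintype.card V = (Finset.univ : Finset V).card := rfl
    _ ≤ ((D.filter (fun y => y k ∈ nb D i a k)).image (fun y => y j)).card := by
        refine Finset.card_le_card ?_
        intro b _
        obtain ⟨y, hy, hyb⟩ := key b
        exact Finset.mem_image.2 ⟨y, hy, hyb⟩
    _ ≤ _ := Finset.card_image_le

lemma card_filter_mem (D : Finset (Tr V)) (k : Fin 3) (S : Finset V) :
    (D.filter (fun y => y k ∈ S)).card = ∑ h ∈ S, dg D k h := by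
  rw [Finset.card_eq_sum_card_fiberwise (f := fun y : Tr V => y k) (t := S)
    (fun y hy => by simpa using (Finset.mem_filter.1 hy).2)]
  refine Finset.sum_congr rfl (fun h hh => ?_)
  unfold dg
  congr 1
  ext y
  simp only [mem_filter]
  constructor
  · rintro ⟨⟨h1, h2⟩, h3⟩; exact ⟨h1, h3⟩
  · rintro ⟨h1, h2⟩; exact ⟨⟨h1, by rw [h2]; exact hh⟩, h2⟩

/-- contribution of big lines. -/
lemma Crit.F2 (hC : Crit A D) {i k : Fin 3} (h : i ≠ k) (a : V) (t : ℕ) :
    Fintype.card V ≤ ∑ g ∈ (nb D i a k).filter (fun g => t ≤ dg D k g), dg D k g +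
      dg D i a * t := by
  obtain ⟨j, hj⟩ := exists_dist h
  have h1 := hC.F1 hj.perm2 a
  rw [card_filter_mem] at h1
  refine h1.trans ?_
  rw [← Finset.sum_filter_add_sum_filter_not (nb D i a k) (fun g => t ≤ dg D k g)]
  refine Nat.add_le_add_left ?_ _
  calc ∑ g ∈ (nb D i a k).filter (fun g => ¬ t ≤ dg D k g), dg D k g
      ≤ ∑ _g ∈ (nb D i a k).filter (fun g => ¬ t ≤ dg D k g), t := by
        refine Finset.sum_le_sum (fun g hg => ?_)
        have := (Finset.mem_filter.1 hg).2
        omega
    _ = ((nb D i a k).filter (fun g => ¬ t ≤ dg D k g)).card * t := by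
        rw [Finset.sum_const, smul_eq_mul]
    _ ≤ dg D i a * t := by
        refine Nat.mul_le_mul_right _ ?_
        exact (Finset.card_filter_le _ _).trans (card_nb_le D i a k)

/-- few lines have large degree -/
lemma card_big (D : Finset (Tr V)) (i : Fin 3) (M e : ℕ)
    (h2 : D.card ≤ (M + 1) * e) :
    (Finset.univ.filter (fun a => M < dg D i a)).card ≤ e := by
  have h3 : (M + 1) * (Finset.univ.filter (fun a => M < dg D i a)).card ≤ D.card := by
    rw [← sum_dg D i, mul_comm]
    calc (Finset.univ.filter (fun a => M < dg D i a)).card * (M + 1)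
        = ∑ _a ∈ Finset.univ.filter (fun a => M < dg D i a), (M + 1) := by
          rw [Finset.sum_const, smul_eq_mul]
      _ ≤ ∑ a ∈ Finset.univ.filter (fun a => M < dg D i a), dg D i a := by
          refine Finset.sum_le_sum (fun a ha => ?_)
          have := (Finset.mem_filter.1 ha).2
          omega
      _ ≤ ∑ a, dg D i a := Finset.sum_le_sum_of_subset (Finset.subset_univ _)
  exact Nat.le_of_mul_le_mul_left (h3.trans h2) (Nat.succ_pos M)

/-- the elements of `D` on big lines of type `k`. -/
def bigs (D : Finset (Tr V)) (t : ℕ) (k : Fin 3) : Finset (Tr V) :=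
  D.filter (fun y => t ≤ dg D k (y k))

/-- without a hub of type `k` there are many elements on big lines. -/
lemma Crit.nohub (hC : Crit A D) {k : Fin 3} {M t e : ℕ} (h1 : M * t ≤ e)
    (h2 : D.card ≤ (M + 1) * e) (hno : ∀ h, dg D k h + e < Fintype.card V) :
    2 * Fintype.card V ≤ (bigs D t k).card + 2 * e := by
  obtain ⟨i, hik⟩ : ∃ i : Fin 3, i ≠ k := ⟨k + 1, by fin_cases k <;> decide⟩
  have hlow : ∀ a, dg D i a ≤ M →
      2 ≤ ((nb D i a k).filter (fun g => t ≤ dg D k g)).card := by
    intro a ha
    by_contra hcon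
    have hc1 : ((nb D i a k).filter (fun g => t ≤ dg D k g)).card ≤ 1 := by omega
    have hF := hC.F2 hik a t
    have h3 : dg D i a * t ≤ e := (Nat.mul_le_mul_right t ha).trans h1
    have h4 : ∑ g ∈ (nb D i a k).filter (fun g => t ≤ dg D k g), dg D k g + e
        < Fintype.card V := by
      rcases Nat.lt_or_ge ((nb D i a k).filter (fun g => t ≤ dg D k g)).card 1 with h5 | h5
      · have h6 : (nb D i a k).filter (fun g => t ≤ dg D k g) = ∅ :=
          Finset.card_eq_zero.1 (by omega)
        rw [h6, Finset.sum_empty]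
        have := hno a
        omega
      · obtain ⟨g, hg⟩ := Finset.card_eq_one.1 (le_antisymm hc1 h5)
        rw [hg, Finset.sum_singleton]
        exact hno g
    omega
  have hcnt : ∑ a, (D.filter (fun y => y i = a ∧ t ≤ dg D k (y k))).card =
      (bigs D t k).card := by
    unfold bigs
    rw [Finset.card_eq_sum_card_fiberwise (f := fun y : Tr V => y i) (t := Finset.univ)
      (fun _ _ => by simp)]
    refine Finset.sum_congr rfl (fun a _ => ?_)
    congr 1
    ext y
    simp only [mem_filter]
    tauto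
  have hrow : ∀ a, ((nb D i a k).filter (fun g => t ≤ dg D k g)).card ≤
      (D.filter (fun y => y i = a ∧ t ≤ dg D k (y k))).card := by
    intro a
    refine le_trans (Finset.card_le_card ?_) (Finset.card_image_le (f := fun y : Tr V => y k))
    intro g hg
    rw [mem_filter, mem_nb] at hg
    obtain ⟨⟨y, hy, hya, hyg⟩, hg⟩ := hg
    rw [Finset.mem_image]
    refine ⟨y, ?_, hyg⟩
    rw [mem_filter, hyg]
    exact ⟨hy, hya, hg⟩
  have hbig := card_big D i M e h2
  have hsplit : (Finset.univ.filter (fun a => M < dg D i a)).card +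
      (Finset.univ.filter (fun a => ¬ M < dg D i a)).card = Fintype.card V := by
    rw [Finset.card_filter_add_card_filter_not]
    rfl
  have hsum : 2 * (Finset.univ.filter (fun a => ¬ M < dg D i a)).card ≤ (bigs D t k).card := by
    rw [← hcnt, mul_comm]
    calc (Finset.univ.filter (fun a => ¬ M < dg D i a)).card * 2
        = ∑ _a ∈ Finset.univ.filter (fun a => ¬ M < dg D i a), 2 := by
          rw [Finset.sum_const, smul_eq_mul]
      _ ≤ ∑ a ∈ Finset.univ.filter (fun a => ¬ M < dg D i a),
            (D.filter (fun y => y i = a ∧ t ≤ dg D k (y k))).card := by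
          refine Finset.sum_le_sum (fun a ha => ?_)
          have ha' := (Finset.mem_filter.1 ha).2
          exact (hlow a (by omega)).trans (hrow a)
      _ ≤ _ := Finset.sum_le_sum_of_subset (Finset.subset_univ _)
  omega

/-- with a hub -/
lemma hub_bigs {k : Fin 3} {t : ℕ} {z : V} (hz : t ≤ dg D k z) :
    dg D k z ≤ (bigs D t k).card := by
  unfold dg bigs
  refine Finset.card_le_card ?_
  intro y hy
  rw [mem_filter] at hy ⊢
  refine ⟨hy.1, ?_⟩
  rw [hy.2]
  exact hz

/-- the number of big lines -/
lemma card_bigLines (D : Finset (Tr V)) (k : Fin 3) (t b : ℕ) (ht : 0 < t)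
    (h : D.card ≤ t * b) : (Finset.univ.filter (fun a => t ≤ dg D k a)).card ≤ b := by
  have h1 : t = (t - 1) + 1 := by omega
  have h2 := card_big D k (t - 1) b (by rw [← h1]; exact h)
  have h3 : (Finset.univ.filter (fun a => t ≤ dg D k a)) =
      Finset.univ.filter (fun a => t - 1 < dg D k a) := by
    ext a
    simp only [mem_filter, mem_univ, true_and]
    omega
  rw [h3]
  exact h2

lemma Crit.inter_bigs (hC : Crit A D) {i j : Fin 3} (h : i ≠ j) {t b : ℕ} (ht : 0 < t)
    (hb : D.card ≤ t * b) : (bigs D t i ∩ bigs D t j).card ≤ b ^ 2 := by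
  have h1 := card_bigLines D i t b ht hb
  have h2 := card_bigLines D j t b ht hb
  calc (bigs D t i ∩ bigs D t j).card
      = ((bigs D t i ∩ bigs D t j).image (fun y => (y i, y j))).card := by
        rw [Finset.card_image_of_injOn]
        intro y hy y' hy' hyy
        have hy1 : y ∈ D := by
          have := Finset.mem_inter.1 (Finset.mem_coe.1 hy)
          exact (Finset.mem_filter.1 this.1).1
        have hy1' : y' ∈ D := by
          have := Finset.mem_inter.1 (Finset.mem_coe.1 hy')
          exact (Finset.mem_filter.1 this.1).1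
        rw [Prod.ext_iff] at hyy
        exact hC.lat.uniq h (hC.sub _ hy1) (hC.sub _ hy1') hyy.1 hyy.2
    _ ≤ ((Finset.univ.filter (fun a => t ≤ dg D i a)) ×ˢ
          (Finset.univ.filter (fun a => t ≤ dg D j a))).card := by
        refine Finset.card_le_card ?_
        intro p hp
        rw [Finset.mem_image] at hp
        obtain ⟨y, hy, rfl⟩ := hp
        rw [Finset.mem_inter] at hy
        have h3 := (Finset.mem_filter.1 hy.1).2
        have h4 := (Finset.mem_filter.1 hy.2).2
        simp [h3, h4]
    _ ≤ b * b := by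
        rw [Finset.card_product]
        exact Nat.mul_le_mul h1 h2
    _ = b ^ 2 := (sq b).symm

/-- Case I: no hub of some type. -/
theorem Crit.caseI (hC : Crit A D) {M t e b : ℕ} (ht : 0 < t) (h1 : M * t ≤ e)
    (h2 : D.card ≤ (M + 1) * e) (hb : D.card ≤ t * b) (he : e + t ≤ Fintype.card V) {k : Fin 3}
    (hno : ∀ h, dg D k h + e < Fintype.card V) :
    4 * Fintype.card V ≤ D.card + 4 * e + 3 * b ^ 2 := by
  have hall : ∀ l, Fintype.card V ≤ (bigs D t l).card + e := by
    intro l
    by_cases hl : ∀ h, dg D l h + e < Fintype.card V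
    · have := hC.nohub h1 h2 hl
      omega
    · push Not at hl
      obtain ⟨z, hz⟩ := hl
      have := hub_bigs (D := D) (k := l) (t := t) (z := z) (by omega)
      omega
  have hk := hC.nohub h1 h2 hno
  have h01 := hC.inter_bigs (i := 0) (j := 1) (by decide) ht hb
  have h02 := hC.inter_bigs (i := 0) (j := 2) (by decide) ht hb
  have h12 := hC.inter_bigs (i := 1) (j := 2) (by decide) ht hb
  have hu1 := Finset.card_union_add_card_inter (bigs D t 0) (bigs D t 1)
  have hu2 := Finset.card_union_add_card_inter (bigs D t 0 ∪ bigs D t 1) (bigs D t 2)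
  have hi2 : ((bigs D t 0 ∪ bigs D t 1) ∩ bigs D t 2).card ≤
      (bigs D t 0 ∩ bigs D t 2).card + (bigs D t 1 ∩ bigs D t 2).card := by
    rw [Finset.union_inter_distrib_right]
    exact Finset.card_union_le _ _
  have hsub : (bigs D t 0 ∪ bigs D t 1 ∪ bigs D t 2).card ≤ D.card := by
    refine Finset.card_le_card ?_
    intro y hy
    simp only [Finset.mem_union, bigs, mem_filter] at hy
    tauto
  have a0 := hall 0
  have a1 := hall 1
  have a2 := hall 2
  fin_cases k
  · simp only [Fin.zero_eta] at hk
    omega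
  · simp only [Fin.mk_one] at hk
    omega
  · simp only [Fin.reduceFinMk] at hk
    omega

end Pool.Agent.Lib.MP_469949_co
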