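import Pool.Agent.Lib.MP_469949_co.UpperB

/-!
Upper bound for `lcs n`: the case of three hubs.
-/

namespace Pool.Agent.Lib.MP_469949_co

open Finset

section el
variable {V : Type} {A : Set (Tr V)}

/-- the element of `A` on two given lines. -/
noncomputable def LatSet.el (hA : LatSet A) {i j : Fin 3} (hij : i ≠ j) (a b : V) : Tr V :=
  (hA.ex hij a b).choose

lemma LatSet.el_mem (hA : LatSet A) {i j : Fin 3} (hij : i ≠ j) (a b : V) :
    hA.el hij a b ∈ A := (hA.ex hij a b).choose_spec.1
lemma LatSet.el_1 (hA : LatSet A) {i j : Fin 3} (hij : i ≠ j) (a b : V) :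
    hA.el hij a b i = a := (hA.ex hij a b).choose_spec.2.1
lemma LatSet.el_2 (hA : LatSet A) {i j : Fin 3} (hij : i ≠ j) (a b : V) :
    hA.el hij a b j = b := (hA.ex hij a b).choose_spec.2.2
lemma LatSet.el_eq (hA : LatSet A) {i j : Fin 3} (hij : i ≠ j) {t : Tr V} (ht : t ∈ A) :
    hA.el hij (t i) (t j) = t :=
  hA.uniq hij (hA.el_mem hij _ _) ht (hA.el_1 hij _ _) (hA.el_2 hij _ _)

end el

variable {V : Type} [Fintype V] [DecidableEq V]
variable {A : Set (Tr V)} {D : Finset (Tr V)}

/-- elements of `D` on big lines of type `l` other than `z`. -/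
def sg (D : Finset (Tr V)) (t : ℕ) (l : Fin 3) (z : V) : Finset (Tr V) :=
  D.filter (fun y => y l ≠ z ∧ t ≤ dg D l (y l))

/-- lines of type `k` all of whose elements lie on `zi` or `zj`, both occurring. -/
def good (D : Finset (Tr V)) (i j k : Fin 3) (zi zj zk : V) : Finset V :=
  Finset.univ.filter (fun h => h ≠ zk ∧ (∀ y ∈ D, y k = h → y i = zi ∨ y j = zj) ∧
    (∃ y ∈ D, y k = h ∧ y i = zi) ∧ (∃ y ∈ D, y k = h ∧ y j = zj))

/-- pairs of elements of `D` on a common small line of type `l`. -/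
def prs (D : Finset (Tr V)) (t : ℕ) (l : Fin 3) : Finset (Tr V × Tr V) :=
  (D ×ˢ D).filter (fun p => p.1 l = p.2 l ∧ ¬ t ≤ dg D l (p.1 l))

omit [Fintype V] in
lemma card_prs (D : Finset (Tr V)) (t : ℕ) (l : Fin 3) : (prs D t l).card ≤ D.card * t := by
  rw [Finset.card_eq_sum_card_fiberwise (f := fun p : Tr V × Tr V => p.1) (t := D)
    (fun p hp => by
      have := (Finset.mem_filter.1 hp).1
      exact (Finset.mem_product.1 this).1)]
  calc ∑ y ∈ D, ((prs D t l).filter (fun p => p.1 = y)).card ≤ ∑ _y ∈ D, t := by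
        refine Finset.sum_le_sum (fun y hy => ?_)
        by_cases hb : t ≤ dg D l (y l)
        · have : (prs D t l).filter (fun p => p.1 = y) = ∅ := by
            rw [Finset.filter_eq_empty_iff]
            intro p hp hpy
            have := (Finset.mem_filter.1 hp).2.2
            rw [hpy] at this
            exact this hb
          rw [this]
          simp
        · have h1 : ((prs D t l).filter (fun p => p.1 = y)).card ≤ dg D l (y l) := by
            unfold dg
            refine Finset.card_le_card_of_injOn (fun p => p.2) ?_ ?_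
            · intro p hp
              rw [Finset.mem_coe, mem_filter] at hp
              have h2 := Finset.mem_filter.1 hp.1
              have h3 := Finset.mem_product.1 h2.1
              rw [Finset.mem_coe, mem_filter]
              refine ⟨h3.2, ?_⟩
              change p.2 l = y l
              rw [← h2.2.1, hp.2]
            · intro p hp q hq hpq
              rw [Finset.mem_coe, mem_filter] at hp hq
              exact Prod.ext (hp.2.trans hq.2.symm) hpq
          omega
    _ = D.card * t := by rw [Finset.sum_const, smul_eq_mul]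

/-- the half of the argument about one of the two exchanged pairs. -/
lemma Crit.half {A' : Set (Tr V)} (hC : Crit A D) (hA' : LatSet A') {x : Tr V} (hx : x ∈ A)
    (hxA' : x ∉ A') (hr : ∀ t ∈ A, t ∉ D → t ≠ x → t ∈ A') (hxD : x ∉ D)
    {i j k : Fin 3} (h : Dist i j k) {zi zj zk : V} {t : ℕ}
    (hP : ¬ ∃ y ∈ D, y i = x i ∧ y j ≠ zj ∧ t ≤ dg D j (y j)) {y : Tr V} (hy : y ∈ D)
    (hyi : y i = x i) (hyj : y j = zj) (hG : y k ∈ good D i j k zi zj zk) :
    (∃ p ∈ prs D t j, x i = p.1 i ∧ x k = p.2 k) ∨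
      ∃ s ∈ A', s i = zi ∧ s j = zj ∧ s k = y k := by
  obtain ⟨g, -, ⟨v, hv, hvA', hvi, hvj⟩, ⟨v', hv', -, hvk', hvj'⟩⟩ :=
    basicB hC.lat hA' hx hxA' hr h.perm2
  by_cases hg : t ≤ dg D j g
  · right
    have hgz : g = zj := by
      by_contra hne
      exact hP ⟨v, hv, hvi, by rw [hvj]; exact hne, by rw [hvj]; exact hg⟩
    have hvy : v = y :=
      hC.lat.uniq h.1 (hC.sub _ hv) (hC.sub _ hy) (hvi.trans hyi.symm)
        (hvj.trans (hgz.trans hyj.symm))
    rw [hvy] at hvA'
    refine passG hC.lat hA' hr h (hC.sub _ hy) hvA' hyj ?_ ?_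
    · intro hk
      have : y = x := hC.lat.uniq h.2.1 (hC.sub _ hy) hx hyi hk
      rw [this] at hy
      exact hxD hy
    · exact (Finset.mem_filter.1 hG).2.2.1
  · left
    refine ⟨(v, v'), ?_, hvi.symm, hvk'.symm⟩
    rw [prs, mem_filter, Finset.mem_product]
    refine ⟨⟨hv, hv'⟩, hvj.trans hvj'.symm, ?_⟩
    change ¬ t ≤ dg D j (v j)
    rw [hvj]
    exact hg

/-- rows meeting the hub column in a good symbol and no other big column. -/
def pset (D : Finset (Tr V)) (t : ℕ) (i j k : Fin 3) (zi zj zk : V) : Finset V :=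
  Finset.univ.filter (fun a => (∃ y ∈ D, y i = a ∧ y j = zj ∧ y k ∈ good D i j k zi zj zk) ∧
    ¬ ∃ y ∈ D, y i = a ∧ y j ≠ zj ∧ t ≤ dg D j (y j))

lemma good_symm (D : Finset (Tr V)) (i j k : Fin 3) (zi zj zk : V) :
    good D i j k zi zj zk = good D j i k zj zi zk := by
  ext h
  simp only [good, mem_filter, mem_univ, true_and]
  constructor
  · rintro ⟨h1, h2, h3, h4⟩
    exact ⟨h1, fun y hy hk => (h2 y hy hk).symm, h4, h3⟩
  · rintro ⟨h1, h2, h3, h4⟩
    exact ⟨h1, fun y hy hk => (h2 y hy hk).symm, h4, h3⟩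

lemma Crit.card_pset (hC : Crit A D) (t : ℕ) {i j k : Fin 3} (h : Dist i j k) (zi zj zk : V) :
    (good D i j k zi zj zk).card ≤ (pset D t i j k zi zj zk).card + (sg D t j zj).card := by
  have h1 : (good D i j k zi zj zk).card ≤
      (D.filter (fun y => y j = zj ∧ y k ∈ good D i j k zi zj zk)).card := by
    refine le_trans (Finset.card_le_card ?_) (Finset.card_image_le (f := fun y : Tr V => y k))
    intro g hg
    obtain ⟨y, hy, hyk, hyj⟩ := (Finset.mem_filter.1 hg).2.2.2.2
    rw [Finset.mem_image]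
    refine ⟨y, ?_, hyk⟩
    rw [mem_filter]
    exact ⟨hy, hyj, by rw [hyk]; exact hg⟩
  have h2 : (D.filter (fun y => y j = zj ∧ y k ∈ good D i j k zi zj zk)).card ≤
      (pset D t i j k zi zj zk ∪ (sg D t j zj).image (fun y => y i)).card := by
    refine Finset.card_le_card_of_injOn (fun y => y i) ?_ ?_
    · intro y hy
      rw [Finset.mem_coe, mem_filter] at hy
      rw [Finset.mem_coe, Finset.mem_union]
      by_cases hs : ∃ y' ∈ D, y' i = y i ∧ y' j ≠ zj ∧ t ≤ dg D j (y' j)
      · right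
        obtain ⟨y', hy', h3, h4, h5⟩ := hs
        rw [Finset.mem_image]
        exact ⟨y', Finset.mem_filter.2 ⟨hy', h4, h5⟩, h3⟩
      · left
        exact Finset.mem_filter.2 ⟨Finset.mem_univ _, ⟨y, hy.1, rfl, hy.2.1, hy.2.2⟩, hs⟩
    · intro y hy y' hy' hyy
      rw [Finset.mem_coe, mem_filter] at hy hy'
      exact hC.lat.uniq h.1 (hC.sub _ hy.1) (hC.sub _ hy'.1) hyy (hy.2.1.trans hy'.2.1.symm)
  refine h1.trans (h2.trans ((Finset.card_union_le _ _).trans ?_))
  exact Nat.add_le_add_left Finset.card_image_le _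

/-- few pairs of a good row and a good column. -/
lemma Crit.prod_le (hC : Crit A D) (t : ℕ) {i j k : Fin 3} (h : Dist i j k) (zi zj zk : V) :
    (pset D t i j k zi zj zk).card * (pset D t j i k zj zi zk).card ≤
      D.card + Fintype.card V + D.card * t + D.card * t := by
  classical
  let E1 : Finset (V × V) := D.image (fun y => (y i, y j))
  let E3 : Finset (V × V) := Finset.univ.image
    (fun g : V => (hC.lat.el h.2.2 zj g i, hC.lat.el h.2.1 zi g j))
  let E4 : Finset (V × V) := (prs D t j).image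
    (fun p => (p.1 i, hC.lat.el h.2.1 (p.1 i) (p.2 k) j))
  let E5 : Finset (V × V) := (prs D t i).image
    (fun p => (hC.lat.el h.2.2 (p.1 j) (p.2 k) i, p.1 j))
  have hsub : (pset D t i j k zi zj zk) ×ˢ (pset D t j i k zj zi zk) ⊆ E1 ∪ E3 ∪ E4 ∪ E5 := by
    intro p hp
    obtain ⟨a, b⟩ := p
    rw [Finset.mem_product] at hp
    obtain ⟨⟨⟨ya, hya, hyai, hyaj, hyak⟩, hPa⟩, ⟨⟨yb, hyb, hybj, hybi, hybk⟩, hPb⟩⟩ :=
      And.intro (Finset.mem_filter.1 hp.1).2 (Finset.mem_filter.1 hp.2).2
    simp only at hyai hPa hybj hPb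
    obtain ⟨x, hx, hxi, hxj⟩ := hC.lat.ex h.1 a b
    by_cases hxD : x ∈ D
    · have : (a, b) ∈ E1 := Finset.mem_image.2 ⟨x, hxD, by rw [hxi, hxj]⟩
      simp [this]
    obtain ⟨A', hA', hxA', hr⟩ := hC.sw x hx hxD
    rcases hC.half hA' hx hxA' hr hxD h (zi := zi) (zj := zj) (zk := zk) (t := t)
      (by rw [hxi]; exact hPa) hya (by rw [hxi]; exact hyai) hyaj hyak with h4 | h4
    · obtain ⟨p, hp, hpi, hpk⟩ := h4
      have : (a, b) ∈ E4 := by
        refine Finset.mem_image.2 ⟨p, hp, ?_⟩
        rw [← hpi, ← hpk, hC.lat.el_eq h.2.1 hx, hxi, hxj]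
      simp [this]
    rcases hC.half hA' hx hxA' hr hxD h.perm1 (zi := zj) (zj := zi) (zk := zk) (t := t)
      (by rw [hxj]; exact hPb) hyb (by rw [hxj]; exact hybj) hybi hybk with h5 | h5
    · obtain ⟨p, hp, hpj, hpk⟩ := h5
      have : (a, b) ∈ E5 := by
        refine Finset.mem_image.2 ⟨p, hp, ?_⟩
        rw [← hpj, ← hpk, hC.lat.el_eq h.2.2 hx, hxi, hxj]
      simp [this]
    obtain ⟨s, hs, hsi, hsj, hsk⟩ := h4
    obtain ⟨s', hs', hsj', hsi', hsk'⟩ := h5
    have hss : s = s' := hA'.uniq h.1 hs hs' (hsi.trans hsi'.symm) (hsj.trans hsj'.symm)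
    have hk : ya k = yb k := by rw [← hsk, ← hsk', hss]
    have : (a, b) ∈ E3 := by
      refine Finset.mem_image.2 ⟨ya k, Finset.mem_univ _, ?_⟩
      have h6 : hC.lat.el h.2.2 zj (ya k) = ya := by
        rw [← hyaj]
        exact hC.lat.el_eq h.2.2 (hC.sub _ hya)
      have h7 : hC.lat.el h.2.1 zi (ya k) = yb := by
        rw [← hybi, hk]
        exact hC.lat.el_eq h.2.1 (hC.sub _ hyb)
      rw [h6, h7, hyai, hybj]
    simp [this]
  have hc := Finset.card_le_card hsub
  rw [Finset.card_product] at hc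
  have c1 : E1.card ≤ D.card := Finset.card_image_le
  have c3 : E3.card ≤ Fintype.card V := Finset.card_image_le
  have c4 : E4.card ≤ D.card * t := Finset.card_image_le.trans (card_prs D t j)
  have c5 : E5.card ≤ D.card * t := Finset.card_image_le.trans (card_prs D t i)
  have u1 := Finset.card_union_le (E1 ∪ E3 ∪ E4) E5
  have u2 := Finset.card_union_le (E1 ∪ E3) E4
  have u3 := Finset.card_union_le E1 E3
  omega

/-- the good lines are few. -/
lemma Crit.card_good_le (hC : Crit A D) (t w : ℕ) {i j k : Fin 3} (h : Dist i j k)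
    (zi zj zk : V) (hw : D.card + Fintype.card V + D.card * t + D.card * t < (w + 1) ^ 2)
    {s : ℕ} (hi : (sg D t i zi).card ≤ s) (hj : (sg D t j zj).card ≤ s) :
    (good D i j k zi zj zk).card ≤ s + w := by
  have h1 := hC.card_pset t h zi zj zk
  have h2 := hC.card_pset t h.perm1 zj zi zk
  rw [← good_symm] at h2
  have h3 := hC.prod_le t h zi zj zk
  by_contra hcon
  have h4 : w + 1 ≤ (pset D t i j k zi zj zk).card := by omega
  have h5 : w + 1 ≤ (pset D t j i k zj zi zk).card := by omega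
  have h6 : (w + 1) ^ 2 ≤ (pset D t i j k zi zj zk).card * (pset D t j i k zj zi zk).card := by
    rw [sq]
    exact Nat.mul_le_mul h4 h5
  omega

/-- elements of `D` on no hub. -/
def xset (D : Finset (Tr V)) (z : Fin 3 → V) : Finset (Tr V) :=
  D.filter (fun y => ∀ l, y l ≠ z l)

lemma card_missing (hC : Crit A D) {i k : Fin 3} (h : i ≠ k) (zi : V) {e : ℕ}
    (he : Fintype.card V ≤ dg D i zi + e) :
    (Finset.univ.filter (fun g : V => ¬ ∃ y ∈ D, y k = g ∧ y i = zi)).card ≤ e := by
  have h1 : dg D i zi ≤ (Finset.univ.filter (fun g : V => ∃ y ∈ D, y k = g ∧ y i = zi)).card := by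
    unfold dg
    refine Finset.card_le_card_of_injOn (fun y => y k) ?_ ?_
    · intro y hy
      rw [Finset.mem_coe, mem_filter] at hy
      rw [Finset.mem_coe, mem_filter]
      exact ⟨Finset.mem_univ _, y, hy.1, rfl, hy.2⟩
    · intro y hy y' hy' hyy
      rw [Finset.mem_coe, mem_filter] at hy hy'
      exact hC.lat.uniq h (hC.sub _ hy.1) (hC.sub _ hy'.1) (hy.2.trans hy'.2.symm) hyy
  have h2 := Finset.card_filter_add_card_filter_not (s := (Finset.univ : Finset V))
    (fun g : V => ∃ y ∈ D, y k = g ∧ y i = zi)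
  have h3 : (Finset.univ : Finset V).card = Fintype.card V := rfl
  omega

lemma Crit.card_good_ge (hC : Crit A D) {i j k : Fin 3} (h : Dist i j k) (z : Fin 3 → V)
    {t b e : ℕ} (ht : 0 < t) (hb : D.card ≤ t * b)
    (hz : ∀ l, Fintype.card V ≤ dg D l (z l) + e) :
    Fintype.card V ≤ (good D i j k (z i) (z j) (z k)).card + 1 + 2 * e +
      ((xset D z).filter (fun y => ¬ t ≤ dg D k (y k))).card + b := by
  let N1 := Finset.univ.filter (fun g : V => ¬ ∃ y ∈ D, y k = g ∧ y i = z i)
  let N2 := Finset.univ.filter (fun g : V => ¬ ∃ y ∈ D, y k = g ∧ y j = z j)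
  let Bk := Finset.univ.filter (fun a => t ≤ dg D k a)
  let Xs := (xset D z).filter (fun y => ¬ t ≤ dg D k (y k))
  have hcov : (Finset.univ : Finset V) ⊆ good D i j k (z i) (z j) (z k) ∪ {z k} ∪ N1 ∪ N2 ∪
      Xs.image (fun y => y k) ∪ Bk := by
    intro g _
    by_cases h1 : g = z k
    · simp [h1]
    by_cases h2 : g ∈ N1
    · simp [h2]
    by_cases h3 : g ∈ N2
    · simp [h3]
    by_cases h4 : g ∈ Bk
    · simp [h4]
    by_cases h5 : g ∈ good D i j k (z i) (z j) (z k)
    · simp [h5]
    have h2' : ∃ y ∈ D, y k = g ∧ y i = z i := by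
      by_contra hcon
      exact h2 (Finset.mem_filter.2 ⟨Finset.mem_univ _, hcon⟩)
    have h3' : ∃ y ∈ D, y k = g ∧ y j = z j := by
      by_contra hcon
      exact h3 (Finset.mem_filter.2 ⟨Finset.mem_univ _, hcon⟩)
    have h6 : ¬ ∀ y ∈ D, y k = g → y i = z i ∨ y j = z j := by
      intro hcon
      exact h5 (Finset.mem_filter.2 ⟨Finset.mem_univ _, h1, hcon, h2', h3'⟩)
    push Not at h6
    obtain ⟨y, hy, hyk, hyi, hyj⟩ := h6
    have h7 : g ∈ Xs.image (fun y => y k) := by
      refine Finset.mem_image.2 ⟨y, ?_, hyk⟩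
      rw [mem_filter, xset, mem_filter]
      refine ⟨⟨hy, ?_⟩, ?_⟩
      · intro l
        rcases h.cases l with rfl | rfl | rfl
        · exact hyi
        · exact hyj
        · rw [hyk]; exact h1
      · intro hcon
        rw [hyk] at hcon
        exact h4 (Finset.mem_filter.2 ⟨Finset.mem_univ _, hcon⟩)
    rw [Finset.mem_union, Finset.mem_union]
    exact Or.inl (Or.inr h7)
  have hc := Finset.card_le_card hcov
  have e1 : N1.card ≤ e := card_missing hC h.2.1 (z i) (hz i)
  have e2 : N2.card ≤ e := card_missing hC h.2.2 (z j) (hz j)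
  have e3 : Bk.card ≤ b := card_bigLines D k t b ht hb
  have e4 : (Xs.image (fun y => y k)).card ≤ Xs.card := Finset.card_image_le
  have e5 : ({z k} : Finset V).card = 1 := Finset.card_singleton _
  have e6 : (Finset.univ : Finset V).card = Fintype.card V := rfl
  have u1 := Finset.card_union_le (good D i j k (z i) (z j) (z k) ∪ {z k} ∪ N1 ∪ N2 ∪
      Xs.image (fun y => y k)) Bk
  have u2 := Finset.card_union_le (good D i j k (z i) (z j) (z k) ∪ {z k} ∪ N1 ∪ N2)
    (Xs.image (fun y => y k))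
  have u3 := Finset.card_union_le (good D i j k (z i) (z j) (z k) ∪ {z k} ∪ N1) N2
  have u4 := Finset.card_union_le (good D i j k (z i) (z j) (z k) ∪ {z k}) N1
  have u5 := Finset.card_union_le (good D i j k (z i) (z j) (z k)) {z k}
  change _ ≤ _ + Xs.card + _
  omega

lemma Crit.line_inter (hC : Crit A D) {i j : Fin 3} (h : i ≠ j) (z : Fin 3 → V) :
    ((D.filter (fun y => y i = z i)) ∩ (D.filter (fun y => y j = z j))).card ≤ 1 := by
  rw [Finset.card_le_one]
  intro a ha b hb
  rw [Finset.mem_inter, mem_filter, mem_filter] at ha hb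
  exact hC.lat.uniq h (hC.sub _ ha.1.1) (hC.sub _ hb.1.1) (ha.1.2.trans hb.1.2.symm)
    (ha.2.2.trans hb.2.2.symm)

lemma Crit.card_split (hC : Crit A D) (z : Fin 3 → V) :
    (xset D z).card + dg D 0 (z 0) + dg D 1 (z 1) + dg D 2 (z 2) ≤ D.card + 3 := by
  have h01 := hC.line_inter (i := 0) (j := 1) (by decide) z
  have h02 := hC.line_inter (i := 0) (j := 2) (by decide) z
  have h12 := hC.line_inter (i := 1) (j := 2) (by decide) z
  unfold dg
  have hu1 := Finset.card_union_add_card_inter (D.filter (fun y => y 0 = z 0))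
    (D.filter (fun y => y 1 = z 1))
  have hu2 := Finset.card_union_add_card_inter ((D.filter (fun y => y 0 = z 0)) ∪
    (D.filter (fun y => y 1 = z 1))) (D.filter (fun y => y 2 = z 2))
  have hi2 : (((D.filter (fun y => y 0 = z 0)) ∪ (D.filter (fun y => y 1 = z 1))) ∩
      (D.filter (fun y => y 2 = z 2))).card ≤
      ((D.filter (fun y => y 0 = z 0)) ∩ (D.filter (fun y => y 2 = z 2))).card +
      ((D.filter (fun y => y 1 = z 1)) ∩ (D.filter (fun y => y 2 = z 2))).card := by
    rw [Finset.union_inter_distrib_right]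
    exact Finset.card_union_le _ _
  have hdis : Disjoint (xset D z) ((D.filter (fun y => y 0 = z 0)) ∪
      (D.filter (fun y => y 1 = z 1)) ∪ (D.filter (fun y => y 2 = z 2))) := by
    rw [Finset.disjoint_left]
    intro y hy hy'
    have h1 := (Finset.mem_filter.1 hy).2
    simp only [Finset.mem_union, mem_filter] at hy'
    rcases hy' with (h2 | h2) | h2
    · exact h1 0 h2.2
    · exact h1 1 h2.2
    · exact h1 2 h2.2
  have hsub : (xset D z) ∪ ((D.filter (fun y => y 0 = z 0)) ∪
      (D.filter (fun y => y 1 = z 1)) ∪ (D.filter (fun y => y 2 = z 2))) ⊆ D := by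
    intro y hy
    simp only [Finset.mem_union, mem_filter, xset] at hy
    tauto
  have hc := Finset.card_le_card hsub
  rw [Finset.card_union_of_disjoint hdis] at hc
  omega

lemma Crit.card_sg_le (hC : Crit A D) {i j k : Fin 3} (h : Dist i j k) (z : Fin 3 → V)
    {t b : ℕ} (ht : 0 < t) (hb : D.card ≤ t * b) :
    (sg D t k (z k)).card ≤ ((xset D z).filter (fun y => t ≤ dg D k (y k))).card + 2 * b := by
  have hone : ∀ l, l ≠ k → (D.filter (fun y => y l = z l ∧ t ≤ dg D k (y k))).card ≤ b := by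
    intro l hl
    refine le_trans ?_ (card_bigLines D k t b ht hb)
    refine Finset.card_le_card_of_injOn (fun y => y k) ?_ ?_
    · intro y hy
      rw [Finset.mem_coe, mem_filter] at hy
      rw [Finset.mem_coe, mem_filter]
      exact ⟨Finset.mem_univ _, hy.2.2⟩
    · intro y hy y' hy' hyy
      rw [Finset.mem_coe, mem_filter] at hy hy'
      exact hC.lat.uniq hl (hC.sub _ hy.1) (hC.sub _ hy'.1) (hy.2.1.trans hy'.2.1.symm) hyy
  have h1 := hone i h.2.1
  have h2 := hone j h.2.2
  have hsub : sg D t k (z k) ⊆ (xset D z).filter (fun y => t ≤ dg D k (y k)) ∪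
      D.filter (fun y => y i = z i ∧ t ≤ dg D k (y k)) ∪
      D.filter (fun y => y j = z j ∧ t ≤ dg D k (y k)) := by
    intro y hy
    obtain ⟨hyD, hyk, hyt⟩ := Finset.mem_filter.1 hy
    by_cases hi : y i = z i
    · simp [hyD, hi, hyt]
    by_cases hj : y j = z j
    · simp [hyD, hj, hyt]
    have : y ∈ (xset D z).filter (fun y => t ≤ dg D k (y k)) := by
      rw [mem_filter, xset, mem_filter]
      refine ⟨⟨hyD, ?_⟩, hyt⟩
      intro l
      rcases h.cases l with rfl | rfl | rfl
      · exact hi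
      · exact hj
      · exact hyk
    rw [Finset.mem_union, Finset.mem_union]
    exact Or.inl (Or.inl this)
  have hc := Finset.card_le_card hsub
  have u1 := Finset.card_union_le ((xset D z).filter (fun y => t ≤ dg D k (y k)) ∪
      D.filter (fun y => y i = z i ∧ t ≤ dg D k (y k)))
      (D.filter (fun y => y j = z j ∧ t ≤ dg D k (y k)))
  have u2 := Finset.card_union_le ((xset D z).filter (fun y => t ≤ dg D k (y k)))
      (D.filter (fun y => y i = z i ∧ t ≤ dg D k (y k)))
  omega

/-- Case II: hubs of all three types. -/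
theorem Crit.caseII (hC : Crit A D) {t e b w : ℕ} (ht : 0 < t) (hb : D.card ≤ t * b)
    (z : Fin 3 → V) (hz : ∀ l, Fintype.card V ≤ dg D l (z l) + e)
    (hw : D.card + Fintype.card V + D.card * t + D.card * t < (w + 1) ^ 2) :
    4 * Fintype.card V ≤ D.card + 5 * e + 3 * b + 4 + w := by
  -- choose the type with the largest `sg`
  obtain ⟨k, hk⟩ : ∃ k : Fin 3, ∀ l, (sg D t l (z l)).card ≤ (sg D t k (z k)).card := by
    obtain ⟨k, -, hk⟩ := Finset.exists_max_image (Finset.univ : Finset (Fin 3))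
      (fun l => (sg D t l (z l)).card) ⟨0, Finset.mem_univ _⟩
    exact ⟨k, fun l => hk l (Finset.mem_univ _)⟩
  obtain ⟨i, j, hd⟩ : ∃ i j : Fin 3, Dist i j k := by
    unfold Dist
    fin_cases k
    · exact ⟨1, 2, by decide⟩
    · exact ⟨0, 2, by decide⟩
    · exact ⟨0, 1, by decide⟩
  have h1 := hC.card_good_le t w hd (z i) (z j) (z k) hw (hk i) (hk j)
  have h2 := hC.card_good_ge hd z ht hb hz
  have h3 := hC.card_sg_le hd z ht hb
  have h4 := hC.card_split z
  have h5 := Finset.card_filter_add_card_filter_not (s := xset D z)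
    (fun y => t ≤ dg D k (y k))
  have z0 := hz 0
  have z1 := hz 1
  have z2 := hz 2
  omega

/-- The abstract bound. -/
theorem Crit.bound (hC : Crit A D) {M t e b w : ℕ} (ht : 0 < t) (h1 : M * t ≤ e)
    (h2 : D.card ≤ (M + 1) * e) (hb : D.card ≤ t * b) (he : e + t ≤ Fintype.card V)
    (hw : D.card + Fintype.card V + D.card * t + D.card * t < (w + 1) ^ 2) :
    4 * Fintype.card V ≤ D.card + 5 * e + 3 * b ^ 2 + 3 * b + 4 + w := by
  by_cases hno : ∃ k : Fin 3, ∀ h, dg D k h + e < Fintype.card V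
  · obtain ⟨k, hk⟩ := hno
    have := hC.caseI ht h1 h2 hb he hk
    omega
  · push Not at hno
    choose z hz using hno
    have := hC.caseII ht hb z hz hw
    omega

end Pool.Agent.Lib.MP_469949_co
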