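import Pool.Agent.Lib.MP_469949_co.Extend
import Pool.Agent.Lib.MP_469949_co.UpperC

/-!
Upper bound for `lcs n`: conclusion.
-/

namespace Pool.Agent.Lib.MP_469949_co

open Finset

/-- the set of triples of a latin square. -/
def trs {n : ℕ} (L : Fin n → Fin n → Fin n) : Set (Tr (Fin n)) := {t | L (t 0) (t 1) = t 2}

lemma latSet_trs {n : ℕ} {L : Fin n → Fin n → Fin n} (hL : IsLatinSquare L) : LatSet (trs L) := by
  have d01 : Dist 0 1 2 := by unfold Dist; decide
  have d02 : Dist 0 2 1 := by unfold Dist; decide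
  have d12 : Dist 1 2 0 := by unfold Dist; decide
  intro i a
  fin_cases i
  · -- column and symbol given
    have hinj : Function.Injective (fun r => L r (a 1)) := fun r r' h => hL.2 r r' _ h
    obtain ⟨r, hr⟩ := (Finite.injective_iff_surjective.1 hinj) (a 2)
    refine ⟨![r, a 1, a 2], ⟨hr, (d12.ag _ _).2 ⟨rfl, rfl⟩⟩, ?_⟩
    rintro t ⟨ht, hta⟩
    have h12 := (d12.ag _ _).1 hta
    have ht' : L (t 0) (t 1) = t 2 := ht
    rw [h12.1, h12.2] at ht'
    refine d12.ext h12.1 h12.2 ?_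
    exact hL.2 _ _ (a 1) (ht'.trans hr.symm)
  · have hinj : Function.Injective (L (a 0)) := fun c c' h => hL.1 _ c c' h
    obtain ⟨c, hc⟩ := (Finite.injective_iff_surjective.1 hinj) (a 2)
    refine ⟨![a 0, c, a 2], ⟨hc, (d02.ag _ _).2 ⟨rfl, rfl⟩⟩, ?_⟩
    rintro t ⟨ht, hta⟩
    have h12 := (d02.ag _ _).1 hta
    have ht' : L (t 0) (t 1) = t 2 := ht
    rw [h12.1, h12.2] at ht'
    refine d02.ext h12.1 h12.2 ?_
    exact hL.1 (a 0) _ _ (ht'.trans hc.symm)
  · refine ⟨![a 0, a 1, L (a 0) (a 1)], ⟨rfl, (d01.ag _ _).2 ⟨rfl, rfl⟩⟩, ?_⟩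
    rintro t ⟨ht, hta⟩
    have h12 := (d01.ag _ _).1 hta
    have ht' : L (t 0) (t 1) = t 2 := ht
    rw [h12.1, h12.2] at ht'
    exact d01.ext h12.1 h12.2 ht'.symm

/-- the triples of `L` at the empty cells of `P`. -/
def compl {n : ℕ} (P : Fin n → Fin n → Option (Fin n)) (L : Fin n → Fin n → Fin n) :
    Finset (Tr (Fin n)) :=
  Finset.univ.filter (fun t => L (t 0) (t 1) = t 2 ∧ P (t 0) (t 1) = none)

lemma card_compl {n : ℕ} (P : Fin n → Fin n → Option (Fin n)) (L : Fin n → Fin n → Fin n) :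
    (compl P L).card + size P = n ^ 2 := by
  have h1 : (Finset.univ.filter (fun x : Fin n × Fin n => (P x.1 x.2).isSome = true)).card +
      (Finset.univ.filter (fun x : Fin n × Fin n => ¬ (P x.1 x.2).isSome = true)).card =
        n ^ 2 := by
    rw [Finset.card_filter_add_card_filter_not]
    simp [sq]
  have h2 : (compl P L).card =
      (Finset.univ.filter (fun x : Fin n × Fin n => ¬ (P x.1 x.2).isSome = true)).card := by
    refine Finset.card_bij (fun t _ => (t 0, t 1)) ?_ ?_ ?_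
    · intro t ht
      have := (Finset.mem_filter.1 ht).2.2
      simp [this]
    · intro s hs t ht hst
      have h3 := (Finset.mem_filter.1 hs).2.1
      have h4 := (Finset.mem_filter.1 ht).2.1
      rw [Prod.ext_iff] at hst
      simp only at hst
      have d01 : Dist 0 1 2 := by unfold Dist; decide
      refine d01.ext hst.1 hst.2 ?_
      rw [← h3, ← h4, hst.1, hst.2]
    · intro x hx
      have hx' := (Finset.mem_filter.1 hx).2
      refine ⟨![x.1, x.2, L x.1 x.2], ?_, rfl⟩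
      refine Finset.mem_filter.2 ⟨Finset.mem_univ _, rfl, ?_⟩
      simpa using hx'
  unfold size
  omega

lemma crit_of {n : ℕ} {P : Fin n → Fin n → Option (Fin n)} (hP : IsCriticalSet P) :
    ∃ L, Crit (trs L) (compl P L) := by
  obtain ⟨L, hL, hu⟩ := hP.2.1
  refine ⟨L, latSet_trs hL.1, fun t ht => (Finset.mem_filter.1 ht).2.1, ?_⟩
  intro x hx hxD
  have hx' : L (x 0) (x 1) = x 2 := hx
  have hPx : P (x 0) (x 1) ≠ none := by
    intro h
    exact hxD (Finset.mem_filter.2 ⟨Finset.mem_univ _, hx', h⟩)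
  obtain ⟨L₁, L₂, hne, h₁, h₂⟩ := hP.2.2 (x 0) (x 1) (Option.isSome_iff_ne_none.2 hPx)
  obtain ⟨L', hL', hLne⟩ : ∃ L', IsCompletion (emptied P (x 0) (x 1)) L' ∧ L' ≠ L := by
    by_cases h : L₁ = L
    · exact ⟨L₂, h₂, fun h' => hne (h.trans h'.symm)⟩
    · exact ⟨L₁, h₁, h⟩
  refine ⟨trs L', latSet_trs hL'.1, ?_, ?_⟩
  · intro hx2
    have hx2' : L' (x 0) (x 1) = x 2 := hx2
    apply hLne
    refine hu L' ⟨hL'.1, ?_⟩
    intro r c s hs
    by_cases hrc : r = x 0 ∧ c = x 1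
    · have h3 := hL.2 r c s hs
      rw [hrc.1, hrc.2] at h3 ⊢
      rw [hx2', ← hx', h3]
    · refine hL'.2 r c s ?_
      simp [emptied, hrc, hs]
  · intro t ht htD htx
    have ht' : L (t 0) (t 1) = t 2 := ht
    have hPt : P (t 0) (t 1) ≠ none := by
      intro h
      exact htD (Finset.mem_filter.2 ⟨Finset.mem_univ _, ht', h⟩)
    obtain ⟨s, hs⟩ := Option.ne_none_iff_exists'.1 hPt
    have hst : s = t 2 := by rw [← ht']; exact (hL.2 _ _ _ hs).symm
    have hrc : ¬ (t 0 = x 0 ∧ t 1 = x 1) := by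
      rintro ⟨h1, h2⟩
      apply htx
      have d01 : Dist 0 1 2 := by unfold Dist; decide
      refine d01.ext h1 h2 ?_
      rw [← ht', ← hx', h1, h2]
    change L' (t 0) (t 1) = t 2
    rw [← hst]
    refine hL'.2 _ _ _ ?_
    simp [emptied, hrc, hs]

/-- the abstract bound with explicit parameters. -/
lemma Crit.bound_real {V : Type} [Fintype V] [DecidableEq V] {A : Set (Tr V)}
    {D : Finset (Tr V)} (hC : Crit A D) (q : ℝ) (hq : 1 ≤ q) (hn : q ^ 5 = Fintype.card V) :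
    4 * (Fintype.card V : ℝ) ≤ D.card + 100 * q ^ 4 := by
  have hq0 : 0 ≤ q := by linarith
  have hq4 : 0 ≤ q ^ 4 := by positivity
  by_cases hm : 4 * (Fintype.card V : ℝ) ≤ D.card
  · linarith
  push Not at hm
  by_cases hq7 : q < 7
  · have : q ^ 5 ≤ 7 * q ^ 4 := by
      have : q ^ 5 = q * q ^ 4 := by ring
      rw [this]
      exact mul_le_mul_of_nonneg_right hq7.le hq4
    have hD0 : (0 : ℝ) ≤ D.card := Nat.cast_nonneg _
    rw [← hn]
    linarith
  push Not at hq7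
  have hm' : D.card ≤ 4 * Fintype.card V := by
    have : (D.card : ℝ) ≤ ((4 * Fintype.card V : ℕ) : ℝ) := by push_cast; linarith
    exact_mod_cast this
  set n := Fintype.card V with hndef
  set M := ⌊q⌋₊ with hM
  set t := ⌈q ^ 3⌉₊ with ht
  set e := ⌈4 * q ^ 4⌉₊ with he
  set b := ⌈4 * q ^ 2⌉₊ with hb
  set w := ⌊5 * q ^ 4⌋₊ with hw
  have hM1 : (M : ℝ) ≤ q := Nat.floor_le hq0
  have hM2 : q < M + 1 := Nat.lt_floor_add_one q
  have ht1 : q ^ 3 ≤ t := Nat.le_ceil _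
  have ht2 : (t : ℝ) < q ^ 3 + 1 := Nat.ceil_lt_add_one (by positivity)
  have he1 : 4 * q ^ 4 ≤ e := Nat.le_ceil _
  have he2 : (e : ℝ) < 4 * q ^ 4 + 1 := Nat.ceil_lt_add_one (by positivity)
  have hb1 : 4 * q ^ 2 ≤ b := Nat.le_ceil _
  have hb2 : (b : ℝ) < 4 * q ^ 2 + 1 := Nat.ceil_lt_add_one (by positivity)
  have hw1 : (w : ℝ) ≤ 5 * q ^ 4 := Nat.floor_le (by positivity)
  have hw2 : 5 * q ^ 4 < w + 1 := Nat.lt_floor_add_one _
  have hq2 : 1 ≤ q ^ 2 := one_le_pow₀ hq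
  have hq3 : 1 ≤ q ^ 3 := one_le_pow₀ hq
  have hq41 : 1 ≤ q ^ 4 := one_le_pow₀ hq
  have hq51 : 1 ≤ q ^ 5 := one_le_pow₀ hq
  have hM0 : (0 : ℝ) ≤ M := Nat.cast_nonneg _
  have ht0' : (0 : ℝ) ≤ t := Nat.cast_nonneg _
  have ht0 : 0 < t := by
    have : (0 : ℝ) < t := by linarith
    exact_mod_cast this
  have c1 : M * t ≤ e := by
    have : ((M * t : ℕ) : ℝ) ≤ (e : ℝ) := by
      push_cast
      calc (M : ℝ) * t ≤ q * (2 * q ^ 3) := by
            refine mul_le_mul hM1 (by linarith) ht0' hq0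
        _ = 2 * q ^ 4 := by ring
        _ ≤ e := by linarith
    exact_mod_cast this
  have c2 : D.card ≤ (M + 1) * e := by
    refine hm'.trans ?_
    have : ((4 * n : ℕ) : ℝ) ≤ (((M + 1) * e : ℕ) : ℝ) := by
      push_cast
      calc (4 : ℝ) * n = q * (4 * q ^ 4) := by rw [← hn]; ring
        _ ≤ ((M : ℝ) + 1) * e := by
            refine mul_le_mul hM2.le he1 (by positivity) (by linarith)
    exact_mod_cast this
  have c3 : D.card ≤ t * b := by
    refine hm'.trans ?_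
    have : ((4 * n : ℕ) : ℝ) ≤ ((t * b : ℕ) : ℝ) := by
      push_cast
      calc (4 : ℝ) * n = q ^ 3 * (4 * q ^ 2) := by rw [← hn]; ring
        _ ≤ (t : ℝ) * b := by
            refine mul_le_mul ht1 hb1 (by positivity) ht0'
    exact_mod_cast this
  have c4 : e + t ≤ n := by
    have : ((e + t : ℕ) : ℝ) ≤ ((n : ℕ) : ℝ) := by
      push_cast
      rw [← hn]
      have h5 : 7 * q ^ 4 ≤ q ^ 5 := by
        have : q ^ 5 = q * q ^ 4 := by ring
        rw [this]
        exact mul_le_mul_of_nonneg_right hq7 hq4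
      have h3 : q ^ 3 ≤ q ^ 4 := by
        have : q ^ 4 = q * q ^ 3 := by ring
        rw [this]
        nlinarith
      linarith
    exact_mod_cast this
  have c5 : D.card + n + D.card * t + D.card * t < (w + 1) ^ 2 := by
    have : ((D.card + n + D.card * t + D.card * t : ℕ) : ℝ) < (((w + 1) ^ 2 : ℕ) : ℝ) := by
      push_cast
      have hD0 : (0 : ℝ) ≤ D.card := Nat.cast_nonneg _
      have hDt : (D.card : ℝ) * t ≤ (4 * q ^ 5) * (2 * q ^ 3) := by
        rw [hn]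
        refine mul_le_mul (by linarith) (by linarith) ht0' (by positivity)
      have h8 : q ^ 5 ≤ q ^ 8 := by
        have : q ^ 8 = q ^ 5 * q ^ 3 := by ring
        rw [this]
        nlinarith
      have h9 : (5 * q ^ 4) ^ 2 < ((w : ℝ) + 1) ^ 2 := by
        refine pow_lt_pow_left₀ hw2 (by positivity) (by norm_num)
      have h10 : (5 * q ^ 4) ^ 2 = 25 * q ^ 8 := by ring
      have h11 : (4 * q ^ 5) * (2 * q ^ 3) = 8 * q ^ 8 := by ring
      have h12 : (D.card : ℝ) ≤ 4 * q ^ 5 := by rw [hn]; linarith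
      have h13 : (n : ℝ) = q ^ 5 := hn.symm
      linarith
    exact_mod_cast this
  have hfin := hC.bound ht0 c1 c2 c3 c4 c5
  have hfin' : (4 : ℝ) * n ≤ D.card + 5 * e + 3 * (b : ℝ) ^ 2 + 3 * b + 4 + w := by
    exact_mod_cast hfin
  have hb3 : (b : ℝ) ^ 2 ≤ (4 * q ^ 2 + 1) ^ 2 := by
    refine pow_le_pow_left₀ (Nat.cast_nonneg _) hb2.le 2
  have hb4 : (4 * q ^ 2 + 1) ^ 2 = 16 * q ^ 4 + 8 * q ^ 2 + 1 := by ring
  have hq24 : q ^ 2 ≤ q ^ 4 / 49 := by
    have : q ^ 4 = q ^ 2 * q ^ 2 := by ring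
    rw [this]
    have : (49 : ℝ) ≤ q ^ 2 := by nlinarith
    nlinarith
  linarith

/-- `lcs n ≤ n ^ 2 - 4 n + 100 n ^ (4 / 5)`. -/
theorem lcs_upper (n : ℕ) :
    (lcs n : ℝ) ≤ (n : ℝ) ^ 2 - 4 * n + 100 * (n : ℝ) ^ ((4 : ℝ) / 5) := by
  rcases Nat.eq_zero_or_pos n with rfl | hn
  · have : lcs 0 ≤ 0 := by
      refine csSup_le' ?_
      rintro k ⟨P, -, rfl⟩
      simpa using size_le P
    have h0 : lcs 0 = 0 := by omega
    rw [h0]
    norm_num
  set q : ℝ := (n : ℝ) ^ ((1 : ℝ) / 5) with hq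
  have hn0 : (0 : ℝ) ≤ n := Nat.cast_nonneg _
  have hn1 : (1 : ℝ) ≤ n := by exact_mod_cast hn
  have hq1 : 1 ≤ q := Real.one_le_rpow hn1 (by norm_num)
  have hq5 : q ^ 5 = n := by
    rw [hq, ← Real.rpow_natCast, ← Real.rpow_mul hn0]
    norm_num
  have hq4 : q ^ 4 = (n : ℝ) ^ ((4 : ℝ) / 5) := by
    rw [hq, ← Real.rpow_natCast, ← Real.rpow_mul hn0]
    norm_num
  rw [← hq4]
  have hall : ∀ P : Fin n → Fin n → Option (Fin n), IsCriticalSet P →
      (size P : ℝ) ≤ (n : ℝ) ^ 2 - 4 * n + 100 * q ^ 4 := by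
    intro P hP
    obtain ⟨L, hC⟩ := crit_of hP
    have h1 := hC.bound_real q hq1 (by rw [hq5]; simp)
    have h2 : (((compl P L).card + size P : ℕ) : ℝ) = ((n ^ 2 : ℕ) : ℝ) := by
      rw [card_compl]
    push_cast at h2
    rw [Fintype.card_fin] at h1
    linarith
  have hne : (0 : ℝ) ≤ (n : ℝ) ^ 2 - 4 * n + 100 * q ^ 4 := by
    have : q ^ 5 = q * q ^ 4 := by ring
    have h4 : (0 : ℝ) ≤ q ^ 4 := by positivity
    by_cases h25 : q ≤ 25
    · have : 4 * (n : ℝ) ≤ 100 * q ^ 4 := by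
        rw [← hq5]
        nlinarith
      nlinarith
    · push Not at h25
      have : (4 : ℝ) ≤ n := by
        rw [← hq5]
        have : (1 : ℝ) ≤ q ^ 4 := one_le_pow₀ hq1
        nlinarith
      nlinarith
  have hbdd := bddAbove_sizes n
  rcases Set.eq_empty_or_nonempty
    {k | ∃ P : Fin n → Fin n → Option (Fin n), IsCriticalSet P ∧ size P = k} with hemp | hne'
  · unfold lcs
    rw [hemp]
    simpa using hne
  · have hmem := Nat.sSup_mem hne' hbdd
    obtain ⟨P, hP, hk⟩ := hmem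
    have := hall P hP
    unfold lcs
    rw [← hk]
    exact this

end Pool.Agent.Lib.MP_469949_co
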